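import Pool.Agent.Helper97.SD.Defs
import Pool.Agent.Helper41.Eggert.Zero

/-!
# Linear subspaces and quadric cones in a smooth hypersurface
-/

set_option autoImplicit false

namespace Pool.Agent.Helper97.SD

open MvPolynomial

universe u

variable {k : Type u} [Field k] {n : ℕ}

/-- If `f` vanishes on the line `x + t v`, then the derivative of `f` at `x` in the direction `v` is zero. -/
theorem grad_dir [Infinite k] (f : MvPolynomial (Fin (n + 1)) k) (x v : Fin (n + 1) → k)
    (h : ∀ t : k, aeval (fun i => x i + t * v i) f = 0) : ∑ i, aeval x (pderiv i f) * v i = 0 := by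
  obtain ⟨q, hq⟩ : ∃ q : Polynomial k,
      q = aeval (fun i => Polynomial.C (x i) + Polynomial.X * Polynomial.C (v i)) f := ⟨_, rfl⟩
  have h0 : q = 0 := by
    refine Polynomial.funext fun t => ?_
    have h1 : Polynomial.eval t q = aeval (fun i => x i + t * v i) f := by
      rw [hq, ← Polynomial.coe_aeval_eq_eval, ← AlgHom.comp_apply, comp_aeval]
      congr 2
      ext i
      simp
      exact mul_comm _ _
    rw [h1, h t, Polynomial.eval_zero]
  have h2 : ∀ g : MvPolynomial (Fin (n + 1)) k,
      Polynomial.derivative (aeval (fun i => Polynomial.C (x i) + Polynomial.X * Polynomial.C (v i)) g) =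
        ∑ i, aeval (fun i => Polynomial.C (x i) + Polynomial.X * Polynomial.C (v i)) (pderiv i g) *
          Polynomial.C (v i) := by
    intro g
    induction g using MvPolynomial.induction_on with
    | C a => simp
    | add p q hp hq => simp only [map_add, hp, hq, add_mul, Finset.sum_add_distrib]
    | mul_X p j hp =>
      have e1 : ∀ i, aeval (fun i => Polynomial.C (x i) + Polynomial.X * Polynomial.C (v i)) (pderiv i (p * X j)) *
          Polynomial.C (v i) = (if i = j then
            aeval (fun i => Polynomial.C (x i) + Polynomial.X * Polynomial.C (v i)) p * Polynomial.C (v j) else 0) +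
          (aeval (fun i => Polynomial.C (x i) + Polynomial.X * Polynomial.C (v i)) (pderiv i p) *
            Polynomial.C (v i)) *
            aeval (fun i => Polynomial.C (x i) + Polynomial.X * Polynomial.C (v i))
              (X j : MvPolynomial (Fin (n + 1)) k) := by
        intro i
        rw [Derivation.leibniz, pderiv_X, smul_eq_mul, smul_eq_mul, map_add, map_mul, map_mul]
        by_cases hij : i = j
        · subst hij
          simp only [Pi.single_eq_same, map_one, if_true]
          ring
        · rw [Pi.single_eq_of_ne (Ne.symm hij), map_zero, if_neg hij]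
          ring
      rw [Finset.sum_congr rfl fun i _ => e1 i, Finset.sum_add_distrib, Finset.sum_ite_eq', ← Finset.sum_mul, ← hp,
        map_mul, Polynomial.derivative_mul, if_pos (Finset.mem_univ _)]
      simp only [aeval_X, Polynomial.derivative_add, Polynomial.derivative_C, Polynomial.derivative_mul,
        Polynomial.derivative_X, one_mul, mul_zero, add_zero, zero_add]
      ring
  have h3 := h2 f
  rw [← hq, h0, Polynomial.derivative_zero] at h3
  have h4 := congrArg (Polynomial.eval 0) h3
  rw [Polynomial.eval_zero, Polynomial.eval_finsetSum] at h4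
  rw [h4]
  refine Finset.sum_congr rfl fun i _ => ?_
  rw [Polynomial.eval_mul, Polynomial.eval_C, ← Polynomial.coe_aeval_eq_eval, ← AlgHom.comp_apply, comp_aeval]
  congr 3
  ext i
  simp

/-- A form of positive degree vanishes at the origin. -/
theorem eval_zero_of_homog {g : MvPolynomial (Fin (n + 1)) k} {d : ℕ} (hg : g.IsHomogeneous d) (hd : d ≠ 0) :
    eval (0 : Fin (n + 1) → k) g = 0 := by
  have h2 : eval (0 : Fin (n + 1) → k) g = coeff 0 g := by simp [← constantCoeff_eq]
  rw [h2]
  by_contra hcon
  have h1 := hg hcon
  simp at h1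
  exact hd h1.symm

/-- the linear form with coefficients `a` -/
noncomputable def lin (a : Fin (n + 1) → k) : MvPolynomial (Fin (n + 1)) k := ∑ i, C (a i) * X i

theorem lin_homog (a : Fin (n + 1) → k) : (lin a).IsHomogeneous 1 :=
  IsHomogeneous.sum _ _ _ fun i _ => isHomogeneous_C_mul_X (a i) i

theorem eval_lin (a x : Fin (n + 1) → k) : eval x (lin a) = ∑ i, a i * x i := by
  simp [lin]

theorem cone_hyper [IsAlgClosed k] (hn : 2 ≤ n) {f : MvPolynomial (Fin (n + 1)) k}
    (hf : f.IsHomogeneous 6) (hsm : Smooth f) (a : Fin (n + 1) → k) (ha : a ≠ 0)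
    (h : ∀ x : Fin (n + 1) → k, ∑ i, a i * x i = 0 → aeval x f = 0) : False := by
  classical
  have : Infinite k := IsAlgClosed.instInfinite
  obtain ⟨i, hi⟩ := Function.ne_iff.1 ha
  have hi' : a i ≠ 0 := hi
  obtain ⟨x, hx, hz⟩ := Helper41.Eggert.exists_ne_zero_common_zero (K := k)
    ({lin a, pderiv i f} : Finset (MvPolynomial (Fin (n + 1)) k))
    (lt_of_le_of_lt Finset.card_le_two (by omega)) (by
      intro g hg
      simp only [Finset.mem_insert, Finset.mem_singleton] at hg
      rcases hg with rfl | rfl
      · exact eval_zero_of_homog (lin_homog a) one_ne_zero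
      · exact eval_zero_of_homog (hf.pderiv (i := i)) (by norm_num))
  have hxa : ∑ i, a i * x i = 0 := by
    rw [← eval_lin]
    exact hz _ (by simp)
  have hxi : aeval x (pderiv i f) = 0 := by
    exact hz _ (by simp)
  obtain ⟨l, hl⟩ := hsm x hx (h x hxa)
  apply hl
  by_cases hli : l = i
  · rw [hli, hxi]
  have h1 := grad_dir f x (Pi.single l (a i) - Pi.single i (a l)) (by
    intro t
    apply h
    simp only [mul_add, Finset.sum_add_distrib, hxa, zero_add, Pi.sub_apply]
    simp only [mul_sub, Finset.sum_sub_distrib, Pi.single_apply]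
    simp
    ring)
  simp only [Pi.sub_apply, mul_sub, Finset.sum_sub_distrib, Pi.single_apply] at h1
  simp only [mul_ite, mul_zero, Finset.sum_ite_eq', Finset.mem_univ, if_true, hxi, zero_mul, sub_zero] at h1
  exact (mul_eq_zero.1 h1).resolve_right hi'

theorem cone_codim [IsAlgClosed k] (hn : 4 ≤ n) {f : MvPolynomial (Fin (n + 1)) k}
    (hf : f.IsHomogeneous 6) (hsm : Smooth f) (a b : Fin (n + 1) → k)
    (h : ∀ x : Fin (n + 1) → k, ∑ i, a i * x i = 0 → ∑ i, b i * x i = 0 → aeval x f = 0) : False := by
  classical
  have : Infinite k := IsAlgClosed.instInfinite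
  by_cases hm : ∃ i j, a i * b j - a j * b i ≠ 0
  · obtain ⟨i, j, hij⟩ := hm
    obtain ⟨x, hx, hz⟩ := Helper41.Eggert.exists_ne_zero_common_zero (K := k)
      ({lin a, lin b, pderiv i f, pderiv j f} : Finset (MvPolynomial (Fin (n + 1)) k))
      (lt_of_le_of_lt Finset.card_le_four (by omega)) (by
        intro g hg
        simp only [Finset.mem_insert, Finset.mem_singleton] at hg
        rcases hg with rfl | rfl | rfl | rfl
        · exact eval_zero_of_homog (lin_homog a) one_ne_zero
        · exact eval_zero_of_homog (lin_homog b) one_ne_zero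
        · exact eval_zero_of_homog (hf.pderiv (i := i)) (by norm_num)
        · exact eval_zero_of_homog (hf.pderiv (i := j)) (by norm_num))
    have hxa : ∑ i, a i * x i = 0 := by
      rw [← eval_lin]
      exact hz _ (by simp)
    have hxb : ∑ i, b i * x i = 0 := by
      rw [← eval_lin]
      exact hz _ (by simp)
    have hxi : aeval x (pderiv i f) = 0 := by
      exact hz _ (by simp)
    have hxj : aeval x (pderiv j f) = 0 := by
      exact hz _ (by simp)
    obtain ⟨l, hl⟩ := hsm x hx (h x hxa hxb)
    apply hl
    have h1 := grad_dir f x (Pi.single l (a i * b j - a j * b i) + Pi.single i (a j * b l - a l * b j) +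
      Pi.single j (a l * b i - a i * b l)) (by
      intro t
      apply h
      · simp only [mul_add, Finset.sum_add_distrib, hxa, zero_add, Pi.add_apply, Pi.single_apply]
        simp
        ring
      · simp only [mul_add, Finset.sum_add_distrib, hxb, zero_add, Pi.add_apply, Pi.single_apply]
        simp
        ring)
    simp only [Pi.add_apply, mul_add, Finset.sum_add_distrib, Pi.single_apply] at h1
    simp only [mul_ite, mul_zero, Finset.sum_ite_eq', Finset.mem_univ, if_true, hxi, hxj, zero_mul,
      add_zero] at h1
    exact (mul_eq_zero.1 h1).resolve_right hij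
  · push Not at hm
    by_cases ha : a = 0
    · by_cases hb : b = 0
      · subst ha hb
        refine cone_hyper (by omega) hf hsm (Pi.single 0 1) (by simp) fun x _ => h x (by simp) (by simp)
      · refine cone_hyper (by omega) hf hsm b hb fun x hx => h x (by simp [ha]) hx
    · refine cone_hyper (by omega) hf hsm a ha fun x hx => h x hx ?_
      obtain ⟨i, hi⟩ := Function.ne_iff.1 ha
      have hi' : a i ≠ 0 := hi
      have h2 : a i * ∑ j, b j * x j = b i * ∑ j, a j * x j := by
        rw [Finset.mul_sum, Finset.mul_sum]
        refine Finset.sum_congr rfl fun j _ => ?_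
        linear_combination (x j) * hm i j
      rw [hx, mul_zero] at h2
      exact (mul_eq_zero.1 h2).resolve_left hi'

end Pool.Agent.Helper97.SD
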