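import Pool.Agent.Helper97.SD.Defs
import Pool.Agent.Helper41.Eggert.Zero

/-!
# Quadric cones in a smooth hypersurface

With `l = ∑ a i X i`, `u` with `a · u = 1` and `e` with `a · e = 0`, `Q (e) = 1`, divide `f (x - l (x) u + Z e)`
by the monic quadratic polynomial `Q (x - l (x) u + Z e)` in `Z`. The remainder vanishes at every point at
which the discriminant is not zero, so it is zero; at `Z = 0` this gives `f = l g + Q h`, and a common zero
of the forms `l, g, Q, h` is a singular zero of `f`.
-/

set_option autoImplicit false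

namespace Pool.Agent.Helper97.SD.Qd

open MvPolynomial

universe u

variable {k : Type u} [Field k] {n : ℕ}

/-- A quadratic form is given by a matrix. -/
theorem quad_matrix {N : ℕ} (h2 : (2 : k) ≠ 0) {Q : MvPolynomial (Fin N) k}
    (hQ : Q.IsHomogeneous 2) :
    ∃ m : Fin N → Fin N → k, Q = ∑ i, ∑ j, C (m i j) * (X i * X j) := by
  have hc : ∀ i j, ∃ c : k, pderiv j (pderiv i Q) = C c := by
    intro i j
    have h : (pderiv j (pderiv i Q)).IsHomogeneous 0 := (hQ.pderiv (i := i)).pderiv (i := j)
    rw [← totalDegree_zero_iff_isHomogeneous, totalDegree_eq_zero_iff_eq_C] at h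
    exact ⟨_, h⟩
  choose c hc using hc
  refine ⟨fun i j => 2⁻¹ * c i j, ?_⟩
  have h1 := hQ.sum_X_mul_pderiv
  have h3 : ∀ i, ∑ j, X j * C (c i j) = pderiv i Q := by
    intro i
    have h : ∑ j, X j * pderiv j (pderiv i Q) = 1 • pderiv i Q :=
      IsHomogeneous.sum_X_mul_pderiv (hQ.pderiv (i := i))
    simpa [hc] using h
  have h4 : (C (2⁻¹ : k) : MvPolynomial (Fin N) k) * (2 • Q) = Q := by
    rw [nsmul_eq_mul, ← mul_assoc]
    have : ((2 : ℕ) : MvPolynomial (Fin N) k) = C (2 : k) := by
      rw [Nat.cast_ofNat]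
      exact (map_ofNat (C : k →+* MvPolynomial (Fin N) k) 2).symm
    rw [this, ← C_mul, inv_mul_cancel₀ h2, C_1, one_mul]
  rw [← h4, ← h1, Finset.mul_sum]
  refine Finset.sum_congr rfl fun i _ => ?_
  rw [← h3 i, Finset.mul_sum, Finset.mul_sum]
  refine Finset.sum_congr rfl fun j _ => ?_
  rw [C_mul]
  ring

/-- Polynomials congruent under a substitution which changes the variables by multiples of `l`. -/
theorem sub_aeval_dvd {N : ℕ} (l : MvPolynomial (Fin N) k) (π : Fin N → MvPolynomial (Fin N) k)
    (hπ : ∀ i, l ∣ X i - π i) (f : MvPolynomial (Fin N) k) : l ∣ f - aeval π f := by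
  rw [← Ideal.mem_span_singleton, ← Ideal.Quotient.mk_eq_mk_iff_sub_mem]
  have h : (Ideal.Quotient.mkₐ k (Ideal.span {l})) =
      (Ideal.Quotient.mkₐ k (Ideal.span {l})).comp (aeval π) := by
    ext i
    rw [AlgHom.comp_apply, aeval_X]
    change Ideal.Quotient.mk _ _ = Ideal.Quotient.mk _ _
    rw [Ideal.Quotient.mk_eq_mk_iff_sub_mem, Ideal.mem_span_singleton]
    exact hπ i
  have h1 := DFunLike.congr_fun h f
  exact h1

theorem homogeneousComponent_mul' {N : ℕ} {φ ψ : MvPolynomial (Fin N) k} {a b : ℕ}
    (hφ : φ.IsHomogeneous a) :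
    homogeneousComponent (a + b) (φ * ψ) = φ * homogeneousComponent b ψ := by
  conv_lhs => rw [← sum_homogeneousComponent ψ, Finset.mul_sum, map_sum]
  have h : ∀ i, homogeneousComponent (a + b) (φ * homogeneousComponent i ψ) =
      if i = b then φ * homogeneousComponent i ψ else 0 := by
    intro i
    have h1 : (φ * homogeneousComponent i ψ).IsHomogeneous (a + i) :=
      hφ.mul (homogeneousComponent_isHomogeneous i ψ)
    rw [homogeneousComponent_of_mem (m := a + b) (n := a + i) h1]
    by_cases hi : i = b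
    · simp [hi]
    · rw [if_neg hi, if_neg (by omega)]
  simp_rw [h]
  rw [Finset.sum_ite_eq']
  split_ifs with hb
  · rfl
  · rw [homogeneousComponent_eq_zero]
    · simp
    · simpa using hb


/-- A common zero of `l, g, Q, h` is a singular zero of `l g + Q h`. -/
theorem singular_of [IsAlgClosed k] (hn : 4 ≤ n) {f l g Q h : MvPolynomial (Fin (n + 1)) k}
    (hl : l.IsHomogeneous 1) (hg : g.IsHomogeneous 5) (hQ : Q.IsHomogeneous 2)
    (hh : h.IsHomogeneous 4) (hf : f = l * g + Q * h) (hsm : Smooth f) : False := by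
  classical
  obtain ⟨x, hx, hz⟩ := Helper41.Eggert.exists_ne_zero_common_zero (K := k) (N := n + 1)
    ({l, g, Q, h} : Finset (MvPolynomial (Fin (n + 1)) k))
    (lt_of_le_of_lt Finset.card_le_four (by omega)) (by
      intro p hp
      have hz : ∀ {q : MvPolynomial (Fin (n + 1)) k} {d : ℕ}, q.IsHomogeneous (d + 1) →
          eval (0 : Fin (n + 1) → k) q = 0 := by
        intro q d hq
        rw [eval_zero, constantCoeff_eq]
        exact hq.coeff_eq_zero (by simp)
      simp only [Finset.mem_insert, Finset.mem_singleton] at hp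
      rcases hp with rfl | rfl | rfl | rfl
      · exact hz hl
      · exact hz hg
      · exact hz hQ
      · exact hz hh)
  have e1 := hz l (by simp)
  have e2 := hz g (by simp)
  have e3 := hz Q (by simp)
  have e4 := hz h (by simp)
  have hfx : aeval x f = 0 := by
    rw [hf, map_add, map_mul, map_mul, aeval_eq_eval, e1, e3]
    simp
  obtain ⟨i, hi⟩ := hsm x hx hfx
  apply hi
  rw [hf, map_add, Derivation.leibniz, Derivation.leibniz]
  simp only [map_add, smul_eq_mul, map_mul, aeval_eq_eval, e1, e2, e3, e4]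
  simp


/-- The quadratic form of the matrix `m`. -/
def qf {N : ℕ} {L : Type*} [CommRing L] [Algebra k L] (m : Fin N → Fin N → k) (x : Fin N → L) : L :=
  ∑ i, ∑ j, algebraMap k L (m i j) * (x i * x j)

/-- The polar form of the matrix `m`. -/
def bf {N : ℕ} {L : Type*} [CommRing L] [Algebra k L] (m : Fin N → Fin N → k) (x y : Fin N → L) : L :=
  ∑ i, ∑ j, algebraMap k L (m i j) * (x i * y j + y i * x j)

theorem qf_line {N : ℕ} {L : Type*} [CommRing L] [Algebra k L] (m : Fin N → Fin N → k)
    (x y : Fin N → L) (z : L) :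
    qf m (fun i => x i + z * y i) = qf m x + z * bf m x y + z ^ 2 * qf m y := by
  simp only [qf, bf, Finset.mul_sum, ← Finset.sum_add_distrib]
  refine Finset.sum_congr rfl fun i _ => Finset.sum_congr rfl fun j _ => ?_
  ring

theorem aeval_qf {N : ℕ} {L : Type*} [CommRing L] [Algebra k L] {m : Fin N → Fin N → k}
    {Q : MvPolynomial (Fin N) k} (hm : Q = ∑ i, ∑ j, C (m i j) * (X i * X j)) (x : Fin N → L) :
    aeval x Q = qf m x := by
  rw [hm, qf, map_sum]
  refine Finset.sum_congr rfl fun i _ => ?_
  rw [map_sum]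
  refine Finset.sum_congr rfl fun j _ => ?_
  rw [map_mul, map_mul, aeval_X, aeval_X, aeval_C]

theorem map_bf {N : ℕ} {L M : Type*} [CommRing L] [Algebra k L] [CommRing M] [Algebra k M]
    (m : Fin N → Fin N → k) (φ : L →ₐ[k] M) (x y : Fin N → L) :
    φ (bf m x y) = bf m (fun i => φ (x i)) (fun i => φ (y i)) := by
  simp [bf, map_sum]

theorem map_qf {N : ℕ} {L M : Type*} [CommRing L] [Algebra k L] [CommRing M] [Algebra k M]
    (m : Fin N → Fin N → k) (φ : L →ₐ[k] M) (x : Fin N → L) :
    φ (qf m x) = qf m (fun i => φ (x i)) := by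
  simp [qf, map_sum]

/-- Evaluation of a polynomial over a polynomial ring at the point `x` and the value `z`. -/
noncomputable def psi {N : ℕ} (x : Fin N → k) (z : k) :
    Polynomial (MvPolynomial (Fin N) k) →ₐ[k] k :=
  (Polynomial.aeval z).comp (Polynomial.mapAlgHom (aeval x))

theorem psi_C {N : ℕ} (x : Fin N → k) (z : k) (r : MvPolynomial (Fin N) k) :
    psi x z (Polynomial.C r) = aeval x r := by
  simp [psi]

theorem psi_X {N : ℕ} (x : Fin N → k) (z : k) : psi x z Polynomial.X = z := by
  simp [psi]

end Pool.Agent.Helper97.SD.Qd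

namespace Pool.Agent.Helper97.SD

open MvPolynomial Qd

universe u

variable {k : Type u} [Field k] {n : ℕ}

/-- A smooth sextic does not vanish at the points of a quadric of rank at least two in a hyperplane. -/
theorem cone_quadric [IsAlgClosed k] (hn : 4 ≤ n) (h2 : (2 : k) ≠ 0) {f : MvPolynomial (Fin (n + 1)) k}
    (hf : f.IsHomogeneous 6) (hsm : Smooth f) (a : Fin (n + 1) → k) (ha : a ≠ 0)
    (Q : MvPolynomial (Fin (n + 1)) k) (hQ : Q.IsHomogeneous 2) (θ η : Fin (n + 1) → k)
    (hθ : ∑ i, a i * θ i = 0) (hη : ∑ i, a i * η i = 0) (hQθ : aeval θ Q = 0)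
    (hpol : aeval (θ + η) Q - aeval θ Q - aeval η Q ≠ 0)
    (h : ∀ x : Fin (n + 1) → k, ∑ i, a i * x i = 0 → aeval x Q = 0 →
      (∃ y : Fin (n + 1) → k, ∑ i, a i * y i = 0 ∧ aeval (x + y) Q - aeval x Q - aeval y Q ≠ 0) →
      aeval x f = 0) : False := by
  classical
  obtain ⟨m, hm⟩ := quad_matrix h2 hQ
  -- the vector `e`
  have hq : ∀ x : Fin (n + 1) → k, aeval x Q = qf m x := fun x => aeval_qf hm x
  have hline : ∀ (x y : Fin (n + 1) → k) (z : k),
      qf m (fun i => x i + z * y i) = qf m x + z * bf m x y + z ^ 2 * qf m y := qf_line m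
  set β := bf m η θ with hβ
  have hβ' : aeval (θ + η) Q - aeval θ Q - aeval η Q = β := by
    have h1 := hline η θ 1
    have h3 : (fun i => η i + 1 * θ i) = θ + η := by
      funext i; simp [add_comm]
    rw [h3] at h1
    rw [hq, hq, hq, h1]
    ring
  rw [hβ'] at hpol
  have hθ0 : qf m θ = 0 := by rw [← hq]; exact hQθ
  set s : k := (1 - qf m η) / β with hs
  set e : Fin (n + 1) → k := fun i => η i + s * θ i with he
  have hea : ∑ i, a i * e i = 0 := by
    have : ∑ i, a i * e i = ∑ i, a i * η i + s * ∑ i, a i * θ i := by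
      rw [Finset.mul_sum, ← Finset.sum_add_distrib]
      exact Finset.sum_congr rfl fun i _ => by rw [he]; ring
    rw [this, hη, hθ]; ring
  have heQ : qf m e = 1 := by
    rw [he, hline, hθ0, ← hβ, hs]
    field_simp
    ring
  have hbθe : bf m θ e = β := by
    have h1 := hline e θ 1
    have h3 : (fun i => e i + 1 * θ i) = fun i => η i + (s + 1) * θ i := by
      funext i; rw [he]; ring
    rw [h3, hline, hθ0, heQ, ← hβ] at h1
    have h4 : qf m η + s * β = 1 := by
      rw [hs]; field_simp; ring
    have h5 : bf m e θ = β := by linear_combination -h1 + h4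
    rw [← h5]
    simp only [bf]
    exact Finset.sum_congr rfl fun i _ => Finset.sum_congr rfl fun j _ => by ring
  -- the projection
  obtain ⟨i0, hi0⟩ : ∃ i, a i ≠ 0 := by
    by_contra hc
    push Not at hc
    exact ha (funext hc)
  set u : Fin (n + 1) → k := Pi.single i0 (a i0)⁻¹ with hu
  have hau : ∑ i, a i * u i = 1 := by
    rw [Finset.sum_eq_single i0]
    · rw [hu, Pi.single_eq_same, mul_inv_cancel₀ hi0]
    · intro j _ hj
      rw [hu, Pi.single_eq_of_ne hj, mul_zero]
    · simp
  set l : MvPolynomial (Fin (n + 1)) k := ∑ i, C (a i) * X i with hl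
  set π : Fin (n + 1) → MvPolynomial (Fin (n + 1)) k := fun i => X i - l * C (u i) with hπ
  have hlx : ∀ x : Fin (n + 1) → k, aeval x l = ∑ i, a i * x i := by
    intro x; rw [hl]; simp [map_sum]
  have hπx : ∀ (x : Fin (n + 1) → k) i, aeval x (π i) = x i - (∑ i, a i * x i) * u i := by
    intro x i
    rw [hπ]
    simp only [map_sub, map_mul, aeval_X, aeval_C, hlx]
    rfl
  have hπa : ∀ x : Fin (n + 1) → k, ∑ i, a i * aeval x (π i) = 0 := by
    intro x
    have : ∑ i, a i * aeval x (π i) = ∑ i, a i * x i - (∑ i, a i * x i) * ∑ i, a i * u i := by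
      rw [Finset.mul_sum, ← Finset.sum_sub_distrib]
      exact Finset.sum_congr rfl fun i _ => by rw [hπx]; ring
    rw [this, hau]; ring
  -- the line through `π x` in the direction `e`
  set P : Fin (n + 1) → Polynomial (MvPolynomial (Fin (n + 1)) k) :=
    fun i => Polynomial.C (π i) + Polynomial.X * Polynomial.C (C (e i)) with hP
  set b : MvPolynomial (Fin (n + 1)) k := bf m π (fun i => C (e i)) with hb
  set c : MvPolynomial (Fin (n + 1)) k := aeval π Q with hc
  set q : Polynomial (MvPolynomial (Fin (n + 1)) k) :=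
    Polynomial.X ^ 2 + Polynomial.C b * Polynomial.X + Polynomial.C c with hqd
  have hqm : q.Monic := by
    rw [hqd]
    monicity!
  have hψP : ∀ (x : Fin (n + 1) → k) (z : k) (g : MvPolynomial (Fin (n + 1)) k),
      psi x z (aeval P g) = aeval (fun i => aeval x (π i) + z * e i) g := by
    intro x z g
    rw [comp_aeval_apply]
    congr 2
    funext i
    rw [hP]
    simp only [map_add, map_mul, psi_C, psi_X, aeval_C]
    rfl
  have hψq : ∀ (x : Fin (n + 1) → k) (z : k),
      psi x z q = qf m (fun i => aeval x (π i) + z * e i) := by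
    intro x z
    rw [hline, heQ, hqd]
    simp only [map_add, map_mul, map_pow, psi_C, psi_X]
    rw [hb, map_bf m (aeval x : MvPolynomial (Fin (n + 1)) k →ₐ[k] k), hc, aeval_qf hm,
      map_qf m (aeval x : MvPolynomial (Fin (n + 1)) k →ₐ[k] k)]
    simp only [aeval_C]
    change z ^ 2 + bf m (fun i => aeval x (π i)) e * z + _ = _
    ring
  set F : Polynomial (MvPolynomial (Fin (n + 1)) k) := aeval P f with hF
  have hdiv := Polynomial.modByMonic_add_div F q
  set r := F %ₘ q with hr
  have hrdeg : r.degree < 2 := by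
    have h1 := Polynomial.degree_modByMonic_lt F hqm
    have h3 : q.degree = 2 := by
      rw [hqd]
      compute_degree!
    rwa [h3] at h1
  have hr1 : r = Polynomial.C (r.coeff 1) * Polynomial.X + Polynomial.C (r.coeff 0) := by
    apply Polynomial.eq_X_add_C_of_degree_le_one
    rw [Polynomial.degree_le_iff_coeff_zero]
    intro j hj
    apply Polynomial.coeff_eq_zero_of_degree_lt
    refine lt_of_lt_of_le hrdeg ?_
    have hj' : 1 < j := by exact_mod_cast hj
    exact_mod_cast hj'
  have hbx : ∀ x : Fin (n + 1) → k, aeval x b = bf m (fun i => aeval x (π i)) e := by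
    intro x
    rw [hb, map_bf m (aeval x : MvPolynomial (Fin (n + 1)) k →ₐ[k] k)]
    simp only [aeval_C]
    rfl
  have hcx : ∀ x : Fin (n + 1) → k, aeval x c = qf m (fun i => aeval x (π i)) := by
    intro x
    rw [hc, aeval_qf hm, map_qf m (aeval x : MvPolynomial (Fin (n + 1)) k →ₐ[k] k)]
  have hψq' : ∀ (x : Fin (n + 1) → k) (z : k),
      psi x z q = z ^ 2 + aeval x b * z + aeval x c := by
    intro x z
    rw [hqd]
    simp only [map_add, map_mul, map_pow, psi_C, psi_X]
  have key : ∀ x : Fin (n + 1) → k, aeval x (b ^ 2 - C 4 * c) ≠ 0 →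
      aeval x (r.coeff 1) = 0 ∧ aeval x (r.coeff 0) = 0 := by
    intro x hx
    obtain ⟨w, hw⟩ := IsAlgClosed.exists_pow_nat_eq (aeval x (b ^ 2 - C 4 * c)) (n := 2) (by norm_num)
    have hw0 : w ≠ 0 := by
      rintro rfl
      apply hx
      rw [← hw]
      ring
    have hw' : w ^ 2 = (aeval x b) ^ 2 - 4 * aeval x c := by
      rw [hw, map_sub, map_mul, map_pow, aeval_C]
      rfl
    have hroot : ∀ z : k, z ^ 2 + aeval x b * z + aeval x c = 0 → 2 * z + aeval x b ≠ 0 →
        aeval x (r.coeff 1) * z + aeval x (r.coeff 0) = 0 := by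
      intro z hz hz2
      have e1 : psi x z q = 0 := by rw [hψq']; exact hz
      have e2 : psi x z F = 0 := by
        rw [hF, hψP]
        apply h
        · have : ∑ i, a i * (aeval x (π i) + z * e i) =
              ∑ i, a i * aeval x (π i) + z * ∑ i, a i * e i := by
            rw [Finset.mul_sum, ← Finset.sum_add_distrib]
            exact Finset.sum_congr rfl fun i _ => by ring
          rw [this, hπa, hea]; ring
        · rw [hq, ← hψq]; exact e1
        · refine ⟨e, hea, ?_⟩
          have e4 : (fun i => aeval x (π i) + z * e i) + e =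
              fun i => aeval x (π i) + (z + 1) * e i := by
            funext i
            simp only [Pi.add_apply]
            ring
          rw [e4, hq, hq, hq, ← hψq, ← hψq, hψq', hψq', heQ]
          intro e5
          apply hz2
          linear_combination e5
      have e3 := congrArg (psi x z) hdiv
      rw [map_add, map_mul, e1, zero_mul, add_zero, e2, hr1, map_add, map_mul, psi_C, psi_C,
        psi_X] at e3
      exact e3
    have h5 := hroot ((-aeval x b + w) / 2) (by field_simp; linear_combination hw') (by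
      intro h6
      apply hw0
      have h7 : 2 * ((-aeval x b + w) / 2) + aeval x b = w := by field_simp; ring
      rw [← h7, h6])
    have h6 := hroot ((-aeval x b - w) / 2) (by field_simp; linear_combination hw') (by
      intro h6
      apply hw0
      have h7 : 2 * ((-aeval x b - w) / 2) + aeval x b = -w := by field_simp; ring
      rw [← neg_neg w, ← h7, h6, neg_zero])
    have h7 : aeval x (r.coeff 1) * w = 0 := by
      have h8 : aeval x (r.coeff 1) * ((-aeval x b + w) / 2) -
          aeval x (r.coeff 1) * ((-aeval x b - w) / 2) = aeval x (r.coeff 1) * w := by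
        field_simp; ring
      rw [← h8]
      linear_combination h5 - h6
    have h8 : aeval x (r.coeff 1) = 0 := (mul_eq_zero.1 h7).resolve_right hw0
    refine ⟨h8, ?_⟩
    rw [h8, zero_mul, zero_add] at h5
    exact h5
  have hD : b ^ 2 - C 4 * c ≠ 0 := by
    intro h0
    have h1 : aeval θ (b ^ 2 - C 4 * c) = 0 := by rw [h0, map_zero]
    have h3 : (fun i => aeval θ (π i)) = θ := by
      funext i
      rw [hπx, hθ]; ring
    rw [map_sub, map_mul, map_pow, hbx, hcx, h3, hbθe, hθ0] at h1
    apply hpol
    have : β ^ 2 = 0 := by linear_combination h1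
    exact pow_eq_zero_iff (two_ne_zero) |>.1 this
  have hrz : ∀ p : MvPolynomial (Fin (n + 1)) k,
      (∀ x : Fin (n + 1) → k, aeval x (b ^ 2 - C 4 * c) ≠ 0 → aeval x p = 0) → p = 0 := by
    intro p hp
    have h1 : (b ^ 2 - C 4 * c) * p = 0 := by
      apply MvPolynomial.funext
      intro x
      rw [map_mul, map_zero]
      by_cases hx : aeval x (b ^ 2 - C 4 * c) = 0
      · rw [← aeval_eq_eval, hx, zero_mul]
      · rw [← aeval_eq_eval, hp x hx, mul_zero]
    exact (mul_eq_zero.1 h1).resolve_left hD
  have hr0 : r = 0 := by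
    rw [hr1, hrz _ fun x hx => (key x hx).1, hrz _ fun x hx => (key x hx).2]
    simp
  -- specialise to `0`
  rw [hr0, zero_add] at hdiv
  set S := F /ₘ q with hS
  have h0 := congrArg ((Polynomial.aeval (0 : MvPolynomial (Fin (n + 1)) k)).restrictScalars k) hdiv
  rw [map_mul, hF] at h0
  have h1 : ((Polynomial.aeval (0 : MvPolynomial (Fin (n + 1)) k)).restrictScalars k) (aeval P f) =
      aeval π f := by
    rw [comp_aeval_apply]
    congr 2
    funext i
    rw [hP]
    simp
  have h3 : ((Polynomial.aeval (0 : MvPolynomial (Fin (n + 1)) k)).restrictScalars k) q = c := by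
    rw [hqd]
    simp
  rw [h1, h3] at h0
  set S0 := ((Polynomial.aeval (0 : MvPolynomial (Fin (n + 1)) k)).restrictScalars k) S with hS0
  have hXπ : ∀ i, l ∣ X i - π i := fun i => ⟨C (u i), by rw [hπ]; ring⟩
  obtain ⟨g1, hg1⟩ := sub_aeval_dvd l π hXπ f
  obtain ⟨g2, hg2⟩ := sub_aeval_dvd l π hXπ Q
  have hfe : f = l * (g1 - g2 * S0) + Q * S0 := by
    linear_combination hg1 - h0 - S0 * hg2
  have hl1 : l.IsHomogeneous 1 := by
    rw [hl]
    apply IsHomogeneous.sum
    intro i _
    have := (isHomogeneous_C (Fin (n + 1)) (a i)).mul (isHomogeneous_X k i)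
    simpa using this
  have hf6 : homogeneousComponent 6 f = f := by
    rw [homogeneousComponent_of_mem (m := 6) (n := 6) hf, if_pos rfl]
  have hf' : f = l * homogeneousComponent 5 (g1 - g2 * S0) + Q * homogeneousComponent 4 S0 := by
    rw [← homogeneousComponent_mul' (a := 1) (b := 5) hl1,
      ← homogeneousComponent_mul' (a := 2) (b := 4) hQ, ← map_add, ← hfe, hf6]
  exact singular_of hn hl1 (homogeneousComponent_isHomogeneous 5 _) hQ
    (homogeneousComponent_isHomogeneous 4 _) hf' hsm

end Pool.Agent.Helper97.SD
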