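import Pool.Agent.Helper97.SD.Defs

/-!
# Taylor coefficients of a form of degree six
-/

set_option autoImplicit false

namespace Pool.Agent.Helper97.SD

open MvPolynomial

universe u

variable {k : Type u} [Field k] {n : ℕ} {L : Type*} [CommRing L] [Algebra k L]

/-! ## Auxiliary statements -/

private theorem aeval_scale {σ M : Type*} [CommRing M] [Algebra k M] {m : ℕ} [Fintype σ]
    {g : MvPolynomial σ k} (hg : g.IsHomogeneous m) (c : M) (x : σ → M) :
    aeval (fun i => c * x i) g = c ^ m * aeval x g := by
  rw [aeval_def, aeval_def, eval₂_eq', eval₂_eq', Finset.mul_sum]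
  refine Finset.sum_congr rfl fun d hd => ?_
  have h1 : ∑ i, d i = m := by
    have h2 := hg (mem_support_iff.1 hd)
    rw [Finsupp.weight_apply, Finsupp.sum_fintype _ _ (by simp)] at h2
    simpa using h2
  have h3 : ∏ i, (c * x i) ^ d i = c ^ m * ∏ i, x i ^ d i := by
    rw [← h1, ← Finset.prod_pow_eq_pow_sum, ← Finset.prod_mul_distrib]
    exact Finset.prod_congr rfl fun i _ => mul_pow _ _ _
  rw [h3]
  ring

private theorem natDegree_line {σ : Type*} {m : ℕ} {g : MvPolynomial σ k} (hg : g.IsHomogeneous m)
    (p θ : σ → L) :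
    (aeval (fun i => Polynomial.C (p i) + Polynomial.X * Polynomial.C (θ i)) g :
      Polynomial L).natDegree ≤ m := by
  rw [← MvPolynomial.aeval_map_algebraMap L (fun i => Polynomial.C (p i) +
    Polynomial.X * Polynomial.C (θ i) : σ → Polynomial L) g]
  have h1 : (map (algebraMap k L) g).totalDegree ≤ m :=
    (hg.map (algebraMap k L)).totalDegree_le
  have h2 := MvPolynomial.aeval_natDegree_le (map (algebraMap k L) g) h1
    (fun i => Polynomial.C (p i) + Polynomial.X * Polynomial.C (θ i) : σ → Polynomial L) (n := 1)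
    (fun i => by
      refine (Polynomial.natDegree_add_le _ _).trans (max_le (by simp) ?_)
      refine Polynomial.natDegree_mul_le.trans ?_
      have := Polynomial.natDegree_X_le (R := L)
      simpa using this)
  simpa using h2

private theorem coeff_one_aux {σ : Type*} [Fintype σ] [DecidableEq σ] (P : MvPolynomial σ k)
    (z v : σ → L) :
    (aeval (fun i => Polynomial.C (z i) + Polynomial.X * Polynomial.C (v i)) P :
      Polynomial L).coeff 1 = ∑ i, aeval z (pderiv i P) * v i ∧
    (aeval (fun i => Polynomial.C (z i) + Polynomial.X * Polynomial.C (v i)) P :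
      Polynomial L).coeff 0 = aeval z P := by
  induction P using MvPolynomial.induction_on with
  | C a =>
    constructor
    · simp [Polynomial.algebraMap_apply]
    · simp [Polynomial.algebraMap_apply]
  | add P Q hP hQ =>
    constructor
    · rw [map_add, Polynomial.coeff_add, hP.1, hQ.1, ← Finset.sum_add_distrib]
      refine Finset.sum_congr rfl fun i _ => ?_
      rw [map_add, map_add, add_mul]
    · rw [map_add, Polynomial.coeff_add, hP.2, hQ.2, map_add]
  | mul_X P j hP =>
    have e1 : (Polynomial.C (z j) + Polynomial.X * Polynomial.C (v j) : Polynomial L).coeff 0 =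
        z j := by
      simp
    have e2 : (Polynomial.C (z j) + Polynomial.X * Polynomial.C (v j) : Polynomial L).coeff 1 =
        v j := by
      rw [Polynomial.coeff_add, Polynomial.coeff_C_succ, zero_add]
      simp
    constructor
    · rw [map_mul, aeval_X, Polynomial.mul_coeff_one, hP.1, hP.2, e1, e2]
      have e3 : ∀ i, aeval z (pderiv i (P * X j)) * v i =
          aeval z (pderiv i P) * v i * z j + (if i = j then v j * aeval z P else 0) := by
        intro i
        rw [pderiv_mul, map_add, map_mul, map_mul, aeval_X]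
        split_ifs with h
        · subst h
          rw [pderiv_X_self, map_one]
          ring
        · rw [pderiv_X_of_ne (Ne.symm h), map_zero]
          ring
      rw [Finset.sum_congr rfl fun i _ => e3 i, Finset.sum_add_distrib, Finset.sum_ite_eq',
        if_pos (Finset.mem_univ _), Finset.sum_mul]
      ring
    · rw [map_mul, aeval_X, Polynomial.mul_coeff_zero, hP.2, e1, map_mul, aeval_X]

private theorem coeff_taylor_sum {P : Polynomial L} (hP : P.natDegree < 7) (s : L) (j : ℕ) :
    (Polynomial.taylor s P).coeff j =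
      ∑ m ∈ Finset.range 7, (m.choose j : L) * s ^ (m - j) * P.coeff m := by
  conv_lhs => rw [P.as_sum_range' 7 hP]
  rw [map_sum, Polynomial.finsetSum_coeff]
  refine Finset.sum_congr rfl fun m _ => ?_
  rw [Polynomial.taylor_monomial, Polynomial.coeff_C_mul, Polynomial.coeff_X_add_C_pow]
  ring

private theorem coeff_prod_line {σ : Type*} (s : Finset σ) (d : σ → ℕ) (p θ : σ → L) :
    (∏ i ∈ s, (Polynomial.C (p i) + Polynomial.X * Polynomial.C (θ i)) ^ d i).natDegree ≤
      ∑ i ∈ s, d i ∧
    (∏ i ∈ s, (Polynomial.C (p i) + Polynomial.X * Polynomial.C (θ i)) ^ d i).coeff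
      (∑ i ∈ s, d i) = ∏ i ∈ s, θ i ^ d i := by
  classical
  have h1 : ∀ i, (Polynomial.C (p i) + Polynomial.X * Polynomial.C (θ i) :
      Polynomial L).natDegree ≤ 1 := by
    intro i
    refine (Polynomial.natDegree_add_le _ _).trans (max_le (by simp) ?_)
    refine Polynomial.natDegree_mul_le.trans ?_
    have := Polynomial.natDegree_X_le (R := L)
    simpa using this
  have h2 : ∀ i, (Polynomial.C (p i) + Polynomial.X * Polynomial.C (θ i) :
      Polynomial L).coeff 1 = θ i := by
    intro i
    rw [Polynomial.coeff_add, Polynomial.coeff_C_succ, zero_add]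
    simp
  have h3 : ∀ i, ((Polynomial.C (p i) + Polynomial.X * Polynomial.C (θ i) :
      Polynomial L) ^ d i).natDegree ≤ d i := by
    intro i
    refine Polynomial.natDegree_pow_le.trans ?_
    have := Nat.mul_le_mul_left (d i) (h1 i)
    simpa using this
  have h4 : ∀ i, ((Polynomial.C (p i) + Polynomial.X * Polynomial.C (θ i) :
      Polynomial L) ^ d i).coeff (d i) = θ i ^ d i := by
    intro i
    have := Polynomial.coeff_pow_of_natDegree_le (m := d i) (h1 i)
    rw [mul_one] at this
    rw [this, h2]
  induction s using Finset.induction_on with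
  | empty => simp
  | insert a s ha ih =>
    rw [Finset.prod_insert ha, Finset.sum_insert ha, Finset.prod_insert ha]
    refine ⟨Polynomial.natDegree_mul_le.trans (add_le_add (h3 a) ih.1), ?_⟩
    rw [Polynomial.coeff_mul_add_eq_of_natDegree_le (h3 a) ih.1, h4, ih.2]

/-! ## Functoriality -/

theorem T_map {L' : Type*} [CommRing L'] [Algebra k L'] (φ : L →ₐ[k] L')
    (f : MvPolynomial (Fin (n + 1)) k) (j : ℕ) (p θ : Fin (n + 1) → L) :
    φ (T f j p θ) = T f j (fun i => φ (p i)) (fun i => φ (θ i)) := by
  unfold T
  have h : Polynomial.mapAlgHom φ (aeval (fun i => Polynomial.C (p i) +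
      Polynomial.X * Polynomial.C (θ i)) f) = aeval (fun i => Polynomial.C (φ (p i)) +
      Polynomial.X * Polynomial.C (φ (θ i))) f := by
    rw [comp_aeval_apply]
    congr 2
    funext i
    simp
  rw [← h, Polynomial.coe_mapAlgHom, Polynomial.coeff_map]
  rfl

private theorem W_eq (f : MvPolynomial (Fin (n + 1)) k) (i j : ℕ) (p θ η : Fin (n + 1) → L) :
    W f i j p θ η = (T f j (fun a => Polynomial.C (p a) + Polynomial.X * Polynomial.C (θ a))
      (fun a => Polynomial.C (η a)) : Polynomial L).coeff i := rfl

theorem W_map {L' : Type*} [CommRing L'] [Algebra k L'] (φ : L →ₐ[k] L')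
    (f : MvPolynomial (Fin (n + 1)) k) (i j : ℕ) (p θ η : Fin (n + 1) → L) :
    φ (W f i j p θ η) = W f i j (fun i => φ (p i)) (fun i => φ (θ i)) (fun i => φ (η i)) := by
  have h := T_map (Polynomial.mapAlgHom φ) f j
    (fun a => Polynomial.C (p a) + Polynomial.X * Polynomial.C (θ a))
    (fun a => Polynomial.C (η a))
  rw [Polynomial.coe_mapAlgHom] at h
  rw [W_eq, W_eq]
  have h2 := congrArg (fun q : Polynomial L' => q.coeff i) h
  simp only [Polynomial.coeff_map] at h2
  refine Eq.trans ?_ (h2.trans ?_)
  · rfl
  · congr 2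
    · funext a
      simp
    · funext a
      simp

/-! ## The expansions -/

theorem T_poly {f : MvPolynomial (Fin (n + 1)) k} (hf : f.IsHomogeneous 6) (p θ : Fin (n + 1) → L)
    (r : L) : aeval (fun i => p i + r * θ i) f = ∑ j ∈ Finset.range 7, T f j p θ * r ^ j := by
  have h1 : ((Polynomial.aeval r : Polynomial L →ₐ[L] L).restrictScalars k)
      (aeval (fun i => Polynomial.C (p i) + Polynomial.X * Polynomial.C (θ i)) f) =
      aeval (fun i => p i + r * θ i) f := by
    rw [comp_aeval_apply]
    congr 2
    funext i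
    simp
    ring
  rw [← h1, AlgHom.restrictScalars_apply, Polynomial.coe_aeval_eq_eval,
    Polynomial.eval_eq_sum_range' (Nat.lt_succ_of_le (natDegree_line hf p θ))]
  rfl

theorem T_zero (f : MvPolynomial (Fin (n + 1)) k) (p θ : Fin (n + 1) → L) :
    T f 0 p θ = aeval p f := (coeff_one_aux f p θ).2

theorem T_six {f : MvPolynomial (Fin (n + 1)) k} (hf : f.IsHomogeneous 6) (p θ : Fin (n + 1) → L) :
    T f 6 p θ = aeval θ f := by
  unfold T
  rw [aeval_def, aeval_def, eval₂_eq', eval₂_eq', Polynomial.finsetSum_coeff]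
  refine Finset.sum_congr rfl fun d hd => ?_
  have h1 : ∑ i, d i = 6 := by
    have h2 := hf (mem_support_iff.1 hd)
    rw [Finsupp.weight_apply, Finsupp.sum_fintype _ _ (by simp)] at h2
    simpa using h2
  have h2 := (coeff_prod_line Finset.univ d p θ).2
  rw [h1] at h2
  rw [Polynomial.algebraMap_apply, Polynomial.coeff_C_mul, h2]

theorem T_shift {f : MvPolynomial (Fin (n + 1)) k} (hf : f.IsHomogeneous 6) (j : ℕ)
    (p θ : Fin (n + 1) → L) (s : L) :
    T f j (fun i => p i + s * θ i) θ =
      ∑ m ∈ Finset.range 7, (m.choose j : L) * s ^ (m - j) * T f m p θ := by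
  have h1 : ((Polynomial.taylorAlgHom s).restrictScalars k)
      (aeval (fun i => Polynomial.C (p i) + Polynomial.X * Polynomial.C (θ i)) f) =
      aeval (fun i => Polynomial.C (p i + s * θ i) + Polynomial.X * Polynomial.C (θ i)) f := by
    rw [comp_aeval_apply]
    congr 2
    funext i
    simp
    ring
  have h2 := coeff_taylor_sum (Nat.lt_succ_of_le (natDegree_line hf p θ)) s j
  unfold T
  rw [← h1]
  exact h2

theorem T_smul (f : MvPolynomial (Fin (n + 1)) k) (j : ℕ) (p θ : Fin (n + 1) → L) (c : L) :
    T f j p (fun i => c * θ i) = c ^ j * T f j p θ := by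
  have h1 : ((Polynomial.aeval (Polynomial.C c * Polynomial.X : Polynomial L) :
      Polynomial L →ₐ[L] Polynomial L).restrictScalars k)
      (aeval (fun i => Polynomial.C (p i) + Polynomial.X * Polynomial.C (θ i)) f) =
      aeval (fun i => Polynomial.C (p i) + Polynomial.X * Polynomial.C (c * θ i)) f := by
    rw [comp_aeval_apply]
    congr 2
    funext i
    simp
    ring
  unfold T
  rw [← h1, AlgHom.restrictScalars_apply, ← Polynomial.comp_eq_aeval,
    Polynomial.comp_C_mul_X_coeff]
  ring

theorem T_self {f : MvPolynomial (Fin (n + 1)) k} (hf : f.IsHomogeneous 6) (j : ℕ)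
    (p : Fin (n + 1) → L) (c : L) :
    T f j p (fun i => c * p i) = (Nat.choose 6 j : L) * c ^ j * aeval p f := by
  have h0 : (fun i => Polynomial.C (p i) + Polynomial.X * Polynomial.C (c * p i) :
      Fin (n + 1) → Polynomial L) =
      fun i => (1 + Polynomial.C c * Polynomial.X) * Polynomial.C (p i) := by
    funext i
    rw [Polynomial.C_mul]
    ring
  have h1 : (aeval (fun i => Polynomial.C (p i)) f : Polynomial L) =
      Polynomial.C (aeval p f) := by
    have := comp_aeval_apply (R := k) p (Algebra.ofId L (Polynomial L) |>.restrictScalars k) f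
    rw [← Polynomial.algebraMap_eq]
    exact this.symm
  unfold T
  rw [h0, aeval_scale hf, h1, Polynomial.coeff_mul_C]
  have h2 : (1 + Polynomial.C c * Polynomial.X : Polynomial L) ^ 6 =
      ((1 + Polynomial.X : Polynomial L) ^ 6).comp (Polynomial.C c * Polynomial.X) := by
    simp
  rw [h2, Polynomial.comp_C_mul_X_coeff, Polynomial.coeff_one_add_X_pow]

/-! ## The linear form `T f 1 p` -/

theorem T_one (f : MvPolynomial (Fin (n + 1)) k) (p θ : Fin (n + 1) → L) :
    T f 1 p θ = ∑ i, aeval p (pderiv i f) * θ i := (coeff_one_aux f p θ).1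

theorem T_one_add (f : MvPolynomial (Fin (n + 1)) k) (p θ η : Fin (n + 1) → L) (a b : L) :
    T f 1 p (fun i => a * θ i + b * η i) = a * T f 1 p θ + b * T f 1 p η := by
  rw [T_one, T_one, T_one, Finset.mul_sum, Finset.mul_sum, ← Finset.sum_add_distrib]
  exact Finset.sum_congr rfl fun i _ => by ring

private theorem natDegree_Q {f : MvPolynomial (Fin (n + 1)) k} (hf : f.IsHomogeneous 6)
    (p θ η : Fin (n + 1) → L) :
    (T f 1 (fun a => Polynomial.C (p a) + Polynomial.X * Polynomial.C (θ a))
      (fun a => Polynomial.C (η a)) : Polynomial L).natDegree < 7 := by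
  rw [T_one]
  refine Nat.lt_succ_of_le ((Polynomial.natDegree_sum_le _ _).trans ?_)
  refine Finset.fold_max_le _ |>.2 ⟨Nat.zero_le _, fun i _ => ?_⟩
  refine (Polynomial.natDegree_mul_C_le _ _).trans ?_
  exact (natDegree_line (hf.pderiv (i := i)) p θ).trans (by norm_num)

/-- Along the line `p + s θ`. -/
theorem T_one_shift {f : MvPolynomial (Fin (n + 1)) k} (hf : f.IsHomogeneous 6)
    (p θ η : Fin (n + 1) → L) (s : L) :
    T f 1 (fun i => p i + s * θ i) η = ∑ m ∈ Finset.range 7, s ^ m * W f m 1 p θ η := by
  have h1 := T_map ((Polynomial.aeval s : Polynomial L →ₐ[L] L).restrictScalars k) f 1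
    (fun a => Polynomial.C (p a) + Polynomial.X * Polynomial.C (θ a))
    (fun a => Polynomial.C (η a))
  simp only [AlgHom.restrictScalars_apply, map_add, map_mul, Polynomial.aeval_X,
    Polynomial.aeval_C, Algebra.algebraMap_self, RingHom.id_apply] at h1
  rw [← h1, Polynomial.coe_aeval_eq_eval, Polynomial.eval_eq_sum_range' (natDegree_Q hf p θ η)]
  refine Finset.sum_congr rfl fun m _ => ?_
  rw [W_eq]
  ring

/-! ## The quadratic form `T f 2 p` and its polar form `W f 1 1 p` -/

private theorem W_zero_left (f : MvPolynomial (Fin (n + 1)) k) (j : ℕ) (p θ η : Fin (n + 1) → L) :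
    W f 0 j p θ η = T f j p η := by
  have h1 := T_map ((Polynomial.aeval (0 : L) : Polynomial L →ₐ[L] L).restrictScalars k) f j
    (fun a => Polynomial.C (p a) + Polynomial.X * Polynomial.C (θ a))
    (fun a => Polynomial.C (η a))
  simp only [AlgHom.restrictScalars_apply, map_add, map_mul, Polynomial.aeval_X,
    Polynomial.aeval_C, Algebra.algebraMap_self, RingHom.id_apply, zero_mul, add_zero] at h1
  rw [← h1, Polynomial.coe_aeval_eq_eval, ← Polynomial.coeff_zero_eq_eval_zero, W_eq]

theorem W_zero_one (f : MvPolynomial (Fin (n + 1)) k) (p θ η : Fin (n + 1) → L) :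
    W f 0 1 p θ η = T f 1 p η := W_zero_left f 1 p θ η

private theorem W_zero_right (f : MvPolynomial (Fin (n + 1)) k) (i : ℕ) (p θ η : Fin (n + 1) → L) :
    W f i 0 p θ η = T f i p θ := by
  rw [W_eq, T_zero]
  rfl

private theorem coeff_two_aux (G : Polynomial (Polynomial L)) (a b : L) :
    (Polynomial.aeval (Polynomial.C b * Polynomial.X : Polynomial L)
      (G.map (Polynomial.aeval (Polynomial.C a * Polynomial.X : Polynomial L) :
        Polynomial L →ₐ[L] Polynomial L).toRingHom)).coeff 2 =
      a ^ 2 * (G.coeff 0).coeff 2 + a * b * (G.coeff 1).coeff 1 + b ^ 2 * (G.coeff 2).coeff 0 := by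
  induction G using Polynomial.induction_on' with
  | add P Q hP hQ =>
    rw [Polynomial.map_add, map_add, Polynomial.coeff_add, hP, hQ]
    simp only [Polynomial.coeff_add]
    ring
  | monomial m q =>
    have e1 : ∀ j, ((Polynomial.aeval (Polynomial.C a * Polynomial.X : Polynomial L) :
        Polynomial L →ₐ[L] Polynomial L) q).coeff j = q.coeff j * a ^ j := by
      intro j
      rw [← Polynomial.comp_eq_aeval, Polynomial.comp_C_mul_X_coeff]
    have e2 : Polynomial.aeval (Polynomial.C b * Polynomial.X : Polynomial L)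
        ((Polynomial.monomial m q).map (Polynomial.aeval (Polynomial.C a * Polynomial.X :
        Polynomial L) : Polynomial L →ₐ[L] Polynomial L).toRingHom) =
        Polynomial.C (b ^ m) * ((Polynomial.aeval (Polynomial.C a * Polynomial.X : Polynomial L) :
        Polynomial L →ₐ[L] Polynomial L) q) * Polynomial.X ^ m := by
      rw [Polynomial.map_monomial, Polynomial.aeval_monomial, mul_pow, ← Polynomial.C_pow]
      simp only [Algebra.algebraMap_self, RingHom.id_apply]
      change (Polynomial.aeval (Polynomial.C a * Polynomial.X : Polynomial L) q) * _ = _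
      ring
    rw [e2, Polynomial.coeff_mul_X_pow']
    simp only [Polynomial.coeff_monomial]
    match m with
    | 0 => simp [e1]; ring
    | 1 => simp [e1]; ring
    | 2 =>
      rw [if_pos le_rfl, Nat.sub_self, Polynomial.coeff_C_mul, e1]
      simp
    | m + 3 => simp

theorem T_two_add (f : MvPolynomial (Fin (n + 1)) k) (p θ η : Fin (n + 1) → L) (a b : L) :
    T f 2 p (fun i => a * θ i + b * η i) =
      a ^ 2 * T f 2 p θ + a * b * W f 1 1 p θ η + b ^ 2 * T f 2 p η := by
  rw [← W_zero_left f 2 p θ η, ← W_zero_right f 2 p θ η]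
  obtain ⟨G, hG⟩ : ∃ G : Polynomial (Polynomial L), G = (aeval (fun a =>
      Polynomial.C (Polynomial.C (p a) + Polynomial.X * Polynomial.C (θ a)) +
      Polynomial.X * Polynomial.C (Polynomial.C (η a))) f) := ⟨_, rfl⟩
  have h2 := coeff_two_aux G a b
  have h3 : (Polynomial.aeval (Polynomial.C b * Polynomial.X : Polynomial L)
      (G.map (Polynomial.aeval (Polynomial.C a * Polynomial.X : Polynomial L) :
        Polynomial L →ₐ[L] Polynomial L).toRingHom)) =
      aeval (fun i => Polynomial.C (p i) + Polynomial.X * Polynomial.C (a * θ i + b * η i)) f := by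
    have h4 : (Polynomial.aeval (Polynomial.C b * Polynomial.X : Polynomial L)
      (G.map (Polynomial.aeval (Polynomial.C a * Polynomial.X : Polynomial L) :
        Polynomial L →ₐ[L] Polynomial L).toRingHom)) =
      (((Polynomial.aeval (Polynomial.C b * Polynomial.X : Polynomial L) :
        Polynomial (Polynomial L) →ₐ[Polynomial L] Polynomial L).restrictScalars k).comp
      (Polynomial.mapAlgHom ((Polynomial.aeval (Polynomial.C a * Polynomial.X : Polynomial L) :
        Polynomial L →ₐ[L] Polynomial L).restrictScalars k))) G := rfl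
    rw [h4, hG, comp_aeval_apply]
    congr 2
    funext i
    simp
    ring
  rw [h3, hG] at h2
  exact h2

theorem W_symm (f : MvPolynomial (Fin (n + 1)) k) (p θ η : Fin (n + 1) → L) :
    W f 1 1 p θ η = W f 1 1 p η θ := by
  have h1 := T_two_add f p θ η 1 1
  have h2 := T_two_add f p η θ 1 1
  have e : (fun i => 1 * η i + 1 * θ i) = fun i => 1 * θ i + 1 * η i := by
    funext i
    ring
  rw [e, h1] at h2
  linear_combination h2

theorem W_add_right (f : MvPolynomial (Fin (n + 1)) k) (j : ℕ) (p θ η ζ : Fin (n + 1) → L) (a b : L) :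
    W f j 1 p θ (fun i => a * η i + b * ζ i) = a * W f j 1 p θ η + b * W f j 1 p θ ζ := by
  have h1 := T_one_add f (fun a => Polynomial.C (p a) + Polynomial.X * Polynomial.C (θ a))
    (fun a => Polynomial.C (η a)) (fun a => Polynomial.C (ζ a)) (Polynomial.C a) (Polynomial.C b)
  rw [W_eq, W_eq, W_eq, ← Polynomial.coeff_C_mul, ← Polynomial.coeff_C_mul, ← Polynomial.coeff_add,
    ← h1]
  congr 2
  funext i
  simp

theorem W_self (f : MvPolynomial (Fin (n + 1)) k) (p θ : Fin (n + 1) → L) :
    W f 1 1 p θ θ = 2 * T f 2 p θ := by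
  have h1 := T_two_add f p θ θ 1 1
  have e : (fun i => 1 * θ i + 1 * θ i) = fun i => 2 * θ i := by
    funext i
    ring
  rw [e, T_smul] at h1
  linear_combination -h1

theorem W_point {f : MvPolynomial (Fin (n + 1)) k} (hf : f.IsHomogeneous 6)
    (p θ : Fin (n + 1) → L) : W f 1 1 p θ p = 5 * T f 1 p θ := by
  rw [W_symm, W_eq, T_one]
  have h0 : (fun i => Polynomial.C (p i) + Polynomial.X * Polynomial.C (p i) :
      Fin (n + 1) → Polynomial L) =
      fun i => (1 + Polynomial.X) * Polynomial.C (p i) := by
    funext i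
    ring
  have h1 : ∀ g : MvPolynomial (Fin (n + 1)) k, (aeval (fun i => Polynomial.C (p i)) g :
      Polynomial L) = Polynomial.C (aeval p g) := by
    intro g
    have := comp_aeval_apply (R := k) p (Algebra.ofId L (Polynomial L) |>.restrictScalars k) g
    rw [← Polynomial.algebraMap_eq]
    exact this.symm
  have h2 : ∀ i, (aeval (fun a => Polynomial.C (p a) + Polynomial.X * Polynomial.C (p a))
      (pderiv i f) : Polynomial L) * Polynomial.C (θ i) =
      (1 + Polynomial.X) ^ 5 * Polynomial.C (aeval p (pderiv i f) * θ i) := by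
    intro i
    rw [h0, aeval_scale (hf.pderiv (i := i)), h1, Polynomial.C_mul]
    ring
  rw [Finset.sum_congr rfl fun i _ => h2 i, ← Finset.mul_sum, ← map_sum, ← T_one,
    Polynomial.coeff_mul_C, Polynomial.coeff_one_add_X_pow]
  norm_num

/-- Along the line `p + s θ`. -/
theorem W_shift {f : MvPolynomial (Fin (n + 1)) k} (hf : f.IsHomogeneous 6)
    (p θ η : Fin (n + 1) → L) (s : L) :
    W f 1 1 (fun i => p i + s * θ i) θ η =
      ∑ m ∈ Finset.range 7, (m : L) * s ^ (m - 1) * W f m 1 p θ η := by
  have h1 := T_map ((Polynomial.taylorAlgHom s).restrictScalars k) f 1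
    (fun a => Polynomial.C (p a) + Polynomial.X * Polynomial.C (θ a))
    (fun a => Polynomial.C (η a))
  have h2 := coeff_taylor_sum (natDegree_Q hf p θ η) s 1
  simp only [Nat.choose_one_right] at h2
  rw [W_eq]
  refine Eq.trans ?_ h2
  refine congrArg (fun q : Polynomial L => q.coeff 1) ?_
  refine Eq.trans ?_ h1.symm
  congr 1
  · funext a
    simp
    ring
  · funext a
    simp

/-! ## Homogeneity -/

theorem T_isHomogeneous (f : MvPolynomial (Fin (n + 1)) k) (j : ℕ) (p : Fin (n + 1) → k) :
    (T f j (fun i => (C (p i) : MvPolynomial (Fin (n + 1)) k)) (fun i => X i)).IsHomogeneous j := by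
  unfold T
  induction f using MvPolynomial.induction_on generalizing j with
  | C a =>
    rw [aeval_C, Polynomial.algebraMap_apply, Polynomial.coeff_C]
    split_ifs with h
    · rw [h]
      exact isHomogeneous_C _ _
    · exact isHomogeneous_zero _ _ _
  | add P Q hP hQ =>
    rw [map_add, Polynomial.coeff_add]
    exact (hP j).add (hQ j)
  | mul_X P i hP =>
    rw [map_mul, aeval_X, mul_add, Polynomial.coeff_add, Polynomial.coeff_mul_C, ← mul_assoc,
      Polynomial.coeff_mul_C]
    refine IsHomogeneous.add ?_ ?_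
    · have := (hP j).mul (isHomogeneous_C (Fin (n + 1)) (p i))
      simpa using this
    · cases j with
      | zero => simp [isHomogeneous_zero]
      | succ j =>
        rw [Polynomial.coeff_mul_X]
        exact (hP j).mul (isHomogeneous_X k i)

end Pool.Agent.Helper97.SD
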