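import Mathlib

/-!
# Sextic double covers: definitions

`f` is a form of degree `6` in `n + 1` variables over `k`. `T f j p θ` is the coefficient of `r ^ j` in
`f (p + r θ)`, `W f i j p θ η` that of `r ^ i t ^ j` in `f (p + r θ + t η)`; the vectors may have
coordinates in any commutative `k`-algebra `L` (for `L` a polynomial ring one gets `T`, `W` as
polynomials, see `T_map`, `W_map` in `Basic.lean`).
-/

set_option autoImplicit false

namespace Pool.Agent.Helper97.SD

open MvPolynomial

universe u

variable {k : Type u} [Field k] {n : ℕ}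

/-- The coefficient of `r ^ j` in `f (p + r θ)`. -/
noncomputable def T {L : Type*} [CommRing L] [Algebra k L] (f : MvPolynomial (Fin (n + 1)) k) (j : ℕ)
    (p θ : Fin (n + 1) → L) : L :=
  (aeval (fun i => Polynomial.C (p i) + Polynomial.X * Polynomial.C (θ i)) f : Polynomial L).coeff j

/-- The coefficient of `r ^ i t ^ j` in `f (p + r θ + t η)`. -/
noncomputable def W {L : Type*} [CommRing L] [Algebra k L] (f : MvPolynomial (Fin (n + 1)) k)
    (i j : ℕ) (p θ η : Fin (n + 1) → L) : L :=
  ((aeval (fun a => Polynomial.C (Polynomial.C (p a) + Polynomial.X * Polynomial.C (θ a)) +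
    Polynomial.X * Polynomial.C (Polynomial.C (η a))) f : Polynomial (Polynomial L)).coeff j).coeff i

/-- `f` has no singular zero except the origin. -/
def Smooth (f : MvPolynomial (Fin (n + 1)) k) : Prop :=
  ∀ x : Fin (n + 1) → k, x ≠ 0 → aeval x f = 0 → ∃ i, aeval x (pderiv i f) ≠ 0

/-- `p` is a point of the hypersurface, `θ` a tangent vector, isotropic for the second fundamental
form and not in its radical. -/
def A0 (f : MvPolynomial (Fin (n + 1)) k) (p θ : Fin (n + 1) → k) : Prop :=
  p ≠ 0 ∧ aeval p f = 0 ∧ T f 1 p θ = 0 ∧ T f 2 p θ = 0 ∧ ∃ η, T f 1 p η = 0 ∧ W f 1 1 p θ η ≠ 0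

/-- The double cover `w² = f (x)` contains a rational surface. -/
def HasSurf (f : MvPolynomial (Fin (n + 1)) k) : Prop :=
  ∃ (y : Fin (n + 1) → FractionRing (MvPolynomial (Fin 2) k)) (w : FractionRing (MvPolynomial (Fin 2) k)),
    w ^ 2 = aeval y f ∧ ∃ i, y i ≠ 0 ∧
      IntermediateField.adjoin k (Set.range (fun j => y j / y i) ∪ {w / y i ^ 3}) = ⊤

end Pool.Agent.Helper97.SD
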