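import Pool.Agent.Helper97.SD.Newton

/-!
# Functions which vanish on a variety vanish to high order along its tangent arcs
-/

set_option autoImplicit false

namespace Pool.Agent.Helper97.SD

open MvPolynomial

universe u

variable {k : Type u} [Field k] {n : ℕ}

/-- The line `(p + X θ, θ)`. -/
noncomputable def line (p θ : Fin (n + 1) → k) : Fin (n + 1) ⊕ Fin (n + 1) → Polynomial k :=
  Sum.elim (fun i => Polynomial.C (p i) + Polynomial.X * Polynomial.C (θ i))
    (fun i => Polynomial.C (θ i))

/-- Congruent arguments give congruent values. -/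
private theorem flow_congr {σ A : Type*} [CommRing A] [Algebra k A] {a : A} {y z : σ → A}
    (h : ∀ i, a ∣ y i - z i) (P : MvPolynomial σ k) : a ∣ aeval y P - aeval z P := by
  have h1 : ∀ Q : MvPolynomial σ k, Ideal.Quotient.mk (Ideal.span {a}) (aeval y Q) =
      Ideal.Quotient.mk (Ideal.span {a}) (aeval z Q) := by
    intro Q
    induction Q using MvPolynomial.induction_on with
    | C c => rw [aeval_C, aeval_C]
    | add P Q hP hQ => rw [map_add, map_add, map_add, map_add, hP, hQ]
    | mul_X P i hP =>
      rw [map_mul, map_mul, map_mul, map_mul, aeval_X, aeval_X, hP]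
      congr 1
      rw [Ideal.Quotient.eq, Ideal.mem_span_singleton]
      exact h i
  rw [← Ideal.mem_span_singleton, ← Ideal.Quotient.eq]
  exact h1 P

/-- A matrix with independent rows has a right inverse. -/
private theorem flow_right {c : ℕ} {σ : Type*} [Fintype σ] [DecidableEq σ]
    (J : Fin c → σ → k) (h : LinearIndependent k J) :
    ∃ S : σ → Fin c → k, ∀ j l, ∑ i, J j i * S i l = if j = l then 1 else 0 := by
  have h1 : (Matrix.of J).rank = c := by
    have h2 := LinearIndependent.rank_matrix (M := Matrix.of J) h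
    rwa [Fintype.card_fin] at h2
  have h2 : Function.Surjective (Matrix.of J).mulVec := by
    have h3 : LinearMap.range (Matrix.of J).mulVecLin = ⊤ := by
      apply Submodule.eq_top_of_finrank_eq
      rw [← Matrix.rank, h1, Module.finrank_fin_fun]
    rw [LinearMap.range_eq_top] at h3
    exact h3
  rw [Matrix.mulVec_surjective_iff_exists_right_inverse] at h2
  obtain ⟨B, hB⟩ := h2
  refine ⟨B, fun j l => ?_⟩
  have h4 := congrFun (congrFun hB j) l
  rw [Matrix.mul_apply, Matrix.one_apply] at h4
  exact h4

/-- The power series of a family of polynomials. -/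
private theorem flow_coe {σ : Type*} (y : σ → Polynomial k) (P : MvPolynomial σ k) :
    aeval (fun i => (y i : PowerSeries k)) P = ((aeval y P : Polynomial k) : PowerSeries k) := by
  induction P using MvPolynomial.induction_on with
  | C c =>
    rw [aeval_C, aeval_C]
    ext m
    simp [Polynomial.algebraMap_eq]
  | add P Q hP hQ => rw [map_add, map_add, hP, hQ, Polynomial.coe_add]
  | mul_X P i hP => rw [map_mul, map_mul, hP, aeval_X, aeval_X, Polynomial.coe_mul]

/-- The constant coefficient of a value. -/
private theorem flow_const {σ : Type*} (y : σ → PowerSeries k) (P : MvPolynomial σ k) :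
    PowerSeries.constantCoeff (aeval y P) = aeval (fun i => PowerSeries.constantCoeff (y i)) P := by
  induction P using MvPolynomial.induction_on with
  | C c =>
    rw [aeval_C, aeval_C]
    simp
  | add P Q hP hQ => rw [map_add, map_add, map_add, hP, hQ]
  | mul_X P i hP => rw [map_mul, map_mul, map_mul, hP, aeval_X, aeval_X]

private theorem flow_dvd {N : ℕ} {P : Polynomial k} :
    (PowerSeries.X : PowerSeries k) ^ N ∣ (P : PowerSeries k) ↔ (Polynomial.X : Polynomial k) ^ N ∣ P := by
  rw [PowerSeries.X_pow_dvd_iff, Polynomial.X_pow_dvd_iff]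
  simp only [Polynomial.coeff_coe]

theorem flow [IsAlgClosed k] {c N : ℕ} (hN : 1 ≤ N)
    (F : Fin c → MvPolynomial (Fin (n + 1) ⊕ Fin (n + 1)) k)
    (G M : MvPolynomial (Fin (n + 1) ⊕ Fin (n + 1)) k) (p θ : Fin (n + 1) → k)
    (hF : ∀ j, (Polynomial.X : Polynomial k) ^ N ∣ aeval (line p θ) (F j))
    (hind : LinearIndependent k (fun j => fun i => aeval (Sum.elim p θ) (pderiv i (F j))))
    (hM : aeval (Sum.elim p θ) M ≠ 0)
    (hG : ∀ z : Fin (n + 1) ⊕ Fin (n + 1) → k, (∀ j, aeval z (F j) = 0) → aeval z (M * G) = 0) :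
    (Polynomial.X : Polynomial k) ^ N ∣ aeval (line p θ) G := by
  classical
  set y : Fin (n + 1) ⊕ Fin (n + 1) → PowerSeries k := fun i => (line p θ i : PowerSeries k) with hy
  have hc : (fun i => PowerSeries.constantCoeff (y i)) = Sum.elim p θ := by
    funext i
    rcases i with i | i
    · simp [hy, line]
    · simp [hy, line]
  obtain ⟨S, hS⟩ := flow_right _ hind
  obtain ⟨y', hy1, hy2⟩ := newton hN F y (fun j => by
    rw [hy, flow_coe, flow_dvd]
    exact hF j) S (by
    rw [hc]
    exact hS)
  have hc' : (fun i => PowerSeries.constantCoeff (y' i)) = Sum.elim p θ := by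
    rw [← hc]
    funext i
    have h1 : (PowerSeries.X : PowerSeries k) ∣ y' i - y i :=
      (dvd_pow_self _ (by omega)).trans (hy1 i)
    rw [PowerSeries.X_dvd_iff, map_sub, sub_eq_zero] at h1
    exact h1
  -- the Nullstellensatz
  have h1 : M * G ∈ (Ideal.span (Set.range F)).radical := by
    rw [← vanishingIdeal_zeroLocus_eq_radical (k := k) (K := k), mem_vanishingIdeal_iff]
    intro z hz
    exact hG z fun j => hz (F j) (Ideal.subset_span ⟨j, rfl⟩)
  obtain ⟨m, hm⟩ := h1
  have h2 : Ideal.span (Set.range F) ≤ RingHom.ker (aeval y' : MvPolynomial _ k →ₐ[k] PowerSeries k) := by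
    rw [Ideal.span_le]
    rintro _ ⟨j, rfl⟩
    exact hy2 j
  have h3 : aeval y' ((M * G) ^ m) = 0 := h2 hm
  rw [map_pow] at h3
  have h5 : aeval y' (M * G) = 0 := by
    rcases Nat.eq_zero_or_pos m with h0 | h0
    · rw [h0, pow_zero] at h3
      exact absurd h3 one_ne_zero
    · exact (pow_eq_zero_iff h0.ne').1 h3
  rw [map_mul] at h5
  have h6 : aeval y' M ≠ 0 := by
    intro h7
    apply hM
    rw [← hc', ← flow_const, h7, map_zero]
  have h7 : aeval y' G = 0 := (mul_eq_zero.1 h5).resolve_left h6
  rw [← flow_dvd, ← flow_coe]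
  have h8 := flow_congr (k := k) hy1 G
  rw [h7, zero_sub, dvd_neg] at h8
  exact h8

end Pool.Agent.Helper97.SD
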