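import Pool.Agent.Helper97.SD.StepA
import Pool.Agent.Helper97.SD.Cone

/-!
# The second fundamental form is not identically zero
-/

set_option autoImplicit false

namespace Pool.Agent.Helper97.SD

open MvPolynomial

universe u

variable {k : Type u} [Field k] {n : ℕ}

namespace Step0

open StepA

/-- Independence of the differentials of `f` and its first polar. -/
theorem indep {f : MvPolynomial (Fin (n + 1)) k} {p θ e : Fin (n + 1) → k}
    (he : T f 1 p e ≠ 0) :
    LinearIndependent k (fun j : Fin 2 => fun i => aeval (Sum.elim p θ) (pderiv i (TT f j))) := by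
  rw [Fintype.linearIndependent_iff]
  intro g hg
  have pair : ∀ v : Fin (n + 1) ⊕ Fin (n + 1) → k,
      g 0 * (∑ i, v i * aeval (Sum.elim p θ) (pderiv i (TT f 0))) +
      g 1 * (∑ i, v i * aeval (Sum.elim p θ) (pderiv i (TT f 1))) = 0 := by
    intro v
    rw [Finset.mul_sum, Finset.mul_sum, ← Finset.sum_add_distrib]
    refine Finset.sum_eq_zero fun i _ => ?_
    have h2 := congrFun hg i
    rw [Fin.sum_univ_two] at h2
    simp only [Pi.add_apply, Pi.smul_apply, smul_eq_mul, Pi.zero_apply, Fin.val_zero,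
      Fin.val_one] at h2
    linear_combination v i * h2
  have s : ∀ (j : ℕ) (v : Fin (n + 1) ⊕ Fin (n + 1) → k),
      ∑ i, v i * aeval (Sum.elim p θ) (pderiv i (TT f j)) =
      (T f j (fun i => Polynomial.C (p i) + Polynomial.X * Polynomial.C (v (Sum.inl i)))
        (fun i => Polynomial.C (θ i) + Polynomial.X * Polynomial.C (v (Sum.inr i))) :
          Polynomial k).coeff 1 := by
    intro j v
    rw [← (coeff_one (TT f j) (Sum.elim p θ) v).1, aeval_TT]
    rfl
  have hr : ∀ (j : ℕ) (w : Fin (n + 1) → k),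
      ∑ i, (Sum.elim 0 w : Fin (n + 1) ⊕ Fin (n + 1) → k) i *
        aeval (Sum.elim p θ) (pderiv i (TT f j)) =
      (T f j (fun i => Polynomial.C (p i))
        (fun i => 1 * Polynomial.C (θ i) + Polynomial.X * Polynomial.C (w i)) :
          Polynomial k).coeff 1 := by
    intro j w
    rw [s]
    congr 2
    · funext i
      simp
    · funext i
      simp
  have r0 : ∀ w : Fin (n + 1) → k, ∑ i, (Sum.elim 0 w : Fin (n + 1) ⊕ Fin (n + 1) → k) i *
        aeval (Sum.elim p θ) (pderiv i (TT f 0)) = 0 := by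
    intro w
    rw [hr, T_zero]
    have e0 : (aeval (fun i => (Polynomial.C (p i) : Polynomial k)) f) =
        Polynomial.C (aeval p f) := by
      have := T_C f 0 p θ
      rwa [T_zero, T_zero] at this
    rw [e0, Polynomial.coeff_C_succ]
  have r1 : ∀ w : Fin (n + 1) → k, ∑ i, (Sum.elim 0 w : Fin (n + 1) ⊕ Fin (n + 1) → k) i *
        aeval (Sum.elim p θ) (pderiv i (TT f 1)) = T f 1 p w := by
    intro w
    rw [hr, T_one_add, T_C, T_C, one_mul, Polynomial.coeff_add, Polynomial.coeff_C_succ, zero_add]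
    simp
  have l0 : ∑ i, (Sum.elim e 0 : Fin (n + 1) ⊕ Fin (n + 1) → k) i *
        aeval (Sum.elim p θ) (pderiv i (TT f 0)) = T f 1 p e := by
    rw [s, T_zero]
    rfl
  have g1 : g 1 = 0 := by
    have := pair (Sum.elim 0 e)
    rw [r0, r1, mul_zero, zero_add] at this
    exact (mul_eq_zero.1 this).resolve_right he
  have g0 : g 0 = 0 := by
    have := pair (Sum.elim e 0)
    rw [l0, g1, zero_mul, add_zero] at this
    exact (mul_eq_zero.1 this).resolve_right he
  intro j
  fin_cases j
  · exact g0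
  · exact g1

/-- At the origin only the last coefficient is not zero. -/
theorem T_origin {f : MvPolynomial (Fin (n + 1)) k} (hf : f.IsHomogeneous 6) {j : ℕ} (hj : j ≤ 5)
    (q : Fin (n + 1) → k) (hq : q = 0) (η : Fin (n + 1) → k) : T f j q η = 0 := by
  have h1 := T_poly hf (fun i => (Polynomial.C (q i) : Polynomial k)) (fun i => Polynomial.C (η i))
    Polynomial.X
  have h2 : aeval (fun i => (Polynomial.C (q i) : Polynomial k) + Polynomial.X * Polynomial.C (η i)) f =
      Polynomial.X ^ 6 * Polynomial.C (T f 6 q η) := by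
    have h3 := T_smul f 6 (fun i => (Polynomial.C (q i) : Polynomial k)) (fun i => Polynomial.C (η i))
      Polynomial.X
    rw [T_six hf, T_C] at h3
    rw [← h3, hq]
    simp only [Pi.zero_apply, Polynomial.C_0, zero_add]
  rw [h2] at h1
  have h4 := congrArg (fun P : Polynomial k => P.coeff j) h1
  simp only [T_C] at h4
  rw [Polynomial.coeff_X_pow_mul', if_neg (by omega), Polynomial.finsetSum_coeff] at h4
  simp only [Polynomial.coeff_C_mul, Polynomial.coeff_X_pow] at h4
  rw [Finset.sum_eq_single j] at h4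
  · rw [if_pos rfl, mul_one] at h4
    exact h4.symm
  · intro m _ hm
    rw [if_neg (Ne.symm hm), mul_zero]
  · intro h
    exact absurd (Finset.mem_range.2 (by omega)) h

/-- One step. -/
theorem step [IsAlgClosed k] {f : MvPolynomial (Fin (n + 1)) k} (hf : f.IsHomogeneous 6)
    (hsm : Smooth f)
    (h2 : ∀ p θ : Fin (n + 1) → k, p ≠ 0 → aeval p f = 0 → T f 1 p θ = 0 → T f 2 p θ = 0)
    (j : ℕ) (hj : j ≤ 5) (hj2 : 2 ≤ j) (hc : ((j + 1 : ℕ) : k) ≠ 0)
    (hT : ∀ p θ : Fin (n + 1) → k, p ≠ 0 → aeval p f = 0 → T f 1 p θ = 0 → T f j p θ = 0) :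
    ∀ p θ : Fin (n + 1) → k, p ≠ 0 → aeval p f = 0 → T f 1 p θ = 0 → T f (j + 1) p θ = 0 := by
  intro p θ hp h0 h1
  obtain ⟨a, ha⟩ := hsm p hp h0
  set e : Fin (n + 1) → k := Pi.single a 1 with he
  have he1 : T f 1 p e ≠ 0 := by
    rw [T_one, Finset.sum_eq_single a]
    · rw [he, Pi.single_eq_same, mul_one]
      exact ha
    · intro b _ hb
      rw [he, Pi.single_eq_of_ne hb, mul_zero]
    · intro h
      exact absurd (Finset.mem_univ _) h
  have t0 : T f 0 p θ = 0 := by rw [T_zero, h0]
  have t2 := h2 p θ hp h0 h1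
  have key := flow (k := k) (n := n) (c := 2) (N := 2) (by norm_num) (fun j => TT f j) (TT f j)
    1 p θ ?_ (indep he1) ?_ ?_
  · rw [aeval_line hf, Polynomial.X_pow_dvd_iff] at key
    have k1 := key 1 (by norm_num)
    rw [Polynomial.finsetSum_coeff] at k1
    have e1 : ∀ m ∈ Finset.range 7, ((m.choose j : Polynomial k) * Polynomial.X ^ (m - j) *
        Polynomial.C (T f m p θ)).coeff 1 =
        if m = j + 1 then ((j + 1 : ℕ) : k) * T f m p θ else 0 := by
      intro m _
      rw [Polynomial.coeff_mul_C, ← Polynomial.C_eq_natCast, Polynomial.coeff_C_mul,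
        Polynomial.coeff_X_pow]
      split_ifs with h4 h5 h5
      · rw [h5, Nat.choose_succ_self_right, mul_one]
      · exact absurd (by omega) h5
      · exact absurd (by omega) h4
      · rw [mul_zero, zero_mul]
    rw [Finset.sum_congr rfl e1, Finset.sum_ite_eq', if_pos (by rw [Finset.mem_range]; omega)] at k1
    exact (mul_eq_zero.1 k1).resolve_left hc
  · intro i
    rw [aeval_line hf]
    refine Finset.dvd_sum fun m _ => ?_
    have hi := i.2
    by_cases hm : m < 3
    · have : T f m p θ = 0 := by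
        interval_cases m
        · exact t0
        · exact h1
        · exact t2
      rw [this, Polynomial.C_0, mul_zero]
      exact dvd_zero _
    · refine Dvd.dvd.mul_right (Dvd.dvd.mul_left (pow_dvd_pow _ (by omega)) _) _
  · rw [map_one]
    exact one_ne_zero
  · intro z hz
    rw [one_mul, aeval_TT]
    have z0 := hz 0
    have z1 := hz 1
    simp only [Fin.val_zero, Fin.val_one, aeval_TT] at z0 z1
    rw [T_zero] at z0
    by_cases hz0 : (fun i => z (Sum.inl i)) = 0
    · exact T_origin hf hj _ hz0 _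
    · exact hT _ _ hz0 z0 z1

end Step0

open Step0 StepA in
theorem step0 [IsAlgClosed k] (h6 : (6 : k) ≠ 0) (hn : 4 ≤ n) {f : MvPolynomial (Fin (n + 1)) k}
    (hf : f.IsHomogeneous 6) (hsm : Smooth f) :
    (∃ p η : Fin (n + 1) → k, p ≠ 0 ∧ aeval p f = 0 ∧ T f 1 p η = 0 ∧ T f 2 p η ≠ 0) ∨
    ((∀ p θ : Fin (n + 1) → k, p ≠ 0 → aeval p f = 0 → T f 1 p θ = 0 →
      T f 2 p θ = 0 ∧ T f 3 p θ = 0 ∧ T f 4 p θ = 0) ∧
      ∃ p θ : Fin (n + 1) → k, p ≠ 0 ∧ aeval p f = 0 ∧ T f 1 p θ = 0 ∧ T f 5 p θ ≠ 0) := by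
  by_contra hcon
  push Not at hcon
  obtain ⟨T2, hcon5⟩ := hcon
  have c2 : (2 : k) ≠ 0 := by
    intro h2
    apply h6
    linear_combination 3 * h2
  have c3 : (3 : k) ≠ 0 := by
    intro h3
    apply h6
    linear_combination 2 * h3
  have T3 := Step0.step hf hsm T2 2 (by norm_num) (by norm_num) (by
    have : ((2 + 1 : ℕ) : k) = 3 := by norm_num
    rw [this]
    exact c3) T2
  have T4 := Step0.step hf hsm T2 3 (by norm_num) (by norm_num) (by
    have : ((3 + 1 : ℕ) : k) = 2 * 2 := by norm_num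
    rw [this]
    exact mul_ne_zero c2 c2) T3
  have T5 := hcon5 (fun p θ hp h0 h1 => ⟨T2 p θ hp h0 h1, T3 p θ hp h0 h1, T4 p θ hp h0 h1⟩)
  have T6 := Step0.step hf hsm T2 5 (by norm_num) (by norm_num) (by
    have : ((5 + 1 : ℕ) : k) = 2 * 3 := by norm_num
    rw [this]
    exact mul_ne_zero c2 c3) T5
  obtain ⟨p, hp, hz⟩ := Helper41.Eggert.exists_ne_zero_common_zero (K := k)
    ({f} : Finset (MvPolynomial (Fin (n + 1)) k))
    (by rw [Finset.card_singleton]; omega) (by
      intro g hg
      rw [Finset.mem_singleton] at hg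
      rw [hg]
      exact eval_zero_of_homog hf (by norm_num))
  have h0 : aeval p f = 0 := by
    rw [aeval_eq_eval]
    exact hz f (Finset.mem_singleton_self _)
  obtain ⟨a, ha⟩ := hsm p hp h0
  refine cone_hyper (by omega) hf hsm (fun i => aeval p (pderiv i f)) (fun h => ha (congrFun h a)) ?_
  intro x hx
  rw [← T_one] at hx
  have := T6 p x hp h0 hx
  rwa [T_six hf] at this

end Pool.Agent.Helper97.SD
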