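import Pool.Agent.Helper97.SD.Basic
import Pool.Agent.Helper97.SD.Flow
import Pool.Agent.Helper97.SD.Quadric

/-!
# Isotropic tangent directions with contact exactly three
-/

set_option autoImplicit false

namespace Pool.Agent.Helper97.SD

open MvPolynomial

universe u

variable {k : Type u} [Field k] {n : ℕ}

namespace StepA

/-- The first coefficient along a line is the derivative. -/
theorem coeff_one {σ : Type*} [Fintype σ] [DecidableEq σ] (P : MvPolynomial σ k) (z v : σ → k) :
    (aeval (fun i => Polynomial.C (z i) + Polynomial.X * Polynomial.C (v i)) P :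
      Polynomial k).coeff 1 = ∑ i, v i * aeval z (pderiv i P) ∧
    (aeval (fun i => Polynomial.C (z i) + Polynomial.X * Polynomial.C (v i)) P :
      Polynomial k).coeff 0 = aeval z P := by
  induction P using MvPolynomial.induction_on with
  | C a =>
    constructor
    · simp
    · simp
  | add P Q hP hQ =>
    constructor
    · rw [map_add, Polynomial.coeff_add, hP.1, hQ.1, ← Finset.sum_add_distrib]
      refine Finset.sum_congr rfl fun i _ => ?_
      rw [map_add, map_add, mul_add]
    · rw [map_add, Polynomial.coeff_add, hP.2, hQ.2, map_add]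
  | mul_X P j hP =>
    have e1 : (Polynomial.C (z j) + Polynomial.X * Polynomial.C (v j) : Polynomial k).coeff 0 =
        z j := by
      simp
    have e2 : (Polynomial.C (z j) + Polynomial.X * Polynomial.C (v j) : Polynomial k).coeff 1 =
        v j := by
      rw [Polynomial.coeff_add, Polynomial.coeff_C_succ, zero_add]
      simp
    constructor
    · rw [map_mul, aeval_X, Polynomial.mul_coeff_one, hP.1, hP.2, e1, e2]
      have e3 : ∀ i, v i * aeval z (pderiv i (P * X j)) =
          v i * aeval z (pderiv i P) * z j + (if i = j then v j * aeval z P else 0) := by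
        intro i
        rw [pderiv_mul, map_add, map_mul, map_mul, aeval_X]
        split_ifs with h
        · subst h
          rw [pderiv_X_self, map_one]
          ring
        · rw [pderiv_X_of_ne (Ne.symm h), map_zero]
          ring
      rw [Finset.sum_congr rfl fun i _ => e3 i, Finset.sum_add_distrib, Finset.sum_ite_eq',
        if_pos (Finset.mem_univ _), Finset.sum_mul]
      ring
    · rw [map_mul, aeval_X, Polynomial.mul_coeff_zero, hP.2, e1, map_mul, aeval_X]

/-- `T` as a polynomial -/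
noncomputable def TT (f : MvPolynomial (Fin (n + 1)) k) (j : ℕ) :
    MvPolynomial (Fin (n + 1) ⊕ Fin (n + 1)) k :=
  T f j (fun i => X (Sum.inl i)) (fun i => X (Sum.inr i))

theorem aeval_TT {L : Type*} [CommRing L] [Algebra k L] (f : MvPolynomial (Fin (n + 1)) k) (j : ℕ)
    (z : Fin (n + 1) ⊕ Fin (n + 1) → L) :
    aeval z (TT f j) = T f j (fun i => z (Sum.inl i)) (fun i => z (Sum.inr i)) := by
  unfold TT
  rw [T_map (aeval z : MvPolynomial (Fin (n + 1) ⊕ Fin (n + 1)) k →ₐ[k] L) f j]
  simp only [aeval_X]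

/-- the minor -/
noncomputable def MM (f : MvPolynomial (Fin (n + 1)) k) (e η : Fin (n + 1) → k) :
    MvPolynomial (Fin (n + 1) ⊕ Fin (n + 1)) k :=
  T f 1 (fun i => X (Sum.inl i)) (fun i => C (e i)) *
    W f 1 1 (fun i => X (Sum.inl i)) (fun i => X (Sum.inr i)) (fun i => C (η i)) -
  T f 1 (fun i => X (Sum.inl i)) (fun i => C (η i)) *
    W f 1 1 (fun i => X (Sum.inl i)) (fun i => X (Sum.inr i)) (fun i => C (e i))

theorem aeval_MM (f : MvPolynomial (Fin (n + 1)) k) (e η : Fin (n + 1) → k)
    (z : Fin (n + 1) ⊕ Fin (n + 1) → k) :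
    aeval z (MM f e η) =
      T f 1 (fun i => z (Sum.inl i)) e *
        W f 1 1 (fun i => z (Sum.inl i)) (fun i => z (Sum.inr i)) η -
      T f 1 (fun i => z (Sum.inl i)) η *
        W f 1 1 (fun i => z (Sum.inl i)) (fun i => z (Sum.inr i)) e := by
  unfold MM
  rw [map_sub, map_mul, map_mul,
    T_map (aeval z : MvPolynomial (Fin (n + 1) ⊕ Fin (n + 1)) k →ₐ[k] k) f 1,
    T_map (aeval z : MvPolynomial (Fin (n + 1) ⊕ Fin (n + 1)) k →ₐ[k] k) f 1,
    W_map (aeval z : MvPolynomial (Fin (n + 1) ⊕ Fin (n + 1)) k →ₐ[k] k) f 1 1,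
    W_map (aeval z : MvPolynomial (Fin (n + 1) ⊕ Fin (n + 1)) k →ₐ[k] k) f 1 1]
  simp only [aeval_X, algHom_C, Algebra.algebraMap_self, RingHom.id_apply]

theorem T_C (f : MvPolynomial (Fin (n + 1)) k) (j : ℕ) (p θ : Fin (n + 1) → k) :
    T f j (fun i => Polynomial.C (p i)) (fun i => Polynomial.C (θ i)) =
      Polynomial.C (T f j p θ) :=
  (T_map (Polynomial.CAlgHom : k →ₐ[k] Polynomial k) f j p θ).symm

theorem W_C (f : MvPolynomial (Fin (n + 1)) k) (i j : ℕ) (p θ η : Fin (n + 1) → k) :
    W f i j (fun i => Polynomial.C (p i)) (fun i => Polynomial.C (θ i))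
      (fun i => Polynomial.C (η i)) = Polynomial.C (W f i j p θ η) :=
  (W_map (Polynomial.CAlgHom : k →ₐ[k] Polynomial k) f i j p θ η).symm

/-- The Taylor coefficients along the line. -/
theorem aeval_line {f : MvPolynomial (Fin (n + 1)) k} (hf : f.IsHomogeneous 6) (j : ℕ)
    (p θ : Fin (n + 1) → k) :
    aeval (line p θ) (TT f j) = ∑ m ∈ Finset.range 7,
      (m.choose j : Polynomial k) * Polynomial.X ^ (m - j) * Polynomial.C (T f m p θ) := by
  rw [aeval_TT]
  have e := T_shift hf j (fun i => (Polynomial.C (p i) : Polynomial k))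
    (fun i => Polynomial.C (θ i)) Polynomial.X
  rw [show (fun i => line p θ (Sum.inl i)) =
      fun i => Polynomial.C (p i) + Polynomial.X * Polynomial.C (θ i) from rfl,
    show (fun i => line p θ (Sum.inr i)) = fun i => Polynomial.C (θ i) from rfl, e]
  refine Finset.sum_congr rfl fun m _ => ?_
  rw [T_C]

theorem T_one_zero {f : MvPolynomial (Fin (n + 1)) k} (hf : f.IsHomogeneous 6)
    {p : Fin (n + 1) → k} (hp : p = 0) (e : Fin (n + 1) → k) : T f 1 p e = 0 := by
  rw [T_one, hp]
  refine Finset.sum_eq_zero fun i _ => ?_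
  have h5 : (pderiv i f).IsHomogeneous 5 := hf.pderiv
  rw [aeval_zero]
  have : constantCoeff (pderiv i f) = 0 := by
    rw [constantCoeff_eq]
    exact h5.coeff_eq_zero (by simp)
  rw [this, map_zero, zero_mul]

/-- Independence of the differentials. -/
theorem indep {f : MvPolynomial (Fin (n + 1)) k} {p θ e η : Fin (n + 1) → k}
    (he : T f 1 p e ≠ 0) (h1 : T f 1 p η = 0) (hW : W f 1 1 p θ η ≠ 0) :
    LinearIndependent k (fun j : Fin 3 => fun i => aeval (Sum.elim p θ) (pderiv i (TT f j))) := by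
  rw [Fintype.linearIndependent_iff]
  intro g hg
  -- pairing with a vector
  have pair : ∀ v : Fin (n + 1) ⊕ Fin (n + 1) → k,
      g 0 * (∑ i, v i * aeval (Sum.elim p θ) (pderiv i (TT f 0))) +
      g 1 * (∑ i, v i * aeval (Sum.elim p θ) (pderiv i (TT f 1))) +
      g 2 * (∑ i, v i * aeval (Sum.elim p θ) (pderiv i (TT f 2))) = 0 := by
    intro v
    rw [Finset.mul_sum, Finset.mul_sum, Finset.mul_sum, ← Finset.sum_add_distrib,
      ← Finset.sum_add_distrib]
    refine Finset.sum_eq_zero fun i _ => ?_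
    have h2 := congrFun hg i
    rw [Fin.sum_univ_three] at h2
    simp only [Pi.add_apply, Pi.smul_apply, smul_eq_mul, Pi.zero_apply, Fin.val_zero,
      Fin.val_one, Fin.val_two] at h2
    linear_combination v i * h2
  have s : ∀ (j : ℕ) (v : Fin (n + 1) ⊕ Fin (n + 1) → k),
      ∑ i, v i * aeval (Sum.elim p θ) (pderiv i (TT f j)) =
      (T f j (fun i => Polynomial.C (p i) + Polynomial.X * Polynomial.C (v (Sum.inl i)))
        (fun i => Polynomial.C (θ i) + Polynomial.X * Polynomial.C (v (Sum.inr i))) :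
          Polynomial k).coeff 1 := by
    intro j v
    rw [← (coeff_one (TT f j) (Sum.elim p θ) v).1, aeval_TT]
    rfl
  have hr : ∀ (j : ℕ) (w : Fin (n + 1) → k),
      ∑ i, (Sum.elim 0 w : Fin (n + 1) ⊕ Fin (n + 1) → k) i *
        aeval (Sum.elim p θ) (pderiv i (TT f j)) =
      (T f j (fun i => Polynomial.C (p i))
        (fun i => 1 * Polynomial.C (θ i) + Polynomial.X * Polynomial.C (w i)) :
          Polynomial k).coeff 1 := by
    intro j w
    rw [s]
    congr 2
    · funext i
      simp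
    · funext i
      simp
  have r0 : ∀ w : Fin (n + 1) → k, ∑ i, (Sum.elim 0 w : Fin (n + 1) ⊕ Fin (n + 1) → k) i *
        aeval (Sum.elim p θ) (pderiv i (TT f 0)) = 0 := by
    intro w
    rw [hr, T_zero]
    have e0 : (aeval (fun i => (Polynomial.C (p i) : Polynomial k)) f) =
        Polynomial.C (aeval p f) := by
      have := T_C f 0 p θ
      rwa [T_zero, T_zero] at this
    rw [e0, Polynomial.coeff_C_succ]
  have r1 : ∀ w : Fin (n + 1) → k, ∑ i, (Sum.elim 0 w : Fin (n + 1) ⊕ Fin (n + 1) → k) i *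
        aeval (Sum.elim p θ) (pderiv i (TT f 1)) = T f 1 p w := by
    intro w
    rw [hr, T_one_add, T_C, T_C, one_mul, Polynomial.coeff_add, Polynomial.coeff_C_succ, zero_add]
    simp
  have r2 : ∀ w : Fin (n + 1) → k, ∑ i, (Sum.elim 0 w : Fin (n + 1) ⊕ Fin (n + 1) → k) i *
        aeval (Sum.elim p θ) (pderiv i (TT f 2)) = W f 1 1 p θ w := by
    intro w
    rw [hr, T_two_add, T_C, T_C, W_C]
    simp [Polynomial.coeff_X_pow]
  have l0 : ∑ i, (Sum.elim e 0 : Fin (n + 1) ⊕ Fin (n + 1) → k) i *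
        aeval (Sum.elim p θ) (pderiv i (TT f 0)) = T f 1 p e := by
    rw [s, T_zero]
    rfl
  have g2 : g 2 = 0 := by
    have := pair (Sum.elim 0 η)
    rw [r0, r1, r2, h1, mul_zero, mul_zero, zero_add, zero_add] at this
    exact (mul_eq_zero.1 this).resolve_right hW
  have g1 : g 1 = 0 := by
    have := pair (Sum.elim 0 e)
    rw [r0, r1, g2, zero_mul, mul_zero, zero_add, add_zero] at this
    exact (mul_eq_zero.1 this).resolve_right he
  have g0 : g 0 = 0 := by
    have := pair (Sum.elim e 0)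
    rw [l0, g1, g2, zero_mul, zero_mul, add_zero, add_zero] at this
    exact (mul_eq_zero.1 this).resolve_right he
  intro j
  fin_cases j
  · exact g0
  · exact g1
  · exact g2

/-- One step. -/
theorem step [IsAlgClosed k] {f : MvPolynomial (Fin (n + 1)) k} (hf : f.IsHomogeneous 6)
    (hsm : Smooth f) (h3 : ∀ p θ, A0 f p θ → T f 3 p θ = 0) (j : ℕ) (hj : j ≤ 5) (hj3 : 3 ≤ j)
    (hc : ((j + 1 : ℕ) : k) ≠ 0) (hT : ∀ p θ, A0 f p θ → T f j p θ = 0) :
    ∀ p θ, A0 f p θ → T f (j + 1) p θ = 0 := by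
  intro p θ hA
  have hA' := hA
  obtain ⟨hp, h0, h1, h2, η, hη, hW⟩ := hA'
  obtain ⟨a, ha⟩ := hsm p hp h0
  set e : Fin (n + 1) → k := Pi.single a 1 with he
  have he1 : T f 1 p e ≠ 0 := by
    rw [T_one, Finset.sum_eq_single a]
    · rw [he, Pi.single_eq_same, mul_one]
      exact ha
    · intro b _ hb
      rw [he, Pi.single_eq_of_ne hb, mul_zero]
    · intro h
      exact absurd (Finset.mem_univ _) h
  have t0 : T f 0 p θ = 0 := by rw [T_zero, h0]
  have t3 := h3 p θ hA
  have key := flow (k := k) (n := n) (c := 3) (N := 2) (by norm_num) (fun j => TT f j) (TT f j)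
    (MM f e η) p θ ?_ (indep he1 hη hW) ?_ ?_
  · rw [aeval_line hf, Polynomial.X_pow_dvd_iff] at key
    have k1 := key 1 (by norm_num)
    rw [Polynomial.finsetSum_coeff] at k1
    have e1 : ∀ m ∈ Finset.range 7, ((m.choose j : Polynomial k) * Polynomial.X ^ (m - j) *
        Polynomial.C (T f m p θ)).coeff 1 =
        if m = j + 1 then ((j + 1 : ℕ) : k) * T f m p θ else 0 := by
      intro m _
      rw [Polynomial.coeff_mul_C, ← Polynomial.C_eq_natCast, Polynomial.coeff_C_mul,
        Polynomial.coeff_X_pow]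
      split_ifs with h4 h5 h5
      · rw [h5, Nat.choose_succ_self_right, mul_one]
      · exact absurd (by omega) h5
      · exact absurd (by omega) h4
      · rw [mul_zero, zero_mul]
    rw [Finset.sum_congr rfl e1, Finset.sum_ite_eq', if_pos (by rw [Finset.mem_range]; omega)] at k1
    exact (mul_eq_zero.1 k1).resolve_left hc
  · intro i
    rw [aeval_line hf]
    refine Finset.dvd_sum fun m _ => ?_
    have hi := i.2
    by_cases hm : m < 4
    · have : T f m p θ = 0 := by
        interval_cases m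
        · exact t0
        · exact h1
        · exact h2
        · exact t3
      rw [this, Polynomial.C_0, mul_zero]
      exact dvd_zero _
    · refine Dvd.dvd.mul_right (Dvd.dvd.mul_left (pow_dvd_pow _ (by omega)) _) _
  · rw [aeval_MM]
    simp only [Sum.elim_inl, Sum.elim_inr]
    rw [hη, zero_mul, sub_zero]
    exact mul_ne_zero he1 hW
  · intro z hz
    rw [map_mul, aeval_TT]
    by_cases hM : aeval z (MM f e η) = 0
    · rw [hM, zero_mul]
    · have z0 := hz 0
      have z1 := hz 1
      have z2 := hz 2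
      simp only [Fin.val_zero, Fin.val_one, Fin.val_two, aeval_TT] at z0 z1 z2
      rw [T_zero] at z0
      rw [hT _ _ ?_, mul_zero]
      rw [aeval_MM] at hM
      refine ⟨?_, z0, z1, z2, fun i =>
        T f 1 (fun i => z (Sum.inl i)) e * η i + (-T f 1 (fun i => z (Sum.inl i)) η) * e i, ?_, ?_⟩
      · intro hzero
        rw [T_one_zero hf hzero, T_one_zero hf hzero, zero_mul, zero_mul, sub_zero] at hM
        exact hM rfl
      · rw [T_one_add]
        ring
      · rw [W_add_right]
        intro h4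
        exact hM (by linear_combination h4)

end StepA

open StepA in
theorem stepA [IsAlgClosed k] (h6 : (6 : k) ≠ 0) (hn : 4 ≤ n) {f : MvPolynomial (Fin (n + 1)) k}
    (hf : f.IsHomogeneous 6) (hsm : Smooth f) (h : ∃ p θ, A0 f p θ) :
    (∃ p θ, A0 f p θ ∧ T f 3 p θ ≠ 0) ∨
      ((∀ p θ, A0 f p θ → T f 3 p θ = 0) ∧ (∀ p θ, A0 f p θ → T f 4 p θ = 0) ∧
        ∃ p θ, A0 f p θ ∧ T f 5 p θ ≠ 0) := by
  by_contra hcon
  push Not at hcon
  obtain ⟨hcon, hcon5⟩ := hcon
  have c2 : (2 : k) ≠ 0 := by
    intro h2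
    apply h6
    linear_combination 3 * h2
  have c3 : (3 : k) ≠ 0 := by
    intro h3
    apply h6
    linear_combination 2 * h3
  have T4 := step hf hsm hcon 3 (by norm_num) (by norm_num) (by
    have : ((3 + 1 : ℕ) : k) = 2 * 2 := by norm_num
    rw [this]
    exact mul_ne_zero c2 c2) hcon
  have T5 := hcon5 hcon T4
  have T6 := step hf hsm hcon 5 (by norm_num) (by norm_num) (by
    have : ((5 + 1 : ℕ) : k) = 2 * 3 := by norm_num
    rw [this]
    exact mul_ne_zero c2 c3) T5
  obtain ⟨p, θ, hp, h0, h1, h2, η, hη, hW⟩ := h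
  obtain ⟨a, ha⟩ := hsm p hp h0
  set Q : MvPolynomial (Fin (n + 1)) k :=
    T f 2 (fun i => (C (p i) : MvPolynomial (Fin (n + 1)) k)) (fun i => X i) with hQ
  have Qev : ∀ x : Fin (n + 1) → k, aeval x Q = T f 2 p x := by
    intro x
    rw [hQ, T_map (aeval x : MvPolynomial (Fin (n + 1)) k →ₐ[k] k) f 2]
    simp only [aeval_X, algHom_C, Algebra.algebraMap_self, RingHom.id_apply]
  have Qpol : ∀ x y : Fin (n + 1) → k, aeval (x + y) Q - aeval x Q - aeval y Q =
      W f 1 1 p x y := by
    intro x y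
    rw [Qev, Qev, Qev]
    have e := T_two_add f p x y 1 1
    simp only [one_mul, one_pow] at e
    rw [show x + y = fun i => x i + y i from rfl, e]
    ring
  have lin : ∀ x : Fin (n + 1) → k, ∑ i, aeval p (pderiv i f) * x i = T f 1 p x :=
    fun x => (T_one f p x).symm
  refine cone_quadric hn c2 hf hsm (fun i => aeval p (pderiv i f)) (fun hz => ha (congrFun hz a)) Q
    (T_isHomogeneous f 2 p) θ η ?_ ?_ ?_ ?_ ?_
  · rw [lin, h1]
  · rw [lin, hη]
  · rw [Qev, h2]
  · rw [Qpol]
    exact hW
  · intro x hx hQx hy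
    rw [lin] at hx
    rw [Qev] at hQx
    obtain ⟨y, hy1, hy2⟩ := hy
    rw [lin] at hy1
    rw [Qpol] at hy2
    have := T6 p x ⟨hp, h0, hx, hQx, y, hy1, hy2⟩
    rwa [T_six hf] at this

end Pool.Agent.Helper97.SD
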