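import Pool.Agent.Helper97.SD.RankOne
import Pool.Agent.Helper97.SD.Cone
import Pool.Agent.Helper97.SD.StepA

/-!
# The radical directions have contact at most five
-/

set_option autoImplicit false

namespace Pool.Agent.Helper97.SD

open MvPolynomial

universe u

variable {k : Type u} [Field k] {n : ℕ}

namespace StepR

/-- The three constraints: `f (q)`, `T_1 (q, x)`, `W_11 (q, x, h (q))`. -/
noncomputable def FF (f : MvPolynomial (Fin (n + 1)) k) (ν η : Fin (n + 1) → k) :
    Fin 3 → MvPolynomial (Fin (n + 1) ⊕ Fin (n + 1)) k :=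
  ![aeval (ql k n) f, T f 1 (ql k n) (xr k n), W f 1 1 (ql k n) (xr k n) (yv f ν η (ql k n))]

theorem yv_map {L L' : Type*} [CommRing L] [Algebra k L] [CommRing L'] [Algebra k L']
    (φ : L →ₐ[k] L') (f : MvPolynomial (Fin (n + 1)) k) (ν η : Fin (n + 1) → k)
    (q : Fin (n + 1) → L) :
    (fun i => φ (yv f ν η q i)) = yv f ν η (fun i => φ (q i)) := by
  funext i
  simp only [yv, map_add, map_mul, map_neg, T_map, AlgHom.commutes]

section

variable {L : Type*} [CommRing L] [Algebra k L]

theorem aeval_F0 (f : MvPolynomial (Fin (n + 1)) k) (ν η : Fin (n + 1) → k)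
    (z : Fin (n + 1) ⊕ Fin (n + 1) → L) :
    aeval z (FF f ν η 0) = T f 0 (fun i => z (Sum.inl i)) (fun i => z (Sum.inr i)) := by
  show aeval z (aeval (ql k n) f) = _
  rw [comp_aeval_apply, T_zero]
  simp only [ql, aeval_X]

theorem aeval_F1 (f : MvPolynomial (Fin (n + 1)) k) (ν η : Fin (n + 1) → k)
    (z : Fin (n + 1) ⊕ Fin (n + 1) → L) :
    aeval z (FF f ν η 1) = T f 1 (fun i => z (Sum.inl i)) (fun i => z (Sum.inr i)) := by
  show aeval z (T f 1 (ql k n) (xr k n)) = _
  rw [T_map]
  simp only [ql, xr, aeval_X]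

theorem aeval_F2 (f : MvPolynomial (Fin (n + 1)) k) (ν η : Fin (n + 1) → k)
    (z : Fin (n + 1) ⊕ Fin (n + 1) → L) :
    aeval z (FF f ν η 2) = W f 1 1 (fun i => z (Sum.inl i)) (fun i => z (Sum.inr i))
      (yv f ν η (fun i => z (Sum.inl i))) := by
  show aeval z (W f 1 1 (ql k n) (xr k n) (yv f ν η (ql k n))) = _
  rw [W_map, yv_map]
  simp only [ql, xr, aeval_X]

end

/-- Independence of the differentials. -/
theorem indep3 {f : MvPolynomial (Fin (n + 1)) k} (h2 : (2 : k) ≠ 0) {p θ ν η : Fin (n + 1) → k}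
    (hν : T f 1 p ν ≠ 0) (h1 : T f 1 p η = 0) (hQ : T f 2 p η ≠ 0) :
    LinearIndependent k (fun j : Fin 3 => fun i => aeval (Sum.elim p θ) (pderiv i (FF f ν η j))) := by
  rw [Fintype.linearIndependent_iff]
  intro g hg
  -- pairing with a vector
  have pair : ∀ v : Fin (n + 1) ⊕ Fin (n + 1) → k,
      g 0 * (∑ i, v i * aeval (Sum.elim p θ) (pderiv i (FF f ν η 0))) +
      g 1 * (∑ i, v i * aeval (Sum.elim p θ) (pderiv i (FF f ν η 1))) +
      g 2 * (∑ i, v i * aeval (Sum.elim p θ) (pderiv i (FF f ν η 2))) = 0 := by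
    intro v
    rw [Finset.mul_sum, Finset.mul_sum, Finset.mul_sum, ← Finset.sum_add_distrib,
      ← Finset.sum_add_distrib]
    refine Finset.sum_eq_zero fun i _ => ?_
    have h2 := congrFun hg i
    rw [Fin.sum_univ_three] at h2
    simp only [Pi.add_apply, Pi.smul_apply, smul_eq_mul, Pi.zero_apply] at h2
    linear_combination v i * h2
  have hinl : ∀ w : Fin (n + 1) → k, (fun i => (Polynomial.C (Sum.elim p θ (Sum.inl i)) +
      Polynomial.X * Polynomial.C ((Sum.elim 0 w : Fin (n + 1) ⊕ Fin (n + 1) → k) (Sum.inl i)) :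
        Polynomial k)) = fun i => Polynomial.C (p i) := by
    intro w
    funext i
    simp
  have hinr : ∀ w : Fin (n + 1) → k, (fun i => (Polynomial.C (Sum.elim p θ (Sum.inr i)) +
      Polynomial.X * Polynomial.C ((Sum.elim 0 w : Fin (n + 1) ⊕ Fin (n + 1) → k) (Sum.inr i)) :
        Polynomial k)) = fun i => 1 * Polynomial.C (θ i) + Polynomial.X * Polynomial.C (w i) := by
    intro w
    funext i
    simp
  have r0 : ∀ w : Fin (n + 1) → k, ∑ i, (Sum.elim 0 w : Fin (n + 1) ⊕ Fin (n + 1) → k) i *
        aeval (Sum.elim p θ) (pderiv i (FF f ν η 0)) = 0 := by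
    intro w
    rw [← (StepA.coeff_one (FF f ν η 0) (Sum.elim p θ) (Sum.elim 0 w)).1, aeval_F0, hinl, hinr,
      T_zero]
    have e0 : (aeval (fun i => (Polynomial.C (p i) : Polynomial k)) f) =
        Polynomial.C (aeval p f) := by
      have := T_C f 0 p θ
      rwa [T_zero, T_zero] at this
    rw [e0, Polynomial.coeff_C_succ]
  have r1 : ∀ w : Fin (n + 1) → k, ∑ i, (Sum.elim 0 w : Fin (n + 1) ⊕ Fin (n + 1) → k) i *
        aeval (Sum.elim p θ) (pderiv i (FF f ν η 1)) = T f 1 p w := by
    intro w
    rw [← (StepA.coeff_one (FF f ν η 1) (Sum.elim p θ) (Sum.elim 0 w)).1, aeval_F1, hinl, hinr,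
      T_one_add, T_C, T_C, one_mul, Polynomial.coeff_add, Polynomial.coeff_C_succ, zero_add]
    simp
  have r2 : ∀ w : Fin (n + 1) → k, ∑ i, (Sum.elim 0 w : Fin (n + 1) ⊕ Fin (n + 1) → k) i *
        aeval (Sum.elim p θ) (pderiv i (FF f ν η 2)) =
        T f 1 p ν * W f 1 1 p η w + (-T f 1 p η) * W f 1 1 p ν w := by
    intro w
    rw [← (StepA.coeff_one (FF f ν η 2) (Sum.elim p θ) (Sum.elim 0 w)).1, aeval_F2, hinl, hinr,
      W_symm, W_add_right]
    have e1 : (yv f ν η (fun i => (Polynomial.C (p i) : Polynomial k))) =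
        fun i => Polynomial.C (yv f ν η p i) :=
      (yv_map (Algebra.ofId k (Polynomial k)) f ν η p).symm
    rw [e1, W_C, W_C, one_mul, Polynomial.coeff_add, Polynomial.coeff_C_succ, zero_add]
    have e2 : W f 1 1 p (yv f ν η p) w =
        T f 1 p ν * W f 1 1 p η w + (-T f 1 p η) * W f 1 1 p ν w := by
      rw [W_symm]
      unfold yv
      rw [W_add_right]
      simp only [Algebra.algebraMap_self, RingHom.id_apply]
      rw [W_symm f p w (fun i => η i), W_symm f p w (fun i => ν i)]
    rw [← e2]
    simp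
  have l0 : ∑ i, (Sum.elim ν 0 : Fin (n + 1) ⊕ Fin (n + 1) → k) i *
        aeval (Sum.elim p θ) (pderiv i (FF f ν η 0)) = T f 1 p ν := by
    rw [← (StepA.coeff_one (FF f ν η 0) (Sum.elim p θ) (Sum.elim ν 0)).1, aeval_F0, T_zero]
    rfl
  have hW : T f 1 p ν * W f 1 1 p η η + (-T f 1 p η) * W f 1 1 p ν η ≠ 0 := by
    rw [h1, neg_zero, zero_mul, add_zero, W_self]
    exact mul_ne_zero hν (mul_ne_zero h2 hQ)
  have g2 : g 2 = 0 := by
    have := pair (Sum.elim 0 η)
    rw [r0, r1, r2, h1, mul_zero, mul_zero, zero_add, zero_add] at this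
    rw [h1] at hW
    exact (mul_eq_zero.1 this).resolve_right hW
  have g1 : g 1 = 0 := by
    have := pair (Sum.elim 0 ν)
    rw [r0, r1, g2, zero_mul, mul_zero, zero_add, add_zero] at this
    exact (mul_eq_zero.1 this).resolve_right hν
  have g0 : g 0 = 0 := by
    have := pair (Sum.elim ν 0)
    rw [l0, g1, g2, zero_mul, zero_mul, add_zero, add_zero] at this
    exact (mul_eq_zero.1 this).resolve_right hν
  intro j
  fin_cases j
  · exact g0
  · exact g1
  · exact g2

/-- `W_11 (p, η, .)` is a linear form. -/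
theorem W_lin (f : MvPolynomial (Fin (n + 1)) k) (p η x : Fin (n + 1) → k) :
    ∑ i, W f 1 1 p η (Pi.single i 1) * x i = W f 1 1 p η x := by
  classical
  have key : ∀ s : Finset (Fin (n + 1)), W f 1 1 p η
      (fun j => ∑ i ∈ s, x i * (Pi.single i (1 : k) : Fin (n + 1) → k) j) =
      ∑ i ∈ s, W f 1 1 p η (Pi.single i 1) * x i := by
    intro s
    induction s using Finset.induction_on with
    | empty =>
      simp only [Finset.sum_empty]
      have h := W_add_right f 1 p η η η (0 : k) (0 : k)
      simpa using h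
    | insert a s ha ih =>
      rw [Finset.sum_insert ha]
      have h := W_add_right f 1 p η (Pi.single a (1 : k))
        (fun j => ∑ i ∈ s, x i * (Pi.single i (1 : k) : Fin (n + 1) → k) j) (x a) (1 : k)
      rw [ih] at h
      rw [show (fun j => ∑ i ∈ insert a s, x i * (Pi.single i (1 : k) : Fin (n + 1) → k) j) =
        fun j => x a * (Pi.single a (1 : k) : Fin (n + 1) → k) j +
          1 * ∑ i ∈ s, x i * (Pi.single i (1 : k) : Fin (n + 1) → k) j from
        funext fun j => by rw [Finset.sum_insert ha, one_mul], h]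
      ring
  rw [← key]
  congr 1
  funext j
  simp [Pi.single_apply]

end StepR

open StepR in
theorem stepR [IsAlgClosed k] (h6 : (6 : k) ≠ 0) (hn : 4 ≤ n) {f : MvPolynomial (Fin (n + 1)) k}
    (hf : f.IsHomogeneous 6) (hsm : Smooth f) (hB : ∀ p θ, ¬ A0 f p θ)
    (hq : ∃ p η : Fin (n + 1) → k, p ≠ 0 ∧ aeval p f = 0 ∧ T f 1 p η = 0 ∧ T f 2 p η ≠ 0) :
    ∃ p η θ : Fin (n + 1) → k, p ≠ 0 ∧ aeval p f = 0 ∧ T f 1 p η = 0 ∧ T f 2 p η ≠ 0 ∧ T f 1 p θ = 0 ∧
      W f 1 1 p θ η = 0 ∧ (T f 4 p θ ≠ 0 ∨ T f 5 p θ ≠ 0) := by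
  by_contra hcon
  push Not at hcon
  have c2 : (2 : k) ≠ 0 := by
    intro h2
    apply h6
    linear_combination 3 * h2
  have c3 : (3 : k) ≠ 0 := by
    intro h3
    apply h6
    linear_combination 2 * h3
  obtain ⟨p, η, hp, h0, hη, hQ⟩ := hq
  obtain ⟨a, ha⟩ := hsm p hp h0
  set ν : Fin (n + 1) → k := Pi.single a 1 with hνd
  have hν : T f 1 p ν ≠ 0 := by
    rw [T_one, Finset.sum_eq_single a]
    · rw [hνd, Pi.single_eq_same, mul_one]
      exact ha
    · intro b _ hb
      rw [hνd, Pi.single_eq_of_ne hb, mul_zero]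
    · intro h
      exact absurd (Finset.mem_univ _) h
  -- `f` vanishes on a subspace of codimension two
  have main : ∀ θ : Fin (n + 1) → k, T f 1 p θ = 0 → W f 1 1 p θ η = 0 → aeval θ f = 0 := by
    intro θ hθ hW
    obtain ⟨t2, -, t3, t46⟩ := rank_one h6 hf hsm hB hp h0 hη hQ hθ hW
    obtain ⟨t4, t5⟩ := hcon p η θ hp h0 hη hQ hθ hW
    have w2 : W f 2 1 p θ η = 0 := by
      rw [t4, mul_zero, zero_mul] at t46
      exact pow_eq_zero_iff two_ne_zero |>.1 t46.symm
    have t0 : T f 0 p θ = 0 := by rw [T_zero, h0]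
    have w0 : W f 0 1 p θ η = 0 := by rw [W_zero_one, hη]
    -- the line
    have hL0 : aeval (line p θ) (FF f ν η 0) = T f 0
        (fun i => Polynomial.C (p i) + Polynomial.X * Polynomial.C (θ i))
        (fun i => Polynomial.C (θ i)) := aeval_F0 f ν η (line p θ)
    have hL1 : aeval (line p θ) (FF f ν η 1) = T f 1
        (fun i => Polynomial.C (p i) + Polynomial.X * Polynomial.C (θ i))
        (fun i => Polynomial.C (θ i)) := aeval_F1 f ν η (line p θ)
    have hL2 : aeval (line p θ) (FF f ν η 2) = W f 1 1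
        (fun i => Polynomial.C (p i) + Polynomial.X * Polynomial.C (θ i))
        (fun i => Polynomial.C (θ i)) (yv f ν η
          (fun i => Polynomial.C (p i) + Polynomial.X * Polynomial.C (θ i))) :=
      aeval_F2 f ν η (line p θ)
    have hT : ∀ j, T f j (fun i => Polynomial.C (p i) + Polynomial.X * Polynomial.C (θ i))
        (fun i => Polynomial.C (θ i)) = ∑ m ∈ Finset.range 7, (m.choose j : Polynomial k) *
          Polynomial.X ^ (m - j) * Polynomial.C (T f m p θ) := by
      intro j
      rw [T_shift hf]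
      simp only [T_C]
    have tm : ∀ m, m < 6 → T f m p θ = 0 := by
      intro m hm
      interval_cases m
      · exact t0
      · exact hθ
      · exact t2
      · exact t3
      · exact t4
      · exact t5
    have key := flow (k := k) (n := n) (c := 3) (N := 2) (by norm_num) (FF f ν η)
      (T f 5 (ql k n) (xr k n)) (T f 2 (ql k n) (yv f ν η (ql k n))) p θ ?_
      (indep3 c2 hν hη hQ) ?_ ?_
    · have e5 : aeval (line p θ) (T f 5 (ql k n) (xr k n)) = T f 5
          (fun i => Polynomial.C (p i) + Polynomial.X * Polynomial.C (θ i))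
          (fun i => Polynomial.C (θ i)) := by
        rw [T_map]
        simp only [ql, xr, aeval_X]
        rfl
      rw [e5, hT, Polynomial.X_pow_dvd_iff] at key
      have k1 := key 1 (by norm_num)
      rw [Polynomial.finsetSum_coeff] at k1
      have e1 : ∀ m ∈ Finset.range 7, ((m.choose 5 : Polynomial k) * Polynomial.X ^ (m - 5) *
          Polynomial.C (T f m p θ)).coeff 1 =
          if m = 5 + 1 then ((5 + 1 : ℕ) : k) * T f m p θ else 0 := by
        intro m _
        rw [Polynomial.coeff_mul_C, ← Polynomial.C_eq_natCast, Polynomial.coeff_C_mul,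
          Polynomial.coeff_X_pow]
        split_ifs with h4 h5 h5
        · rw [h5, Nat.choose_succ_self_right, mul_one]
        · exact absurd (by omega) h5
        · exact absurd (by omega) h4
        · rw [mul_zero, zero_mul]
      rw [Finset.sum_congr rfl e1, Finset.sum_ite_eq', if_pos (by rw [Finset.mem_range]; omega)] at k1
      have c6 : ((5 + 1 : ℕ) : k) ≠ 0 := by
        have : ((5 + 1 : ℕ) : k) = 2 * 3 := by norm_num
        rw [this]
        exact mul_ne_zero c2 c3
      have t6 := (mul_eq_zero.1 k1).resolve_left c6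
      rwa [T_six hf] at t6
    · intro i
      fin_cases i
      · show Polynomial.X ^ 2 ∣ aeval (line p θ) (FF f ν η 0)
        rw [hL0, hT]
        refine Finset.dvd_sum fun m hm => ?_
        by_cases hm6 : m < 6
        · rw [tm m hm6, Polynomial.C_0, mul_zero]
          exact dvd_zero _
        · refine Dvd.dvd.mul_right (Dvd.dvd.mul_left (pow_dvd_pow _ (by omega)) _) _
      · show Polynomial.X ^ 2 ∣ aeval (line p θ) (FF f ν η 1)
        rw [hL1, hT]
        refine Finset.dvd_sum fun m hm => ?_
        by_cases hm6 : m < 6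
        · rw [tm m hm6, Polynomial.C_0, mul_zero]
          exact dvd_zero _
        · refine Dvd.dvd.mul_right (Dvd.dvd.mul_left (pow_dvd_pow _ (by omega)) _) _
      · show Polynomial.X ^ 2 ∣ aeval (line p θ) (FF f ν η 2)
        rw [hL2]
        set P : Fin (n + 1) → Polynomial k :=
          fun i => Polynomial.C (p i) + Polynomial.X * Polynomial.C (θ i) with hP
        have hWY : W f 1 1 P (fun i => Polynomial.C (θ i)) (yv f ν η P) =
            T f 1 P (fun i => Polynomial.C (ν i)) *
              W f 1 1 P (fun i => Polynomial.C (θ i)) (fun i => Polynomial.C (η i)) +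
            (-T f 1 P (fun i => Polynomial.C (η i))) *
              W f 1 1 P (fun i => Polynomial.C (θ i)) (fun i => Polynomial.C (ν i)) := by
          unfold yv
          rw [W_add_right]
          rfl
        rw [hWY]
        refine dvd_add (Dvd.dvd.mul_left ?_ _) (Dvd.dvd.mul_right (dvd_neg.2 ?_) _)
        · rw [hP, W_shift hf]
          refine Finset.dvd_sum fun m hm => ?_
          rw [W_C]
          by_cases hm3 : m < 3
          · have : (m : Polynomial k) * Polynomial.X ^ (m - 1) * Polynomial.C (W f m 1 p θ η) = 0 := by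
              interval_cases m
              · rw [Nat.cast_zero, zero_mul, zero_mul]
              · rw [hW, Polynomial.C_0, mul_zero]
              · rw [w2, Polynomial.C_0, mul_zero]
            rw [this]
            exact dvd_zero _
          · refine Dvd.dvd.mul_right (Dvd.dvd.mul_left (pow_dvd_pow _ (by omega)) _) _
        · rw [hP, T_one_shift hf]
          refine Finset.dvd_sum fun m hm => ?_
          rw [W_C]
          by_cases hm2 : m < 2
          · have : Polynomial.C (W f m 1 p θ η) = 0 := by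
              interval_cases m
              · rw [w0, Polynomial.C_0]
              · rw [hW, Polynomial.C_0]
            rw [this, mul_zero]
            exact dvd_zero _
          · exact Dvd.dvd.mul_right (pow_dvd_pow _ (by omega)) _
    · rw [T_map, yv_map]
      simp only [ql, aeval_X, Sum.elim_inl]
      unfold yv
      rw [T_two_add]
      simp only [Algebra.algebraMap_self, RingHom.id_apply, hη]
      rw [neg_zero, zero_pow two_ne_zero, zero_mul, mul_zero, zero_mul, add_zero, add_zero]
      exact mul_ne_zero (pow_ne_zero 2 hν) hQ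
    · intro z hz
      have z0 := hz 0
      have z1 := hz 1
      have z2 := hz 2
      rw [aeval_F0, T_zero] at z0
      rw [aeval_F1] at z1
      rw [aeval_F2] at z2
      rw [map_mul, T_map, T_map, yv_map]
      simp only [ql, xr, aeval_X]
      by_cases hM : T f 2 (fun i => z (Sum.inl i)) (yv f ν η (fun i => z (Sum.inl i))) = 0
      · rw [hM, zero_mul]
      · have hz0 : (fun i => z (Sum.inl i)) ≠ 0 := by
          intro hzero
          apply hM
          have e1 : yv f ν η (fun i => z (Sum.inl i)) =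
              fun i => (0 : k) * (0 : Fin (n + 1) → k) i := by
            funext i
            unfold yv
            rw [StepA.T_one_zero hf hzero, StepA.T_one_zero hf hzero]
            simp
          rw [e1, T_smul]
          simp
        rw [(hcon _ _ _ hz0 z0 (T_yv f ν η _) hM z1 z2).2, mul_zero]
  refine cone_codim hn hf hsm (fun i => aeval p (pderiv i f))
    (fun i => W f 1 1 p η (Pi.single i 1)) fun x hx1 hx2 => ?_
  rw [W_lin] at hx2
  refine main x ?_ ?_
  · rw [T_one]
    exact hx1
  · rw [W_symm]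
    exact hx2

end Pool.Agent.Helper97.SD
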