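import Pool.Agent.Helper97.SD.Basic

/-!
# The rational surface: tripling the exceptional quadric of a node
-/

set_option autoImplicit false

namespace Pool.Agent.Helper97.SD

open MvPolynomial

universe u

variable {k : Type u} [Field k] {n : ℕ}

namespace SurfA

section core

variable {L : Type*} [CommRing L] [Algebra k L]

/-- The point, over `L`. -/
noncomputable def Pt (L : Type*) [CommRing L] [Algebra k L] (p : Fin (n + 1) → k) :
    Fin (n + 1) → L := fun i => algebraMap k L (p i)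

/-- The direction `θ + u η + v ζ`, over `L`. -/
noncomputable def Th (θ η ζ : Fin (n + 1) → k) (u v : L) : Fin (n + 1) → L :=
  fun i => 1 * Pt L θ i + 1 * (u * Pt L η i + v * Pt L ζ i)

/-- The coefficient of `r ^ j` in `f (p + r (θ + u η + v ζ))`. -/
noncomputable def F (f : MvPolynomial (Fin (n + 1)) k) (p θ η ζ : Fin (n + 1) → k) (u v : L)
    (j : ℕ) : L := T f j (Pt L p) (Th θ η ζ u v)

theorem F_map {L' : Type*} [CommRing L'] [Algebra k L'] (φ : L →ₐ[k] L')
    (f : MvPolynomial (Fin (n + 1)) k) (p θ η ζ : Fin (n + 1) → k) (u v : L) (j : ℕ) :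
    φ (F f p θ η ζ u v j) = F f p θ η ζ (φ u) (φ v) j := by
  rw [F, T_map, F]
  congr 1
  · funext i; simp [Pt]
  · funext i; simp [Th, Pt]

theorem T_Pt (f : MvPolynomial (Fin (n + 1)) k) (p θ : Fin (n + 1) → k) (j : ℕ) :
    T f j (Pt L p) (Pt L θ) = algebraMap k L (T f j p θ) := by
  rw [← Algebra.ofId_apply, T_map]; rfl

theorem W_Pt (f : MvPolynomial (Fin (n + 1)) k) (p θ η : Fin (n + 1) → k) (i j : ℕ) :
    W f i j (Pt L p) (Pt L θ) (Pt L η) = algebraMap k L (W f i j p θ η) := by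
  rw [← Algebra.ofId_apply, W_map]; rfl

theorem F_zz (f : MvPolynomial (Fin (n + 1)) k) (p θ η ζ : Fin (n + 1) → k) (j : ℕ) :
    F f p θ η ζ (0 : L) 0 j = algebraMap k L (T f j p θ) := by
  rw [F, ← T_Pt]
  congr 1
  funext i; simp [Th]

theorem F_zero (f : MvPolynomial (Fin (n + 1)) k) {p : Fin (n + 1) → k} (θ η ζ : Fin (n + 1) → k)
    (h0 : aeval p f = 0) (u v : L) : F f p θ η ζ u v 0 = 0 := by
  rw [F, T_zero]
  have h : aeval (Pt L p) f = algebraMap k L (aeval p f) := by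
    rw [← Algebra.ofId_apply, ← AlgHom.comp_apply]
    congr 1
    ext i; simp [Pt, Algebra.ofId_apply]
  rw [h, h0, map_zero]

theorem F_one (f : MvPolynomial (Fin (n + 1)) k) {p θ η ζ : Fin (n + 1) → k}
    (hθ : T f 1 p θ = 0) (hη : T f 1 p η = 0) (hζ : T f 1 p ζ = 0) (u v : L) :
    F f p θ η ζ u v 1 = 0 := by
  have h1 : T f 1 (Pt L p) (fun i => u * Pt L η i + v * Pt L ζ i) = 0 := by
    rw [T_one_add, T_Pt, T_Pt, hη, hζ]; simp
  have h2 := T_one_add f (Pt L p) (Pt L θ) (fun i => u * Pt L η i + v * Pt L ζ i) (1 : L) 1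
  rw [F]
  unfold Th
  rw [h2, h1, T_Pt, hθ]; simp

theorem F_two (f : MvPolynomial (Fin (n + 1)) k) {p θ η ζ : Fin (n + 1) → k}
    (h2 : T f 2 p θ = 0) (hW0 : W f 1 1 p θ ζ = 0) (u v : L) :
    F f p θ η ζ u v 2 = algebraMap k L (W f 1 1 p θ η) * u + algebraMap k L (T f 2 p η) * u ^ 2 +
      algebraMap k L (W f 1 1 p η ζ) * (u * v) + algebraMap k L (T f 2 p ζ) * v ^ 2 := by
  have e1 := T_two_add f (Pt L p) (Pt L θ) (fun i => u * Pt L η i + v * Pt L ζ i) (1 : L) 1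
  have e2 := T_two_add f (Pt L p) (Pt L η) (Pt L ζ) u v
  have e3 := W_add_right f 1 (Pt L p) (Pt L θ) (Pt L η) (Pt L ζ) u v
  rw [F]
  unfold Th
  rw [e1, e2, e3]
  simp only [T_Pt, W_Pt, h2, hW0, map_zero]
  ring

end core

/-- The parabola with triple contact at `(0, om)`. -/
theorem key {L : Type*} [Field L] {F2 F3 F4 F5 F6 A B Q om : L} (hQ : Q = 4 * F2 * F4 - F3 ^ 2)
    (hA : A = 8 * F2 ^ 2 * F5 - F3 * Q) (hB : B = Q ^ 2 - 64 * F2 ^ 3 * F6) (hB0 : B ≠ 0)
    (hom : om ^ 2 = F2) :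
    (om * (B ^ 2 + 4 * F3 * A * B + 8 * Q * A ^ 2) / B ^ 2) ^ 2 =
      F2 + F3 * (8 * F2 * A / B) + F4 * (8 * F2 * A / B) ^ 2 + F5 * (8 * F2 * A / B) ^ 3 +
        F6 * (8 * F2 * A / B) ^ 4 := by
  have e : F2 + F3 * (8 * F2 * A / B) + F4 * (8 * F2 * A / B) ^ 2 + F5 * (8 * F2 * A / B) ^ 3 +
        F6 * (8 * F2 * A / B) ^ 4 = F2 * (B ^ 4 + 8 * F3 * A * B ^ 3 + 64 * F2 * F4 * A ^ 2 * B ^ 2 +
        512 * F2 ^ 2 * F5 * A ^ 3 * B + 4096 * F2 ^ 3 * F6 * A ^ 4) / B ^ 4 := by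
    field_simp
    ring
  rw [e, div_pow, mul_pow, hom, ← pow_mul]
  congr 2
  linear_combination (16 * A ^ 2 * B ^ 2) * hQ + 64 * A ^ 3 * B * hA - 64 * A ^ 4 * hB

/-- The function field of the plane. -/
abbrev KK (k : Type u) [Field k] : Type u := FractionRing (MvPolynomial (Fin 2) k)

/-- The two coordinates. -/
noncomputable def co (k : Type u) [Field k] (i : Fin 2) : KK k :=
  algebraMap (MvPolynomial (Fin 2) k) (KK k) (X i)

theorem co_ne (i : Fin 2) : co k i ≠ 0 := by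
  rw [co, Ne, FaithfulSMul.algebraMap_eq_zero_iff]
  exact X_ne_zero i

theorem gen_top (A : IntermediateField k (KK k)) (h : ∀ i, co k i ∈ A) : A = ⊤ := by
  have h1 : ∀ q : MvPolynomial (Fin 2) k, algebraMap (MvPolynomial (Fin 2) k) (KK k) q ∈ A := by
    intro q
    induction q using MvPolynomial.induction_on with
    | C a =>
      have : algebraMap (MvPolynomial (Fin 2) k) (KK k) (C a) = algebraMap k (KK k) a := by
        rw [IsScalarTower.algebraMap_apply k (MvPolynomial (Fin 2) k) (KK k)]; rfl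
      rw [this]; exact A.algebraMap_mem a
    | add p q hp hq => rw [map_add]; exact A.add_mem hp hq
    | mul_X p i hp => rw [map_mul]; exact A.mul_mem hp (h i)
  rw [eq_top_iff]
  intro x _
  obtain ⟨a, b, _, rfl⟩ := IsFractionRing.div_surjective (A := MvPolynomial (Fin 2) k) x
  exact A.div_mem (h1 a) (h1 b)

/-- The parameters of the exceptional quadric, and a specialisation at the node. -/
theorem exists_params (a b c c1 : k) (hc1 : c1 ≠ 0) :
    ∃ (S : Type u) (_ : CommRing S) (_ : Algebra k S) (φ : S →ₐ[k] KK k) (E : Type u)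
      (_ : Field E) (_ : Algebra k E) (ψ : S →ₐ[k] E) (u v : S),
      (∀ x, ψ x ≠ 0 → φ x ≠ 0) ∧ ψ u = 0 ∧ ψ v = 0 ∧ φ u = co k 0 * φ v ∧ φ v ≠ 0 ∧
      (co k 1 * φ v) ^ 2 = algebraMap k (KK k) c1 * φ u + algebraMap k (KK k) a * φ u ^ 2 +
        algebraMap k (KK k) b * (φ u * φ v) + algebraMap k (KK k) c * φ v ^ 2 := by
  set D : MvPolynomial (Fin 2) k := X 1 ^ 2 - (C a * X 0 ^ 2 + C b * X 0 + C c) with hD
  -- the specialisation
  let E := FractionRing (Polynomial k)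
  let g : MvPolynomial (Fin 2) k →ₐ[k] E :=
    (IsScalarTower.toAlgHom k (Polynomial k) E).comp (aeval ![0, Polynomial.X])
  have hgD : g D ≠ 0 := by
    have h1 : (aeval ![(0 : Polynomial k), Polynomial.X] : MvPolynomial (Fin 2) k →ₐ[k] Polynomial k) D =
        Polynomial.X ^ 2 - Polynomial.C c := by
      rw [hD]; simp
    have h2 : (Polynomial.X ^ 2 - Polynomial.C c : Polynomial k) ≠ 0 :=
      (Polynomial.monic_X_pow_sub_C c (by norm_num)).ne_zero
    have h3 : g D = algebraMap (Polynomial k) E (aeval ![(0 : Polynomial k), Polynomial.X] D) := rfl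
    rw [h3, h1, Ne, FaithfulSMul.algebraMap_eq_zero_iff]
    exact h2
  let ι : MvPolynomial (Fin 2) k →ₐ[k] KK k := IsScalarTower.toAlgHom k (MvPolynomial (Fin 2) k) (KK k)
  have hι : Function.Injective ι := IsFractionRing.injective (MvPolynomial (Fin 2) k) (KK k)
  have hD0 : D ≠ 0 := by
    intro h; exact hgD (by rw [h, map_zero])
  let S := Localization.Away D
  have hunit1 : ∀ y : Submonoid.powers D, IsUnit (ι y) := by
    rintro ⟨_, m, rfl⟩
    simp only [map_pow]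
    exact (isUnit_iff_ne_zero.2 ((map_ne_zero_iff ι hι).2 hD0)).pow m
  have hunit2 : ∀ y : Submonoid.powers D, IsUnit (g y) := by
    rintro ⟨_, m, rfl⟩
    simp only [map_pow]
    exact (isUnit_iff_ne_zero.2 hgD).pow m
  let φ : S →ₐ[k] KK k := IsLocalization.liftAlgHom (M := Submonoid.powers D) (f := ι) hunit1
  let ψ : S →ₐ[k] E := IsLocalization.liftAlgHom (M := Submonoid.powers D) (f := g) hunit2
  have hφ : ∀ q, φ (algebraMap _ S q) = ι q := fun q => IsLocalization.lift_eq _ q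
  have hψ : ∀ q, ψ (algebraMap _ S q) = g q := fun q => IsLocalization.lift_eq _ q
  have htr : ∀ x, ψ x ≠ 0 → φ x ≠ 0 := by
    intro x hx hx0
    obtain ⟨⟨q, s⟩, hqs⟩ := IsLocalization.surj (Submonoid.powers D) x
    simp only at hqs
    have h1 : ι q = 0 := by
      rw [← hφ, ← hqs, map_mul, hx0, zero_mul]
    have h2 : q = 0 := (map_eq_zero_iff ι hι).1 h1
    have h3 : ψ x * g s = 0 := by
      rw [← hψ, ← map_mul, hqs, h2, map_zero, map_zero]
    rcases mul_eq_zero.1 h3 with h4 | h4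
    · exact hx h4
    · exact (hunit2 s).ne_zero h4
  obtain ⟨i, hi⟩ := (IsLocalization.map_units S (⟨D, 1, pow_one D⟩ : Submonoid.powers D)).exists_right_inv
  simp only at hi
  have hco : ∀ j, ι (X j) = co k j := fun j => rfl
  have hιC : ∀ x : k, ι (C x) = algebraMap k (KK k) x := fun x => AlgHom.commutes ι x
  have hιD : ι D = co k 1 ^ 2 - (algebraMap k (KK k) a * co k 0 ^ 2 + algebraMap k (KK k) b * co k 0 +
      algebraMap k (KK k) c) := by
    rw [hD]
    simp only [map_sub, map_add, map_mul, map_pow, hco, hιC]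
  have hv : φ (algebraMap k S c1 * algebraMap (MvPolynomial (Fin 2) k) S (X 0) * i) * ι D = algebraMap k (KK k) c1 * co k 0 := by
    rw [← hφ, ← map_mul, mul_assoc, mul_comm i, hi, mul_one, map_mul, AlgHom.commutes, hφ, hco]
  have hg0 : g (X 0) = 0 := by
    have : g (X 0) = algebraMap (Polynomial k) E (aeval ![(0 : Polynomial k), Polynomial.X]
      (X 0 : MvPolynomial (Fin 2) k)) := rfl
    rw [this]; simp
  refine ⟨S, inferInstance, inferInstance, φ, E, inferInstance, inferInstance, ψ,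
    algebraMap (MvPolynomial (Fin 2) k) S (X 0) * (algebraMap k S c1 * algebraMap (MvPolynomial (Fin 2) k) S (X 0) * i),
    algebraMap k S c1 * algebraMap (MvPolynomial (Fin 2) k) S (X 0) * i, htr, ?_, ?_, ?_, ?_, ?_⟩
  · rw [map_mul, hψ, hg0, zero_mul]
  · rw [map_mul, map_mul, hψ, hg0]; simp
  · rw [map_mul, hφ, hco]
  · intro h
    rw [h, zero_mul] at hv
    rcases mul_eq_zero.1 hv.symm with h1 | h1
    · exact hc1 ((map_eq_zero_iff _ (algebraMap k (KK k)).injective).1 h1)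
    · exact co_ne 0 h1
  · rw [map_mul (f := φ) (algebraMap (MvPolynomial (Fin 2) k) S (X 0)), hφ, hco]
    rw [hιD] at hv
    linear_combination φ (algebraMap k S c1 * algebraMap (MvPolynomial (Fin 2) k) S (X 0) * i) * hv

theorem exists_dual {p θ η ζ : Fin (n + 1) → k} (hind : LinearIndependent k ![p, θ, η, ζ]) :
    ∃ l : Fin 4 → Fin (n + 1) → k, ∀ a b,
      ∑ j, l a j * (![p, θ, η, ζ] : Fin 4 → Fin (n + 1) → k) b j = if a = b then 1 else 0 := by
  obtain ⟨g, hg⟩ := LinearMap.exists_leftInverse_of_injective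
    (Fintype.linearCombination k ![p, θ, η, ζ]) (by
      rw [LinearMap.ker_eq_bot]; exact hind.fintypeLinearCombination_injective)
  refine ⟨fun a j => g (Pi.single j 1) a, fun a b => ?_⟩
  have h1 : g ((![p, θ, η, ζ] : Fin 4 → Fin (n + 1) → k) b) a = if a = b then 1 else 0 := by
    have := LinearMap.congr_fun hg (Pi.single b 1)
    rw [LinearMap.comp_apply, Fintype.linearCombination_apply_single, one_smul, LinearMap.id_apply] at this
    rw [this, Pi.single_apply]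
  rw [← h1]
  conv_rhs => rw [LinearMap.pi_apply_eq_sum_univ g ((![p, θ, η, ζ] : Fin 4 → Fin (n + 1) → k) b)]
  rw [Finset.sum_apply]
  refine Finset.sum_congr rfl fun j _ => ?_
  have h2 : (Pi.single j 1 : Fin (n + 1) → k) = fun i => if j = i then 1 else 0 := by
    funext i
    simp [Pi.single_apply, eq_comm]
  rw [Pi.smul_apply, smul_eq_mul, mul_comm, ← h2]

theorem dual_y {K : Type*} [Field K] [Algebra k K] {p θ η ζ : Fin (n + 1) → k}
    {l : Fin 4 → Fin (n + 1) → k}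
    (hl : ∀ a b, ∑ j, l a j * (![p, θ, η, ζ] : Fin 4 → Fin (n + 1) → k) b j = if a = b then 1 else 0)
    (r u v : K) (a : Fin 4) :
    ∑ j, algebraMap k K (l a j) * (Pt K p j + r * Th θ η ζ u v j) =
      algebraMap k K (if a = 0 then 1 else 0) + r * algebraMap k K (if a = 1 then 1 else 0) +
        r * u * algebraMap k K (if a = 2 then 1 else 0) +
        r * v * algebraMap k K (if a = 3 then 1 else 0) := by
  rw [← hl a 0, ← hl a 1, ← hl a 2, ← hl a 3]
  simp only [map_sum, map_mul, Finset.mul_sum, ← Finset.sum_add_distrib]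
  refine Finset.sum_congr rfl fun j _ => ?_
  simp [Pt, Th]
  ring

end SurfA

open SurfA in
theorem surfA (h6 : (6 : k) ≠ 0) {f : MvPolynomial (Fin (n + 1)) k} (hf : f.IsHomogeneous 6)
    {p θ η ζ : Fin (n + 1) → k} (hind : LinearIndependent k ![p, θ, η, ζ]) (h0 : aeval p f = 0)
    (hθ : T f 1 p θ = 0) (hη : T f 1 p η = 0) (hζ : T f 1 p ζ = 0) (h2 : T f 2 p θ = 0)
    (h3 : T f 3 p θ ≠ 0) (hW : W f 1 1 p θ η ≠ 0) (hW0 : W f 1 1 p θ ζ = 0) : HasSurf f := by
  have h3k : (3 : k) ≠ 0 := by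
    intro h
    exact h6 (by rw [show (6 : k) = 3 * 2 by norm_num, h, zero_mul])
  obtain ⟨S, _, _, φ, E, _, _, ψ, u, v, htr, hu0, hv0, hu, hv, hq⟩ :=
    exists_params (T f 2 p η) (W f 1 1 p η ζ) (T f 2 p ζ) (W f 1 1 p θ η) hW
  obtain ⟨l, hl⟩ := exists_dual hind
  set G : ℕ → S := F f p θ η ζ u v with hG
  set H : ℕ → KK k := F f p θ η ζ (φ u) (φ v) with hH
  have hGH : ∀ j, φ (G j) = H j := fun j => F_map φ f p θ η ζ u v j
  have hGE : ∀ j, ψ (G j) = algebraMap k E (T f j p θ) := fun j => by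
    rw [hG, F_map, hu0, hv0, F_zz]
  set QS : S := 4 * G 2 * G 4 - G 3 ^ 2 with hQS
  set AS : S := 8 * G 2 ^ 2 * G 5 - G 3 * QS with hAS
  set BS : S := QS ^ 2 - 64 * G 2 ^ 3 * G 6 with hBS
  set CS : S := BS ^ 2 + 4 * G 3 * AS * BS + 8 * QS * AS ^ 2 with hCS
  set κ : E := algebraMap k E (T f 3 p θ) with hκ
  have hκ0 : κ ≠ 0 := (map_ne_zero_iff _ (algebraMap k E).injective).2 h3
  have hψQ : ψ QS = -κ ^ 2 := by
    rw [hQS]; simp only [map_sub, map_mul, map_pow, hGE, h2, map_zero]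
    rw [← hκ]; ring
  have hψA : ψ AS = κ ^ 3 := by
    rw [hAS]; simp only [map_sub, map_mul, map_pow, hGE, h2, map_zero, hψQ]
    rw [← hκ]; ring
  have hψB : ψ BS = κ ^ 4 := by
    rw [hBS]; simp only [map_sub, map_mul, map_pow, hGE, h2, map_zero, hψQ]
    ring
  have hψC : ψ CS = -3 * κ ^ 8 := by
    rw [hCS]
    have e4 : ψ 4 = 4 := map_ofNat ψ 4
    have e8 : ψ 8 = 8 := map_ofNat ψ 8
    simp only [map_add, map_mul, map_pow, hGE, hψQ, hψA, hψB, e4, e8]
    rw [← hκ]; ring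
  have h3E : (3 : E) ≠ 0 := by
    have : algebraMap k E 3 = 3 := map_ofNat _ 3
    rw [← this]
    exact (map_ne_zero_iff _ (algebraMap k E).injective).2 h3k
  have hA0 : φ AS ≠ 0 := htr _ (by rw [hψA]; exact pow_ne_zero _ hκ0)
  have hB0 : φ BS ≠ 0 := htr _ (by rw [hψB]; exact pow_ne_zero _ hκ0)
  have hC0 : φ CS ≠ 0 := htr _ (by
    rw [hψC]; exact mul_ne_zero (neg_ne_zero.2 h3E) (pow_ne_zero _ hκ0))
  set Q := φ QS with hQ'
  set A := φ AS with hA'
  set B := φ BS with hB'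
  have e4 : φ 4 = 4 := map_ofNat φ 4
  have e8 : φ 8 = 8 := map_ofNat φ 8
  have e64 : φ 64 = 64 := map_ofNat φ 64
  have hQ : Q = 4 * H 2 * H 4 - H 3 ^ 2 := by
    rw [hQ', hQS]; simp only [map_sub, map_mul, map_pow, hGH, e4]
  have hA : A = 8 * H 2 ^ 2 * H 5 - H 3 * Q := by
    rw [hA', hAS]; simp only [map_sub, map_mul, map_pow, hGH, e8]; rw [← hQ']
  have hB : B = Q ^ 2 - 64 * H 2 ^ 3 * H 6 := by
    rw [hB', hBS]; simp only [map_sub, map_mul, map_pow, hGH, e64]; rw [← hQ']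
  have hC : φ CS = B ^ 2 + 4 * H 3 * A * B + 8 * Q * A ^ 2 := by
    rw [hCS]; simp only [map_add, map_mul, map_pow, hGH, e4, e8]; rw [← hQ', ← hA', ← hB']
  set om : KK k := co k 1 * φ v with hom
  have hom0 : om ≠ 0 := mul_ne_zero (co_ne 1) hv
  have homH : om ^ 2 = H 2 := by
    rw [hq, hH, F_two f h2 hW0]
  have hH2 : H 2 ≠ 0 := by rw [← homH]; exact pow_ne_zero _ hom0
  have hkey := key hQ hA hB hB0 homH
  set r : KK k := 8 * H 2 * A / B with hr
  set w1 : KK k := (B ^ 2 + 4 * H 3 * A * B + 8 * Q * A ^ 2) / B ^ 2 with hw1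
  set w : KK k := om * (B ^ 2 + 4 * H 3 * A * B + 8 * Q * A ^ 2) / B ^ 2 with hw
  have hww : w = om * w1 := by rw [hw, hw1, mul_div_assoc]
  have hw10 : w1 ≠ 0 := by
    rw [hw1, ← hC]; exact div_ne_zero hC0 (pow_ne_zero _ hB0)
  have h8 : (8 : KK k) ≠ 0 := by
    have h8k : (8 : k) ≠ 0 := by
      intro h
      have h2k : (2 : k) = 0 := by
        have : (2 : k) ^ 3 = 0 := by rw [← h]; norm_num
        exact pow_eq_zero_iff (n := 3) (by norm_num) |>.1 this
      exact h6 (by rw [show (6 : k) = 2 * 3 by norm_num, h2k, zero_mul])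
    have : algebraMap k (KK k) 8 = 8 := map_ofNat _ 8
    rw [← this]
    exact (map_ne_zero_iff _ (algebraMap k (KK k)).injective).2 h8k
  have hr0 : r ≠ 0 := div_ne_zero (mul_ne_zero (mul_ne_zero h8 hH2) hA0) hB0
  set y : Fin (n + 1) → KK k := fun i => Pt (KK k) p i + r * Th θ η ζ (φ u) (φ v) i with hy
  have hH0 : H 0 = 0 := F_zero f θ η ζ h0 _ _
  have hH1 : H 1 = 0 := F_one f hθ hη hζ _ _
  have hfy : (r * w) ^ 2 = aeval y f := by
    rw [hy, T_poly hf]
    change _ = ∑ j ∈ Finset.range 7, H j * r ^ j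
    simp only [Finset.sum_range_succ, Finset.sum_range_zero, hH0, hH1]
    rw [mul_pow, hkey]
    ring
  have hd := fun a => dual_y (K := KK k) hl r (φ u) (φ v) a
  have hd0 : ∑ j, algebraMap k (KK k) (l 0 j) * y j = 1 := by
    rw [hy, hd 0]; simp
  have hd1 : ∑ j, algebraMap k (KK k) (l 1 j) * y j = r := by
    rw [hy, hd 1]; simp
  have hd2 : ∑ j, algebraMap k (KK k) (l 2 j) * y j = r * φ u := by
    rw [hy, hd 2]; simp
  have hd3 : ∑ j, algebraMap k (KK k) (l 3 j) * y j = r * φ v := by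
    rw [hy, hd 3]; simp
  obtain ⟨i, hi⟩ : ∃ i, y i ≠ 0 := by
    by_contra hcon
    push Not at hcon
    rw [Finset.sum_eq_zero (fun j _ => by rw [hcon j, mul_zero])] at hd0
    exact zero_ne_one hd0
  refine ⟨y, r * w, hfy, i, hi, ?_⟩
  set A' := IntermediateField.adjoin k (Set.range (fun j => y j / y i) ∪ {r * w / y i ^ 3}) with hA''
  have m1 : ∀ j, y j / y i ∈ A' := fun j =>
    IntermediateField.subset_adjoin _ _ (Or.inl ⟨j, rfl⟩)
  have m2 : r * w / y i ^ 3 ∈ A' := IntermediateField.subset_adjoin _ _ (Or.inr rfl)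
  have m3 : y i ∈ A' := by
    have : 1 / y i = ∑ j, algebraMap k (KK k) (l 0 j) * (y j / y i) := by
      rw [← hd0, Finset.sum_div]
      exact Finset.sum_congr rfl fun j _ => by rw [mul_div_assoc]
    have h1 : 1 / y i ∈ A' := by
      rw [this]
      exact sum_mem fun j _ => A'.mul_mem (A'.algebraMap_mem _) (m1 j)
    have h2 := A'.inv_mem h1
    rwa [one_div, inv_inv] at h2
  have m4 : ∀ j, y j ∈ A' := fun j => by
    have := A'.mul_mem (m1 j) m3
    rwa [div_mul_cancel₀ _ hi] at this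
  have m5 : ∀ a, ∑ j, algebraMap k (KK k) (l a j) * y j ∈ A' := fun a =>
    sum_mem fun j _ => A'.mul_mem (A'.algebraMap_mem _) (m4 j)
  have mr : r ∈ A' := hd1 ▸ m5 1
  have mu : φ u ∈ A' := by
    have h1 := A'.div_mem (m5 2) mr
    rwa [hd2, mul_div_cancel_left₀ _ hr0] at h1
  have mv : φ v ∈ A' := by
    have h1 := A'.div_mem (m5 3) mr
    rwa [hd3, mul_div_cancel_left₀ _ hr0] at h1
  have mw : w ∈ A' := by
    have h1 := A'.div_mem (A'.mul_mem m2 (pow_mem m3 3)) mr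
    rwa [div_mul_cancel₀ _ (pow_ne_zero _ hi), mul_div_cancel_left₀ _ hr0] at h1
  have mH : ∀ j, H j ∈ A' := fun j => by
    have h1 := F_map A'.val f p θ η ζ (⟨φ u, mu⟩ : A') ⟨φ v, mv⟩ j
    rw [hH]
    change F f p θ η ζ (A'.val ⟨φ u, mu⟩) (A'.val ⟨φ v, mv⟩) j ∈ A'
    rw [← h1]
    exact (F f p θ η ζ (⟨φ u, mu⟩ : A') ⟨φ v, mv⟩ j).2
  have mn : ∀ q : ℕ, (q : KK k) ∈ A' := fun q => natCast_mem A' q
  have mQ : Q ∈ A' := by
    rw [hQ]
    exact A'.sub_mem (A'.mul_mem (A'.mul_mem (by exact_mod_cast mn 4) (mH 2)) (mH 4)) (pow_mem (mH 3) 2)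
  have mA : A ∈ A' := by
    rw [hA]
    exact A'.sub_mem (A'.mul_mem (A'.mul_mem (by exact_mod_cast mn 8) (pow_mem (mH 2) 2)) (mH 5))
      (A'.mul_mem (mH 3) mQ)
  have mB : B ∈ A' := by
    rw [hB]
    exact A'.sub_mem (pow_mem mQ 2) (A'.mul_mem (A'.mul_mem (by exact_mod_cast mn 64)
      (pow_mem (mH 2) 3)) (mH 6))
  have mw1 : w1 ∈ A' := by
    rw [hw1]
    refine A'.div_mem (A'.add_mem (A'.add_mem (pow_mem mB 2) ?_) ?_) (pow_mem mB 2)
    · exact A'.mul_mem (A'.mul_mem (A'.mul_mem (by exact_mod_cast mn 4) (mH 3)) mA) mB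
    · exact A'.mul_mem (A'.mul_mem (by exact_mod_cast mn 8) mQ) (pow_mem mA 2)
  have mom : om ∈ A' := by
    have h1 := A'.div_mem mw mw1
    rwa [hww, mul_div_cancel_right₀ _ hw10] at h1
  refine gen_top A' fun a => ?_
  fin_cases a
  · have h1 := A'.div_mem mu mv
    rw [hu, mul_div_cancel_right₀ _ hv] at h1
    exact h1
  · have h1 := A'.div_mem mom mv
    rw [hom, mul_div_cancel_right₀ _ hv] at h1
    exact h1

end Pool.Agent.Helper97.SD
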