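import Pool.Agent.Helper97.SD.Basic

/-!
# The rational surface over a plane with a quadruple point
-/

set_option autoImplicit false

namespace Pool.Agent.Helper97.SD

open MvPolynomial

universe u

variable {k : Type u} [Field k] {n : ℕ}

private theorem surfB_dual {v : Fin 3 → Fin (n + 1) → k} (hind : LinearIndependent k v) :
    ∃ c : Fin 3 → Fin (n + 1) → k, ∀ i j, ∑ l, c i l * v j l = if i = j then 1 else 0 := by
  have hinj : Function.Injective (Fintype.linearCombination k v) :=
    hind.fintypeLinearCombination_injective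
  obtain ⟨g, hg⟩ := LinearMap.exists_leftInverse_of_injective (Fintype.linearCombination k v)
    (LinearMap.ker_eq_bot.2 hinj)
  refine ⟨fun i l => g (Pi.single l 1) i, fun i j => ?_⟩
  have h1 : v j = ∑ l, v j l • (Pi.single l (1 : k) : Fin (n + 1) → k) := by
    funext a
    rw [Finset.sum_apply]
    simp [Pi.single_apply]
  have h2 : g (v j) = Pi.single j 1 := by
    have h3 := congrArg (fun F => F (Pi.single j (1 : k))) hg
    simp only [LinearMap.comp_apply, LinearMap.id_apply] at h3
    rw [← h3]
    congr 1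
    rw [Fintype.linearCombination_apply_single, one_smul]
  have h4 : g (v j) i = ∑ l, v j l * g (Pi.single l 1) i := by
    conv_lhs => rw [h1]
    rw [map_sum, Finset.sum_apply]
    refine Finset.sum_congr rfl fun l _ => ?_
    rw [map_smul]
    rfl
  rw [h2] at h4
  rw [Finset.sum_congr rfl fun l _ => mul_comm _ _, ← h4, Pi.single_apply]

private theorem surfB_top {A : IntermediateField k (FractionRing (MvPolynomial (Fin 2) k))}
    (h0 : algebraMap (MvPolynomial (Fin 2) k) (FractionRing (MvPolynomial (Fin 2) k)) (X 0) ∈ A)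
    (h1 : algebraMap (MvPolynomial (Fin 2) k) (FractionRing (MvPolynomial (Fin 2) k)) (X 1) ∈ A) :
    A = ⊤ := by
  have hp : ∀ q : MvPolynomial (Fin 2) k,
      algebraMap (MvPolynomial (Fin 2) k) (FractionRing (MvPolynomial (Fin 2) k)) q ∈ A := by
    intro q
    induction q using MvPolynomial.induction_on with
    | C a =>
      have : algebraMap (MvPolynomial (Fin 2) k) (FractionRing (MvPolynomial (Fin 2) k)) (C a) =
          algebraMap k _ a := by
        rw [IsScalarTower.algebraMap_apply k (MvPolynomial (Fin 2) k)]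
        rfl
      rw [this]
      exact A.algebraMap_mem a
    | add p q hp hq => rw [map_add]; exact A.add_mem hp hq
    | mul_X p i hp =>
      rw [map_mul]
      refine A.mul_mem hp ?_
      fin_cases i
      · exact h0
      · exact h1
  rw [eq_top_iff]
  intro x _
  obtain ⟨a, b, -, rfl⟩ := IsFractionRing.div_surjective (A := MvPolynomial (Fin 2) k) x
  exact A.div_mem (hp a) (hp b)

theorem surfB [IsAlgClosed k] (h6 : (6 : k) ≠ 0) {f : MvPolynomial (Fin (n + 1)) k} (hf : f.IsHomogeneous 6)
    {p θ ζ : Fin (n + 1) → k} (hind : LinearIndependent k ![p, θ, ζ]) (h0 : aeval p f = 0)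
    (h1 : ∀ m : k, T f 1 p (fun i => θ i + m * ζ i) = 0)
    (h2 : ∀ m : k, T f 2 p (fun i => θ i + m * ζ i) = 0)
    (h3 : ∀ m : k, T f 3 p (fun i => θ i + m * ζ i) = 0)
    (a : Polynomial k) (h4 : ∀ m : k, T f 4 p (fun i => θ i + m * ζ i) = a.eval m ^ 2)
    (h45 : T f 4 p θ ≠ 0 ∨ T f 5 p θ ≠ 0) : HasSurf f := by
  have h20 : (2 : k) ≠ 0 := by
    intro h
    apply h6
    have : (6 : k) = 2 * 3 := by norm_num
    rw [this, h, zero_mul]
  -- the coefficients as polynomials in `m`
  let P : ℕ → Polynomial k := fun j => T f j (fun i => Polynomial.C (p i))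
    (fun i => Polynomial.C (θ i) + Polynomial.X * Polynomial.C (ζ i))
  have hPe : ∀ (j : ℕ) (m : k), (P j).eval m = T f j p (fun i => θ i + m * ζ i) := by
    intro j m
    have h := T_map (Polynomial.aeval (R := k) m) f j (fun i => Polynomial.C (p i))
      (fun i => Polynomial.C (θ i) + Polynomial.X * Polynomial.C (ζ i))
    rw [Polynomial.coe_aeval_eq_eval] at h
    refine h.trans ?_
    congr 1
    · funext i; simp
    · funext i; simp only [Polynomial.eval_add, Polynomial.eval_C, Polynomial.eval_mul,
        Polynomial.eval_X]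
  have hz : ∀ j, (∀ m : k, T f j p (fun i => θ i + m * ζ i) = 0) → P j = 0 := by
    intro j hj
    refine Polynomial.funext fun m => ?_
    rw [hPe, hj, Polynomial.eval_zero]
  have hP1 := hz 1 h1
  have hP2 := hz 2 h2
  have hP3 := hz 3 h3
  have hP0 : P 0 = 0 := by
    refine hz 0 fun m => ?_
    rw [T_zero, h0]
  have hP4 : P 4 = a ^ 2 := by
    refine Polynomial.funext fun m => ?_
    rw [hPe, h4, Polynomial.eval_pow]
  -- the field
  set K := FractionRing (MvPolynomial (Fin 2) k) with hK
  let ι : MvPolynomial (Fin 2) k →ₐ[k] K := Algebra.algHom k (MvPolynomial (Fin 2) k) K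
  have hι : ∀ q, ι q = algebraMap (MvPolynomial (Fin 2) k) K q := fun _ => rfl
  have hιinj : Function.Injective ι := IsFractionRing.injective (MvPolynomial (Fin 2) k) K
  let e : Polynomial k →ₐ[k] MvPolynomial (Fin 2) k := Polynomial.aeval (X 0)
  let mK : K := ι (X 0)
  let μ : K := ι (X 1)
  let aK : K := ι (e a)
  have hF : ∀ j, T f j (fun i => algebraMap k K (p i))
      (fun i => algebraMap k K (θ i) + mK * algebraMap k K (ζ i)) = ι (e (P j)) := by
    intro j
    have h := T_map (ι.comp e) f j (fun i => Polynomial.C (p i))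
      (fun i => Polynomial.C (θ i) + Polynomial.X * Polynomial.C (ζ i))
    rw [AlgHom.comp_apply] at h
    refine Eq.trans ?_ h.symm
    have hC : ∀ c : k, (ι.comp e) (Polynomial.C c) = algebraMap k K c := fun c =>
      (ι.comp e).commutes c
    congr 1
    · funext i; exact (hC _).symm
    · funext i
      rw [map_add, map_mul, hC, hC]
      congr 2
      rw [AlgHom.comp_apply]
      simp [e, mK]
  let F5 : K := ι (e (P 5))
  let F6 : K := ι (e (P 6))
  have hev : ∀ (q : Polynomial k) (s : k), MvPolynomial.eval (![0, s] : Fin 2 → k) (e q) =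
      q.eval 0 := by
    intro q s
    have : MvPolynomial.eval (![0, s] : Fin 2 → k) (e q) =
        ((MvPolynomial.aeval (![0, s] : Fin 2 → k)).comp e) q := by
      rw [AlgHom.comp_apply, MvPolynomial.aeval_eq_eval]
    rw [this]
    have h5 : (MvPolynomial.aeval (![0, s] : Fin 2 → k)).comp e = Polynomial.aeval (R := k) (0 : k) := by
      refine Polynomial.algHom_ext ?_
      simp [e]
    rw [h5, Polynomial.coe_aeval_eq_eval]
  have hD : μ ^ 2 - F6 ≠ 0 := by
    intro h
    have h5 : (X 1 : MvPolynomial (Fin 2) k) ^ 2 - e (P 6) = 0 := by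
      apply hιinj
      rw [map_sub, map_pow, map_zero]
      exact h
    have h6 : ∀ s : k, s ^ 2 - (P 6).eval 0 = 0 := by
      intro s
      have := congrArg (MvPolynomial.eval (![0, s] : Fin 2 → k)) h5
      rw [map_sub, map_pow, hev, MvPolynomial.eval_X, map_zero] at this
      simpa using this
    have h7 := h6 0
    have h8 := h6 1
    have h9 : (1 : k) = 0 := by linear_combination h8 - h7
    exact one_ne_zero h9
  have hN : F5 - 2 * aK * μ ≠ 0 := by
    intro h
    have h5 : e (P 5) - 2 * e a * (X 1 : MvPolynomial (Fin 2) k) = 0 := by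
      apply hιinj
      rw [map_sub, map_mul, map_mul, map_zero, map_ofNat]
      exact h
    have h6 : ∀ s : k, (P 5).eval 0 - 2 * a.eval 0 * s = 0 := by
      intro s
      have := congrArg (MvPolynomial.eval (![0, s] : Fin 2 → k)) h5
      rw [map_sub, map_mul, map_mul, hev, hev, MvPolynomial.eval_X, map_zero, map_ofNat] at this
      simpa using this
    have h7 := h6 0
    have h8 := h6 1
    have e5 : (P 5).eval 0 = T f 5 p θ := by
      rw [hPe]; congr 1; funext i; rw [zero_mul, add_zero]
    have e4 : T f 4 p θ = a.eval 0 ^ 2 := by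
      rw [← h4 0]; congr 1; funext i; rw [zero_mul, add_zero]
    have h9 : (P 5).eval 0 = 0 := by linear_combination h7
    have h10 : a.eval 0 = 0 := by
      have : 2 * a.eval 0 = 0 := by linear_combination h9 - h8
      exact (mul_eq_zero.1 this).resolve_left h20
    rcases h45 with h | h
    · apply h; rw [e4, h10]; ring
    · apply h; rw [← e5, h9]
  let r : K := (F5 - 2 * aK * μ) / (μ ^ 2 - F6)
  have hr : r ≠ 0 := div_ne_zero hN hD
  have hrD : r * (μ ^ 2 - F6) = F5 - 2 * aK * μ := div_mul_cancel₀ _ hD
  let w : K := aK + μ * r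
  have hw : w ^ 2 = aK ^ 2 + F5 * r + F6 * r ^ 2 := by
    have : w = aK + μ * r := rfl
    rw [this]
    linear_combination r * hrD
  let y : Fin (n + 1) → K := fun i =>
    algebraMap k K (p i) + r * (algebraMap k K (θ i) + mK * algebraMap k K (ζ i))
  have hfy : aeval y f = r ^ 4 * w ^ 2 := by
    have h := T_poly hf (fun i => algebraMap k K (p i))
      (fun i => algebraMap k K (θ i) + mK * algebraMap k K (ζ i)) r
    refine Eq.trans h ?_
    rw [Finset.sum_congr rfl fun j _ => by rw [hF j]]
    simp only [Finset.sum_range_succ, Finset.sum_range_zero, hP0, hP1, hP2, hP3, hP4, map_zero,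
      map_pow]
    rw [hw]
    ring
  -- the dual forms
  obtain ⟨c, hc⟩ := surfB_dual hind
  have hL : ∀ i : Fin 3, ∑ l, algebraMap k K (c i l) * y l =
      (if i = 0 then 1 else 0) + r * ((if i = 1 then 1 else 0) + mK * (if i = 2 then 1 else 0)) := by
    intro i
    have e0 := congrArg (algebraMap k K) (hc i 0)
    have e1 := congrArg (algebraMap k K) (hc i 1)
    have e2 := congrArg (algebraMap k K) (hc i 2)
    rw [map_sum, apply_ite (algebraMap k K), map_one, map_zero] at e0 e1 e2
    rw [← e0, ← e1, ← e2]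
    simp only [map_mul, Matrix.cons_val_zero, Matrix.cons_val_one, Matrix.cons_val_two,
      Matrix.head_cons, Matrix.tail_cons, Finset.mul_sum, ← Finset.sum_add_distrib]
    refine Finset.sum_congr rfl fun l _ => ?_
    simp only [y]
    ring
  have hL0 := hL 0
  have hL1 := hL 1
  have hL2 := hL 2
  simp at hL0 hL1 hL2
  obtain ⟨i, hi⟩ : ∃ i, y i ≠ 0 := by
    by_contra hcon
    push Not at hcon
    rw [Finset.sum_eq_zero fun l _ => by rw [hcon l, mul_zero]] at hL0
    exact zero_ne_one hL0
  refine ⟨y, r ^ 2 * w, by rw [hfy]; ring, i, hi, ?_⟩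
  set A := IntermediateField.adjoin k (Set.range (fun j => y j / y i) ∪ {r ^ 2 * w / y i ^ 3}) with hA
  have hy1 : ∀ j, y j / y i ∈ A := fun j =>
    IntermediateField.subset_adjoin k _ (Or.inl ⟨j, rfl⟩)
  have hw1 : r ^ 2 * w / y i ^ 3 ∈ A := IntermediateField.subset_adjoin k _ (Or.inr rfl)
  have hcomb : ∀ j : Fin 3, (∑ l, algebraMap k K (c j l) * y l) / y i ∈ A := by
    intro j
    rw [Finset.sum_div]
    refine A.sum_mem fun l _ => ?_
    rw [mul_div_assoc]
    exact A.mul_mem (A.algebraMap_mem _) (hy1 l)
  have hyi : y i ∈ A := by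
    have h := hcomb 0
    rw [hL0, one_div] at h
    have := A.inv_mem h
    rwa [inv_inv] at this
  have hsum : ∀ j : Fin 3, (∑ l, algebraMap k K (c j l) * y l) ∈ A := by
    intro j
    have := A.mul_mem (hcomb j) hyi
    rwa [div_mul_cancel₀ _ hi] at this
  have hrA : r ∈ A := by rw [← hL1]; exact hsum 1
  have hmA : mK ∈ A := by
    have h : r * mK ∈ A := by rw [← hL2]; exact hsum 2
    have := A.div_mem h hrA
    rwa [mul_div_cancel_left₀ _ hr] at this
  have hwA : w ∈ A := by
    have h := A.mul_mem hw1 (pow_mem hyi 3)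
    have e1 : r ^ 2 * w / y i ^ 3 * y i ^ 3 = r ^ 2 * w := div_mul_cancel₀ _ (pow_ne_zero 3 hi)
    rw [e1] at h
    have := A.div_mem h (pow_mem hrA 2)
    rwa [mul_div_cancel_left₀ _ (pow_ne_zero 2 hr)] at this
  have haA : aK ∈ A := by
    have : aK = Polynomial.aeval mK a := by
      have h : (ι.comp e) = Polynomial.aeval mK := by
        refine Polynomial.algHom_ext ?_
        simp [e, mK]
      change (ι.comp e) a = _
      rw [h]
    rw [this, Polynomial.aeval_eq_sum_range]
    refine A.sum_mem fun l _ => ?_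
    exact A.smul_mem (pow_mem hmA l)
  have hμA : μ ∈ A := by
    have h : w - aK ∈ A := A.sub_mem hwA haA
    have e1 : (w - aK) / r = μ := by
      have : w - aK = μ * r := by simp [w]
      rw [this, mul_div_cancel_right₀ _ hr]
    rw [← e1]
    exact A.div_mem h hrA
  exact surfB_top hmA hμA

end Pool.Agent.Helper97.SD
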