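import Pool.Agent.Helper97.SD.Basic

/-!
# The rational surface swept out by lines with contact of order five
-/

set_option autoImplicit false

namespace Pool.Agent.Helper97.SD

open MvPolynomial

universe u

variable {k : Type u} [Field k] {n : ℕ}

private theorem surfC_top {A : IntermediateField k (FractionRing (MvPolynomial (Fin 2) k))}
    (h0 : algebraMap (MvPolynomial (Fin 2) k) (FractionRing (MvPolynomial (Fin 2) k)) (X 0) ∈ A)
    (h1 : algebraMap (MvPolynomial (Fin 2) k) (FractionRing (MvPolynomial (Fin 2) k)) (X 1) ∈ A) :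
    A = ⊤ := by
  have hp : ∀ q : MvPolynomial (Fin 2) k,
      algebraMap (MvPolynomial (Fin 2) k) (FractionRing (MvPolynomial (Fin 2) k)) q ∈ A := by
    intro q
    induction q using MvPolynomial.induction_on with
    | C a =>
      have : algebraMap (MvPolynomial (Fin 2) k) (FractionRing (MvPolynomial (Fin 2) k)) (C a) =
          algebraMap k _ a := by
        rw [IsScalarTower.algebraMap_apply k (MvPolynomial (Fin 2) k)]
        rfl
      rw [this]
      exact A.algebraMap_mem a
    | add p q hp hq => rw [map_add]; exact A.add_mem hp hq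
    | mul_X p i hp =>
      rw [map_mul]
      refine A.mul_mem hp ?_
      fin_cases i
      · exact h0
      · exact h1
  rw [eq_top_iff]
  intro x _
  obtain ⟨a, b, -, rfl⟩ := IsFractionRing.div_surjective (A := MvPolynomial (Fin 2) k) x
  exact A.div_mem (hp a) (hp b)

/-- A one parameter family `Θ (m)` of directions with `T_1 = ... = T_4 = 0`, `T_5 ≠ 0`; `m` is the
quotient of the values of the linear forms `l 2`, `l 1`, which vanish at `p`. -/
theorem surfC [IsAlgClosed k] {f : MvPolynomial (Fin (n + 1)) k} (hf : f.IsHomogeneous 6)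
    {p : Fin (n + 1) → k} (Θ : Fin (n + 1) → Polynomial k) (l : Fin 3 → Fin (n + 1) → k)
    {D : Polynomial k} (hD0 : D ≠ 0)
    (hlp : ∀ j, ∑ i, l j i * p i = if j = 0 then 1 else 0)
    (hl0 : ∑ i, Polynomial.C (l 0 i) * Θ i = 0) (hl1 : ∑ i, Polynomial.C (l 1 i) * Θ i = D)
    (hl2 : ∑ i, Polynomial.C (l 2 i) * Θ i = Polynomial.X * D) (h0 : aeval p f = 0)
    (h : ∀ m : k, T f 1 p (fun i => (Θ i).eval m) = 0 ∧ T f 2 p (fun i => (Θ i).eval m) = 0 ∧
      T f 3 p (fun i => (Θ i).eval m) = 0 ∧ T f 4 p (fun i => (Θ i).eval m) = 0)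
    (h5 : ∃ m : k, T f 5 p (fun i => (Θ i).eval m) ≠ 0) : HasSurf f := by
  -- the coefficients as polynomials in `m`
  let P : ℕ → Polynomial k := fun j => T f j (fun i => Polynomial.C (p i)) Θ
  have hPe : ∀ (j : ℕ) (m : k), (P j).eval m = T f j p (fun i => (Θ i).eval m) := by
    intro j m
    have h := T_map (Polynomial.aeval (R := k) m) f j (fun i => Polynomial.C (p i)) Θ
    rw [Polynomial.coe_aeval_eq_eval] at h
    refine h.trans ?_
    congr 1
    funext i; simp
  have hz : ∀ j, (∀ m : k, T f j p (fun i => (Θ i).eval m) = 0) → P j = 0 := by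
    intro j hj
    refine Polynomial.funext fun m => ?_
    rw [hPe, hj, Polynomial.eval_zero]
  have hP1 := hz 1 fun m => (h m).1
  have hP2 := hz 2 fun m => (h m).2.1
  have hP3 := hz 3 fun m => (h m).2.2.1
  have hP4 := hz 4 fun m => (h m).2.2.2
  have hP0 : P 0 = 0 := by
    refine hz 0 fun m => ?_
    rw [T_zero, h0]
  -- the field
  set K := FractionRing (MvPolynomial (Fin 2) k) with hK
  let ι : MvPolynomial (Fin 2) k →ₐ[k] K := Algebra.algHom k (MvPolynomial (Fin 2) k) K
  have hι : ∀ q, ι q = algebraMap (MvPolynomial (Fin 2) k) K q := fun _ => rfl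
  have hιinj : Function.Injective ι := IsFractionRing.injective (MvPolynomial (Fin 2) k) K
  let e : Polynomial k →ₐ[k] MvPolynomial (Fin 2) k := Polynomial.aeval (X 0)
  have hC : ∀ c : k, (ι.comp e) (Polynomial.C c) = algebraMap k K c := fun c =>
    (ι.comp e).commutes c
  let mK : K := ι (X 0)
  let μ : K := ι (X 1)
  let Th : Fin (n + 1) → K := fun i => ι (e (Θ i))
  have hF : ∀ j, T f j (fun i => algebraMap k K (p i)) Th = ι (e (P j)) := by
    intro j
    have h := T_map (ι.comp e) f j (fun i => Polynomial.C (p i)) Θ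
    rw [AlgHom.comp_apply] at h
    refine Eq.trans ?_ h.symm
    congr 1
    funext i; exact (hC _).symm
  let F5 : K := ι (e (P 5))
  let F6 : K := ι (e (P 6))
  have hev : ∀ (q : Polynomial k) (m s : k), MvPolynomial.eval (![m, s] : Fin 2 → k) (e q) =
      q.eval m := by
    intro q m s
    have : MvPolynomial.eval (![m, s] : Fin 2 → k) (e q) =
        ((MvPolynomial.aeval (![m, s] : Fin 2 → k)).comp e) q := by
      rw [AlgHom.comp_apply, MvPolynomial.aeval_eq_eval]
    rw [this]
    have h5 : (MvPolynomial.aeval (![m, s] : Fin 2 → k)).comp e = Polynomial.aeval (R := k) m := by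
      refine Polynomial.algHom_ext ?_
      simp [e]
    rw [h5, Polynomial.coe_aeval_eq_eval]
  have hD : μ ^ 2 - F6 ≠ 0 := by
    intro h
    have h5 : (X 1 : MvPolynomial (Fin 2) k) ^ 2 - e (P 6) = 0 := by
      apply hιinj
      rw [map_sub, map_pow, map_zero]
      exact h
    have h6 : ∀ s : k, s ^ 2 - (P 6).eval 0 = 0 := by
      intro s
      have := congrArg (MvPolynomial.eval (![0, s] : Fin 2 → k)) h5
      rw [map_sub, map_pow, hev, MvPolynomial.eval_X, map_zero] at this
      simpa using this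
    have h7 := h6 0
    have h8 := h6 1
    have h9 : (1 : k) = 0 := by linear_combination h8 - h7
    exact one_ne_zero h9
  have hN : F5 ≠ 0 := by
    intro h
    obtain ⟨m, hm⟩ := h5
    apply hm
    have h6 : e (P 5) = 0 := by
      apply hιinj
      rw [map_zero]
      exact h
    rw [← hPe, ← hev (P 5) m 0, h6, map_zero]
  have hμ : μ ≠ 0 := by
    intro h
    have : (X 1 : MvPolynomial (Fin 2) k) = 0 := by
      apply hιinj
      rw [map_zero]
      exact h
    exact X_ne_zero (1 : Fin 2) this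
  let r : K := F5 / (μ ^ 2 - F6)
  have hr : r ≠ 0 := div_ne_zero hN hD
  have hrD : r * (μ ^ 2 - F6) = F5 := div_mul_cancel₀ _ hD
  let y : Fin (n + 1) → K := fun i => algebraMap k K (p i) + r * Th i
  have hfy : aeval y f = (r ^ 3 * μ) ^ 2 := by
    have h := T_poly hf (fun i => algebraMap k K (p i)) Th r
    refine Eq.trans h ?_
    rw [Finset.sum_congr rfl fun j _ => by rw [hF j]]
    simp only [Finset.sum_range_succ, Finset.sum_range_zero, hP0, hP1, hP2, hP3, hP4, map_zero]
    change 0 + 0 * r ^ 0 + 0 * r ^ 1 + 0 * r ^ 2 + 0 * r ^ 3 + 0 * r ^ 4 + F5 * r ^ 5 + F6 * r ^ 6 = _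
    linear_combination (-r ^ 5) * hrD
  have hLΘ : ∀ j, ∑ i, algebraMap k K (l j i) * Th i = (ι.comp e) (∑ i, Polynomial.C (l j i) * Θ i) := by
    intro j
    rw [map_sum]
    refine Finset.sum_congr rfl fun i _ => ?_
    rw [map_mul, hC]
    rfl
  have hLp : ∀ j, ∑ i, algebraMap k K (l j i) * algebraMap k K (p i) = if j = 0 then 1 else 0 := by
    intro j
    have := congrArg (algebraMap k K) (hlp j)
    rw [map_sum, apply_ite (algebraMap k K), map_one, map_zero] at this
    rw [← this]
    exact Finset.sum_congr rfl fun i _ => (map_mul _ _ _).symm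
  have hL : ∀ j, ∑ i, algebraMap k K (l j i) * y i =
      (if j = 0 then 1 else 0) + r * ∑ i, algebraMap k K (l j i) * Th i := by
    intro j
    rw [← hLp, Finset.mul_sum, ← Finset.sum_add_distrib]
    refine Finset.sum_congr rfl fun i _ => ?_
    simp only [y]
    ring
  have hL0 : ∑ i, algebraMap k K (l 0 i) * y i = 1 := by
    rw [hL, hLΘ, hl0, map_zero]
    simp
  have hXm : (ι.comp e) Polynomial.X = mK := by simp [e, mK]
  set DK : K := (ι.comp e) D with hDK
  have hDK0 : DK ≠ 0 := by
    intro h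
    have h6 : e D = 0 := by
      apply hιinj
      rw [map_zero]
      exact h
    apply hD0
    refine Polynomial.funext fun m => ?_
    rw [← hev D m 0, h6, map_zero, Polynomial.eval_zero]
  have hL1 : ∑ i, algebraMap k K (l 1 i) * y i = r * DK := by
    rw [hL, hLΘ, hl1, ← hDK]
    simp
  have hL2 : ∑ i, algebraMap k K (l 2 i) * y i = r * DK * mK := by
    rw [hL, hLΘ, hl2, map_mul, hXm]
    simp only [Fin.reduceEq, if_false, zero_add]
    ring
  obtain ⟨i, hi⟩ : ∃ i, y i ≠ 0 := by
    by_contra hcon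
    push Not at hcon
    rw [Finset.sum_eq_zero fun l _ => by rw [hcon l, mul_zero]] at hL0
    exact zero_ne_one hL0
  refine ⟨y, r ^ 3 * μ, hfy.symm, i, hi, ?_⟩
  set A := IntermediateField.adjoin k (Set.range (fun j => y j / y i) ∪ {r ^ 3 * μ / y i ^ 3}) with hA
  have hy1 : ∀ j, y j / y i ∈ A := fun j =>
    IntermediateField.subset_adjoin k _ (Or.inl ⟨j, rfl⟩)
  have hw1 : r ^ 3 * μ / y i ^ 3 ∈ A := IntermediateField.subset_adjoin k _ (Or.inr rfl)
  have hcomb : ∀ j : Fin 3, (∑ a, algebraMap k K (l j a) * y a) / y i ∈ A := by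
    intro j
    rw [Finset.sum_div]
    refine A.sum_mem fun a _ => ?_
    rw [mul_div_assoc]
    exact A.mul_mem (A.algebraMap_mem _) (hy1 a)
  have hyi : y i ∈ A := by
    have h := hcomb 0
    rw [hL0, one_div] at h
    have := A.inv_mem h
    rwa [inv_inv] at this
  have hsum : ∀ j : Fin 3, (∑ a, algebraMap k K (l j a) * y a) ∈ A := by
    intro j
    have := A.mul_mem (hcomb j) hyi
    rwa [div_mul_cancel₀ _ hi] at this
  have hrD : r * DK ∈ A := by rw [← hL1]; exact hsum 1
  have hmA : mK ∈ A := by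
    have h : r * DK * mK ∈ A := by rw [← hL2]; exact hsum 2
    have := A.div_mem h hrD
    rwa [mul_div_cancel_left₀ _ (mul_ne_zero hr hDK0)] at this
  have hDA : DK ∈ A := by
    have h : (ι.comp e) = Polynomial.aeval mK := by
      refine Polynomial.algHom_ext ?_
      simp [e, mK]
    rw [hDK, h, Polynomial.aeval_eq_sum_range]
    refine A.sum_mem fun l _ => ?_
    exact A.smul_mem (pow_mem hmA l)
  have hrA : r ∈ A := by
    have := A.div_mem hrD hDA
    rwa [mul_div_cancel_right₀ _ hDK0] at this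
  have hμA : μ ∈ A := by
    have h := A.mul_mem hw1 (pow_mem hyi 3)
    have e1 : r ^ 3 * μ / y i ^ 3 * y i ^ 3 = r ^ 3 * μ := div_mul_cancel₀ _ (pow_ne_zero 3 hi)
    rw [e1] at h
    have := A.div_mem h (pow_mem hrA 3)
    rwa [mul_div_cancel_left₀ _ (pow_ne_zero 3 hr)] at this
  exact surfC_top hmA hμA

end Pool.Agent.Helper97.SD
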