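import Pool.Agent.Helper97.SD.StepA
import Pool.Agent.Helper97.SD.Step0
import Pool.Agent.Helper97.SD.StepR
import Pool.Agent.Helper97.SD.SurfA
import Pool.Agent.Helper97.SD.SurfB
import Pool.Agent.Helper97.SD.SurfC

/-!
# Sextic double covers of `ℙ^n`, `n ≥ 4`, contain rational surfaces
-/

set_option autoImplicit false

namespace Pool.Agent.Helper97.SD

open MvPolynomial

universe u

variable {k : Type u} [Field k] {n : ℕ}

/-- The linear form `T f 1 p`. -/
private noncomputable def linT (f : MvPolynomial (Fin (n + 1)) k) (p : Fin (n + 1) → k) :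
    (Fin (n + 1) → k) →ₗ[k] k where
  toFun x := T f 1 p x
  map_add' x y := by
    have h := T_one_add f p x y 1 1
    simp only [one_mul] at h
    exact h
  map_smul' c x := by
    have h := T_one_add f p x x c 0
    simp only [zero_mul, add_zero] at h
    exact h

/-- The linear form `W f 1 1 p η`. -/
private noncomputable def linTW (f : MvPolynomial (Fin (n + 1)) k) (p η : Fin (n + 1) → k) :
    (Fin (n + 1) → k) →ₗ[k] k where
  toFun x := W f 1 1 p η x
  map_add' x y := by
    have h := W_add_right f 1 p η x y 1 1
    simp only [one_mul] at h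
    exact h
  map_smul' c x := by
    have h := W_add_right f 1 p η x x c 0
    simp only [zero_mul, add_zero] at h
    exact h

/-- A vector in the kernel of two linear forms outside the span of few vectors. -/
private theorem exists_outside {m : ℕ} (v : Fin m → Fin (n + 1) → k)
    (l l' : (Fin (n + 1) → k) →ₗ[k] k) (h : m + 2 < n + 1) :
    ∃ x, l x = 0 ∧ l' x = 0 ∧ x ∉ Submodule.span k (Set.range v) := by
  by_contra hcon
  push Not at hcon
  have h1 : LinearMap.ker (l.prod l') ≤ Submodule.span k (Set.range v) := by
    intro x hx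
    rw [LinearMap.mem_ker, LinearMap.prod_apply, Prod.mk_eq_zero] at hx
    exact hcon x hx.1 hx.2
  have h2 := Submodule.finrank_mono h1
  have h3 : Module.finrank k (Submodule.span k (Set.range v)) ≤ m := by
    have := finrank_range_le_card (R := k) v
    rw [Fintype.card_fin] at this
    exact this
  have h4 := LinearMap.finrank_range_add_finrank_ker (l.prod l')
  have h5 : Module.finrank k (LinearMap.range (l.prod l')) ≤ 2 := by
    have := Submodule.finrank_le (LinearMap.range (l.prod l'))
    simpa using this
  have h6 : Module.finrank k (Fin (n + 1) → k) = n + 1 := by simp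
  omega

private theorem exists_outside' {m : ℕ} (v : Fin m → Fin (n + 1) → k)
    (l : (Fin (n + 1) → k) →ₗ[k] k) (h : m + 1 < n + 1) :
    ∃ x, l x = 0 ∧ x ∉ Submodule.span k (Set.range v) := by
  by_contra hcon
  push Not at hcon
  have h1 : LinearMap.ker l ≤ Submodule.span k (Set.range v) := by
    intro x hx
    exact hcon x hx
  have h2 := Submodule.finrank_mono h1
  have h3 : Module.finrank k (Submodule.span k (Set.range v)) ≤ m := by
    have := finrank_range_le_card (R := k) v
    rw [Fintype.card_fin] at this
    exact this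
  have h4 := LinearMap.finrank_range_add_finrank_ker l
  have h5 : Module.finrank k (LinearMap.range l) ≤ 1 := by
    have := Submodule.finrank_le (LinearMap.range l)
    simpa using this
  have h6 : Module.finrank k (Fin (n + 1) → k) = n + 1 := by simp
  omega

private theorem ind3 {V : Type*} [AddCommGroup V] [Module k V] {a b c : V} {l l' : V →ₗ[k] k}
    (h1 : l a = 0) (h2 : l b = 0) (h3 : l c ≠ 0) (h4 : l' a = 0) (h5 : l' b ≠ 0) (ha : a ≠ 0) :
    LinearIndependent k ![a, b, c] := by
  rw [Fintype.linearIndependent_iff]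
  intro g hg
  rw [Fin.sum_univ_three] at hg
  simp only [Matrix.cons_val] at hg
  have e1 : l (g 0 • a + g 1 • b + g 2 • c) = g 2 * l c := by
    rw [map_add, map_add, map_smul, map_smul, map_smul, h1, h2]
    simp
  rw [hg, map_zero] at e1
  have g2 : g 2 = 0 := (mul_eq_zero.1 e1.symm).resolve_right h3
  rw [g2, zero_smul, add_zero] at hg
  have e3 : l' (g 0 • a + g 1 • b) = g 1 * l' b := by
    rw [map_add, map_smul, map_smul, h4]
    simp
  rw [hg, map_zero] at e3
  have g1 : g 1 = 0 := (mul_eq_zero.1 e3.symm).resolve_right h5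
  rw [g1, zero_smul, add_zero] at hg
  have g0 : g 0 = 0 := (smul_eq_zero.1 hg).resolve_right ha
  intro i
  fin_cases i
  · exact g0
  · exact g1
  · exact g2

private theorem ind4 {V : Type*} [AddCommGroup V] [Module k V] {a b c d : V}
    (h : LinearIndependent k ![a, b, c]) (hd : d ∉ Submodule.span k (Set.range ![a, b, c])) :
    LinearIndependent k ![a, b, c, d] := by
  have h1 := h.finSnoc hd
  have e : (Fin.snoc ![a, b, c] d : Fin 4 → V) = ![a, b, c, d] := by
    funext i
    fin_cases i <;> rfl
  rw [e] at h1
  exact h1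

private theorem ind3' {V : Type*} [AddCommGroup V] [Module k V] {a b d : V}
    (ha : a ≠ 0) (hb : ∀ c : k, b ≠ c • a) (hd : d ∉ Submodule.span k (Set.range ![a, b])) :
    LinearIndependent k ![a, b, d] := by
  have h0 : LinearIndependent k ![a, b] := by
    rw [LinearIndependent.pair_iff' ha]
    intro c h
    exact hb c h.symm
  have h1 := h0.finSnoc hd
  have e : (Fin.snoc ![a, b] d : Fin 3 → V) = ![a, b, d] := by
    funext i
    fin_cases i <;> rfl
  rw [e] at h1
  exact h1

private theorem dual4 {v : Fin 4 → Fin (n + 1) → k} (hind : LinearIndependent k v) :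
    ∃ c : Fin 4 → Fin (n + 1) → k, ∀ i j, ∑ l, c i l * v j l = if i = j then 1 else 0 := by
  have hinj : Function.Injective (Fintype.linearCombination k v) :=
    hind.fintypeLinearCombination_injective
  obtain ⟨g, hg⟩ := LinearMap.exists_leftInverse_of_injective (Fintype.linearCombination k v)
    (LinearMap.ker_eq_bot.2 hinj)
  refine ⟨fun i l => g (Pi.single l 1) i, fun i j => ?_⟩
  have h1 : v j = ∑ l, v j l • (Pi.single l (1 : k) : Fin (n + 1) → k) := by
    funext a
    rw [Finset.sum_apply]
    simp [Pi.single_apply]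
  have h2 : g (v j) = Pi.single j 1 := by
    have h3 := congrArg (fun F => F (Pi.single j (1 : k))) hg
    simp only [LinearMap.comp_apply, LinearMap.id_apply] at h3
    rw [← h3]
    congr 1
    rw [Fintype.linearCombination_apply_single, one_smul]
  have h4 : g (v j) i = ∑ l, v j l * g (Pi.single l 1) i := by
    conv_lhs => rw [h1]
    rw [map_sum, Finset.sum_apply]
    refine Finset.sum_congr rfl fun l _ => ?_
    rw [map_smul]
    rfl
  rw [h2] at h4
  rw [Finset.sum_congr rfl fun l _ => mul_comm _ _, ← h4, Pi.single_apply]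

/-- The coefficients of the form along a polynomial family of directions. -/
private theorem T_eval (f : MvPolynomial (Fin (n + 1)) k) (j : ℕ) (p : Fin (n + 1) → k)
    (Θ : Fin (n + 1) → Polynomial k) (m : k) :
    (T f j (fun i => Polynomial.C (p i)) Θ).eval m = T f j p (fun i => (Θ i).eval m) := by
  have h := T_map (Polynomial.aeval (R := k) m) f j (fun i => Polynomial.C (p i)) Θ
  rw [Polynomial.coe_aeval_eq_eval] at h
  refine h.trans ?_
  congr 1
  funext i
  simp

private theorem W_eval (f : MvPolynomial (Fin (n + 1)) k) (p η : Fin (n + 1) → k)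
    (Θ : Fin (n + 1) → Polynomial k) (m : k) :
    (W f 1 1 (fun i => Polynomial.C (p i)) Θ (fun i => Polynomial.C (η i))).eval m =
      W f 1 1 p (fun i => (Θ i).eval m) η := by
  have h := W_map (Polynomial.aeval (R := k) m) f 1 1 (fun i => Polynomial.C (p i)) Θ
    (fun i => Polynomial.C (η i))
  rw [Polynomial.coe_aeval_eq_eval] at h
  refine h.trans ?_
  congr 1
  · funext i
    simp
  · funext i
    simp

/-- Vanishing on `A0` passes to limits in a family of isotropic tangent vectors. -/
private theorem van_family [Infinite k] {f : MvPolynomial (Fin (n + 1)) k} {j : ℕ}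
    (hj : ∀ p θ, A0 f p θ → T f j p θ = 0) {p η : Fin (n + 1) → k} (hp : p ≠ 0)
    (h0 : aeval p f = 0) (hη : T f 1 p η = 0) (Θ : Fin (n + 1) → Polynomial k)
    (h1 : ∀ m : k, T f 1 p (fun i => (Θ i).eval m) = 0)
    (h2 : ∀ m : k, T f 2 p (fun i => (Θ i).eval m) = 0)
    (hW : ∃ m : k, W f 1 1 p (fun i => (Θ i).eval m) η ≠ 0) (m : k) :
    T f j p (fun i => (Θ i).eval m) = 0 := by
  have h3 : T f j (fun i => Polynomial.C (p i)) Θ *
      W f 1 1 (fun i => Polynomial.C (p i)) Θ (fun i => Polynomial.C (η i)) = 0 := by
    refine Polynomial.funext fun m => ?_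
    rw [Polynomial.eval_mul, Polynomial.eval_zero, T_eval, W_eval]
    by_cases hw : W f 1 1 p (fun i => (Θ i).eval m) η = 0
    · rw [hw, mul_zero]
    · rw [hj p _ ⟨hp, h0, h1 m, h2 m, η, hη, hw⟩, zero_mul]
  rcases mul_eq_zero.1 h3 with h4 | h4
  · rw [← T_eval, h4, Polynomial.eval_zero]
  · obtain ⟨m', hm'⟩ := hW
    exact absurd (by rw [← W_eval, h4, Polynomial.eval_zero]) hm'

/-- A frame at a vector in `A0`. -/
private theorem frame (hn : 4 ≤ n) {f : MvPolynomial (Fin (n + 1)) k} (hf : f.IsHomogeneous 6)
    {p θ η : Fin (n + 1) → k} (hp : p ≠ 0) (h1 : T f 1 p θ = 0) (h2 : T f 2 p θ = 0)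
    (hη : T f 1 p η = 0) (hW : W f 1 1 p θ η ≠ 0) :
    ∃ ζ, T f 1 p ζ = 0 ∧ W f 1 1 p θ ζ = 0 ∧ LinearIndependent k ![p, θ, η, ζ] := by
  obtain ⟨ξ, hξ, hξn⟩ := exists_outside' ![p, θ, η] (linT f p) (by omega)
  have hξ' : T f 1 p ξ = 0 := hξ
  have hind3 : LinearIndependent k ![p, θ, η] := by
    refine ind3 (l := linTW f p θ) (l' := linTW f p η) ?_ ?_ ?_ ?_ ?_ hp
    · show W f 1 1 p θ p = 0
      rw [W_point hf, h1, mul_zero]
    · show W f 1 1 p θ θ = 0
      rw [W_self, h2, mul_zero]
    · exact hW
    · show W f 1 1 p η p = 0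
      rw [W_point hf, hη, mul_zero]
    · show W f 1 1 p η θ ≠ 0
      rw [W_symm]
      exact hW
  obtain ⟨c, hc⟩ : ∃ c, c = W f 1 1 p θ ξ / W f 1 1 p θ η := ⟨_, rfl⟩
  obtain ⟨ζ, hζd⟩ : ∃ ζ : Fin (n + 1) → k, ζ = fun i => 1 * ξ i + (-c) * η i := ⟨_, rfl⟩
  have hζ : T f 1 p ζ = 0 := by
    rw [hζd, T_one_add, hη, hξ']
    ring
  have hWζ : W f 1 1 p θ ζ = 0 := by
    rw [hζd, W_add_right, hc]
    field_simp
    ring
  have hζn : ζ ∉ Submodule.span k (Set.range ![p, θ, η]) := by
    intro h
    apply hξn
    have e : ξ = ζ + c • η := by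
      funext i
      rw [hζd]
      simp only [Pi.add_apply, Pi.smul_apply, smul_eq_mul]
      ring
    rw [e]
    exact Submodule.add_mem _ h (Submodule.smul_mem _ _ (Submodule.subset_span ⟨2, rfl⟩))
  exact ⟨ζ, hζ, hWζ, ind4 hind3 hζn⟩

theorem main [IsAlgClosed k] (h6 : (6 : k) ≠ 0) (hn : 4 ≤ n) {f : MvPolynomial (Fin (n + 1)) k}
    (hf : f.IsHomogeneous 6) (hsm : Smooth f) : HasSurf f := by
  have : Infinite k := IsAlgClosed.instInfinite
  by_cases hA : ∃ p θ, A0 f p θ
  · rcases stepA h6 hn hf hsm hA with ⟨p, θ, ⟨hp, hfp, h1, h2, η, hη, hW⟩, h3⟩ |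
      ⟨hA3, hA4, p, θ, ⟨hp, hfp, h1, h2, η, hη, hW⟩, h5⟩
    · obtain ⟨ζ, hζ, hWζ, hind⟩ := frame hn hf hp h1 h2 hη hW
      exact surfA h6 hf hind hfp h1 hη hζ h2 h3 hW hWζ
    · obtain ⟨ζ, hζ, hWζ, hind⟩ := frame hn hf hp h1 h2 hη hW
      by_cases hζ2 : T f 2 p ζ = 0
      · -- a pencil of isotropic vectors
        have hΘ : ∀ m : k, (fun i => (Polynomial.C (θ i) + Polynomial.X * Polynomial.C (ζ i)).eval m) =
            fun i => θ i + m * ζ i := by
          intro m
          funext i
          rw [Polynomial.eval_add, Polynomial.eval_mul, Polynomial.eval_C, Polynomial.eval_C,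
            Polynomial.eval_X]
        have e1 : ∀ m : k, T f 1 p (fun i => θ i + m * ζ i) = 0 := by
          intro m
          have := T_one_add f p θ ζ 1 m
          simp only [one_mul] at this
          rw [this, h1, hζ, mul_zero, add_zero]
        have e2 : ∀ m : k, T f 2 p (fun i => θ i + m * ζ i) = 0 := by
          intro m
          have := T_two_add f p θ ζ 1 m
          simp only [one_mul] at this
          rw [this, h2, hζ2, hWζ]
          ring
        have e3 : ∀ j, (∀ p θ, A0 f p θ → T f j p θ = 0) → ∀ m : k,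
            T f j p (fun i => θ i + m * ζ i) = 0 := by
          intro j hj m
          have := van_family hj hp hfp hη
            (fun i => Polynomial.C (θ i) + Polynomial.X * Polynomial.C (ζ i))
            (fun m => by rw [hΘ]; exact e1 m) (fun m => by rw [hΘ]; exact e2 m)
            ⟨0, by
              rw [hΘ]
              simp only [zero_mul, add_zero]
              exact hW⟩ m
          rwa [hΘ] at this
        have hind3 : LinearIndependent k ![p, θ, ζ] := by
          have := hind.comp ![0, 1, 3] (by decide)
          have e : (![p, θ, η, ζ] ∘ ![0, 1, 3] : Fin 3 → Fin (n + 1) → k) = ![p, θ, ζ] := by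
            funext i
            fin_cases i <;> rfl
          rwa [e] at this
        exact surfB h6 hf hind3 hfp e1 e2 (e3 3 hA3) 0 (fun m => by
          rw [e3 4 hA4 m, Polynomial.eval_zero, zero_pow two_ne_zero]) (Or.inr h5)
      · -- a conic of isotropic vectors
        obtain ⟨c, hc⟩ := dual4 hind
        set w0 : k := W f 1 1 p θ η with hw0
        set qe : k := T f 2 p η with hqe
        set qz : k := T f 2 p ζ with hqz
        set wz : k := W f 1 1 p η ζ with hwz
        let A : Polynomial k := -(Polynomial.C qe * Polynomial.X ^ 2 + Polynomial.C qz +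
          Polynomial.C wz * Polynomial.X)
        let Bp : Polynomial k := Polynomial.C w0 * Polynomial.X ^ 2
        let Cp : Polynomial k := Polynomial.C w0 * Polynomial.X
        let Θ : Fin (n + 1) → Polynomial k := fun i =>
          A * Polynomial.C (θ i) + Bp * Polynomial.C (η i) + Cp * Polynomial.C (ζ i)
        have hΘ : ∀ m : k, (fun i => (Θ i).eval m) = fun i =>
            1 * (fun i => -(qe * m ^ 2 + qz + wz * m) * θ i + (w0 * m ^ 2) * η i) i +
              (w0 * m) * ζ i := by
          intro m
          funext i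
          simp only [Θ, A, Bp, Cp, Polynomial.eval_add, Polynomial.eval_mul, Polynomial.eval_neg,
            Polynomial.eval_C, Polynomial.eval_pow, Polynomial.eval_X]
          ring
        have e1 : ∀ m : k, T f 1 p (fun i => (Θ i).eval m) = 0 := by
          intro m
          rw [hΘ, T_one_add, T_one_add, h1, hη, hζ]
          ring
        have e2 : ∀ m : k, T f 2 p (fun i => (Θ i).eval m) = 0 := by
          intro m
          rw [hΘ, T_two_add, T_two_add, W_symm f p _ ζ, W_add_right, W_symm f p ζ θ, W_symm f p ζ η, h2,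
            hWζ, ← hw0, ← hqe, ← hqz, ← hwz]
          ring
        have hW' : ∀ m : k, W f 1 1 p (fun i => (Θ i).eval m) η =
            -(qe * m ^ 2 + qz + wz * m) * w0 + (w0 * m ^ 2) * (2 * qe) + (w0 * m) * wz := by
          intro m
          rw [hΘ, W_symm, W_add_right, W_add_right, W_symm f p η θ, W_self, ← hw0, ← hqe, ← hwz]
          ring
        have hw00 : w0 ≠ 0 := hW
        have hWex : ∃ m : k, W f 1 1 p (fun i => (Θ i).eval m) η ≠ 0 := by
          refine ⟨0, ?_⟩
          rw [hW']
          have : -(qe * (0 : k) ^ 2 + qz + wz * 0) * w0 + w0 * 0 ^ 2 * (2 * qe) + w0 * 0 * wz =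
              -(qz * w0) := by ring
          rw [this]
          exact neg_ne_zero.2 (mul_ne_zero hζ2 hw00)
        have hcΘ : ∀ j, ∑ i, Polynomial.C (c j i) * Θ i =
            A * Polynomial.C (if j = 1 then 1 else 0) + Bp * Polynomial.C (if j = 2 then 1 else 0) +
              Cp * Polynomial.C (if j = 3 then 1 else 0) := by
          intro j
          have t1 := hc j 1
          have t2 := hc j 2
          have t3 := hc j 3
          simp only [Matrix.cons_val] at t1 t2 t3
          rw [← t1, ← t2, ← t3]
          simp only [map_sum, Finset.mul_sum, ← Finset.sum_add_distrib]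
          refine Finset.sum_congr rfl fun i _ => ?_
          simp only [Θ, Polynomial.C_mul]
          ring
        refine surfC hf Θ ![c 0, c 3, c 2] (D := Polynomial.C w0 * Polynomial.X) ?_ ?_ ?_ ?_ ?_ hfp
          ?_ ?_
        · exact mul_ne_zero (Polynomial.C_ne_zero.2 hw00) Polynomial.X_ne_zero
        · intro j
          fin_cases j
          · simpa using hc 0 0
          · simpa using hc 3 0
          · simpa using hc 2 0
        · simpa using hcΘ 0
        · have := hcΘ 3
          simpa [Cp] using this
        · have := hcΘ 2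
          simp only [Matrix.cons_val]
          rw [this]
          simp [Bp]
          ring
        · intro m
          exact ⟨e1 m, e2 m, van_family hA3 hp hfp hη Θ e1 e2 hWex m,
            van_family hA4 hp hfp hη Θ e1 e2 hWex m⟩
        · refine ⟨0, ?_⟩
          have e0 : (fun i => (Θ i).eval 0) = fun i => -qz * θ i := by
            rw [hΘ]
            funext i
            ring
          rw [e0, T_smul]
          exact mul_ne_zero (pow_ne_zero _ (neg_ne_zero.2 hζ2)) h5
  · push Not at hA
    rcases step0 h6 hn hf hsm with hq | ⟨h24, p, θ, hp, hfp, hθ, h5⟩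
    · obtain ⟨p, η, θ, hp, hfp, hη, hQ, hθ, hW, h45⟩ := stepR h6 hn hf hsm hA hq
      have hθp : ∀ c : k, θ ≠ c • p := by
        intro c h
        have e : θ = fun i => c * p i := by
          rw [h]
          rfl
        rw [e] at h45
        rw [T_self hf, T_self hf, hfp] at h45
        simp at h45
      obtain ⟨ζ, hζ, hζW, hζn⟩ := exists_outside ![p, θ] (linT f p) (linTW f p η) (by omega)
      have hζ' : T f 1 p ζ = 0 := hζ
      have hζW' : W f 1 1 p ζ η = 0 := by
        rw [W_symm]
        exact hζW
      have e0 : ∀ m : k, (fun i => θ i + m * ζ i) = fun i => 1 * θ i + m * ζ i := by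
        intro m
        funext i
        rw [one_mul]
      have h1 : ∀ m : k, T f 1 p (fun i => θ i + m * ζ i) = 0 := by
        intro m
        rw [e0, T_one_add, hθ, hζ']
        ring
      have hm : ∀ m : k, W f 1 1 p (fun i => θ i + m * ζ i) η = 0 := by
        intro m
        rw [W_symm, e0, W_add_right, W_symm f p η θ, W_symm f p η ζ, hW, hζW']
        ring
      have hr := fun m => rank_one h6 hf hsm hA hp hfp hη hQ (h1 m) (hm m)
      -- the square root
      obtain ⟨s, hs⟩ := IsAlgClosed.exists_pow_nat_eq (6 * T f 2 p η) (n := 2) (by norm_num)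
      have hs0 : s ≠ 0 := by
        rintro rfl
        rw [zero_pow (by norm_num)] at hs
        exact mul_ne_zero h6 hQ hs.symm
      obtain ⟨w, hw⟩ : ∃ w : Polynomial k, ∀ m : k,
          Polynomial.aeval m w = W f 2 1 p (fun i => θ i + m * ζ i) η := by
        refine ⟨W f 2 1 (fun i => Polynomial.C (p i)) (fun i => Polynomial.C (θ i) + Polynomial.X *
          Polynomial.C (ζ i)) (fun i => Polynomial.C (η i)), fun m => ?_⟩
        refine (W_map (Polynomial.aeval m : Polynomial k →ₐ[k] k) f 2 1 _ _ _).trans ?_
        have e1 : (fun i => (Polynomial.aeval m) (Polynomial.C (p i))) = p := by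
          funext i
          rw [Polynomial.aeval_C]
          rfl
        have e2 : (fun i => (Polynomial.aeval m) (Polynomial.C (θ i) + Polynomial.X *
            Polynomial.C (ζ i))) = fun i => θ i + m * ζ i := by
          funext i
          rw [map_add, map_mul, Polynomial.aeval_C, Polynomial.aeval_C, Polynomial.aeval_X]
          rfl
        have e3 : (fun i => (Polynomial.aeval m) (Polynomial.C (η i))) = η := by
          funext i
          rw [Polynomial.aeval_C]
          rfl
        rw [e1, e2, e3]
      have ha : ∀ m : k, (Polynomial.C s⁻¹ * w).eval m =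
          s⁻¹ * W f 2 1 p (fun i => θ i + m * ζ i) η := by
        intro m
        rw [Polynomial.eval_mul, Polynomial.eval_C, ← hw m, Polynomial.coe_aeval_eq_eval]
      refine surfB h6 hf (ind3' hp hθp hζn) hfp h1 (fun m => (hr m).1) (fun m => (hr m).2.2.1)
        (Polynomial.C s⁻¹ * w) ?_ h45
      intro m
      rw [ha, mul_pow, ← (hr m).2.2.2, inv_pow, hs]
      field_simp
    · have hθp : ∀ c : k, θ ≠ c • p := by
        intro c h
        have e : θ = fun i => c * p i := by
          rw [h]
          rfl
        rw [e] at h5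
        rw [T_self hf, hfp] at h5
        simp at h5
      obtain ⟨ζ, hζ, hζn⟩ := exists_outside' ![p, θ] (linT f p) (by omega)
      have hζ' : T f 1 p ζ = 0 := hζ
      have h1 : ∀ m : k, T f 1 p (fun i => θ i + m * ζ i) = 0 := by
        intro m
        have := T_one_add f p θ ζ 1 m
        simp only [one_mul] at this
        rw [this, hθ, hζ', mul_zero, add_zero]
      have h := fun m : k => h24 p _ hp hfp (h1 m)
      exact surfB h6 hf (ind3' hp hθp hζn) hfp h1 (fun m => (h m).1) (fun m => (h m).2.1) 0
        (fun m => by rw [(h m).2.2, Polynomial.eval_zero, zero_pow two_ne_zero]) (Or.inr h5)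

end Pool.Agent.Helper97.SD
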