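import Pool.Agent.Helper97.RU.Hensel

/-!
# Newton's lemma with order of approximation
-/

set_option autoImplicit false

namespace Pool.Agent.Helper97.SD

open MvPolynomial Pool.Agent.Helper97.RU

variable {k : Type*} [Field k] {σ : Type*} [Fintype σ]

omit [Fintype σ] in
/-- The constant coefficient commutes with evaluation. -/
private theorem cc_aeval (y : σ → PowerSeries k) (g : MvPolynomial σ k) :
    PowerSeries.constantCoeff (aeval y g) =
      aeval (fun i => PowerSeries.constantCoeff (y i)) g := by
  induction g using MvPolynomial.induction_on with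
  | C a => rw [aeval_C, aeval_C, PowerSeries.algebraMap_apply, PowerSeries.constantCoeff_C]
  | add p q hp hq => rw [map_add, map_add, map_add, hp, hq]
  | mul_X p j hp => rw [map_mul, map_mul, map_mul, hp, aeval_X, aeval_X]

omit [Fintype σ] in
/-- Evaluation is congruence preserving. -/
private theorem eval_congr {R : Type*} [CommRing R] (J : Ideal R) (z z' : σ → R)
    (h : ∀ i, z i - z' i ∈ J) (P : MvPolynomial σ R) : eval z P - eval z' P ∈ J := by
  induction P using MvPolynomial.induction_on with
  | C a => simp
  | add p q hp hq =>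
    have e : eval z (p + q) - eval z' (p + q) = (eval z p - eval z' p) + (eval z q - eval z' q) := by
      rw [map_add, map_add]
      ring
    rw [e]
    exact J.add_mem hp hq
  | mul_X p j hp =>
    have e : eval z (p * X j) - eval z' (p * X j) =
        (eval z p - eval z' p) * z j + eval z' p * (z j - z' j) := by
      rw [map_mul, map_mul, eval_X, eval_X]
      ring
    rw [e]
    exact J.add_mem (J.mul_mem_right _ hp) (J.mul_mem_left _ (h j))

/-- Second order expansion with a polynomial remainder. -/
private theorem expand {R : Type*} [CommRing R] [Algebra k R] (Y : σ → R) (δ : R)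
    (f : MvPolynomial σ k) : ∃ P : MvPolynomial σ R, ∀ z : σ → R,
      aeval (fun i => Y i + δ * z i) f =
        aeval Y f + δ * ∑ i, aeval Y (pderiv i f) * z i + δ ^ 2 * eval z P := by
  classical
  induction f using MvPolynomial.induction_on with
  | C a =>
    refine ⟨0, fun z => ?_⟩
    simp
  | add p q hp hq =>
    obtain ⟨P, hP⟩ := hp
    obtain ⟨Q, hQ⟩ := hq
    refine ⟨P + Q, fun z => ?_⟩
    rw [map_add, hP z, hQ z, map_add, map_add]
    have e : ∑ i, aeval Y (pderiv i (p + q)) * z i =
        ∑ i, aeval Y (pderiv i p) * z i + ∑ i, aeval Y (pderiv i q) * z i := by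
      rw [← Finset.sum_add_distrib]
      refine Finset.sum_congr rfl fun i _ => ?_
      rw [map_add, map_add, add_mul]
    rw [e]
    ring
  | mul_X p j hp =>
    obtain ⟨P, hP⟩ := hp
    refine ⟨P * C (Y j) + P * C δ * X j + (∑ i, C (aeval Y (pderiv i p)) * X i) * X j,
      fun z => ?_⟩
    have h1 : ∑ i, aeval Y (pderiv i (p * X j)) * z i =
        (∑ i, aeval Y (pderiv i p) * z i) * Y j + aeval Y p * z j := by
      have : ∀ i, aeval Y (pderiv i (p * X j)) * z i =
          aeval Y (pderiv i p) * z i * Y j + (if i = j then aeval Y p * z j else 0) := by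
        intro i
        rw [pderiv_mul, map_add, map_mul, map_mul, aeval_X, pderiv_X]
        by_cases hij : i = j
        · subst hij
          rw [Pi.single_eq_same, map_one, if_pos rfl]
          ring
        · rw [Pi.single_eq_of_ne (Ne.symm hij), map_zero, if_neg hij]
          ring
      rw [Finset.sum_congr rfl fun i _ => this i, Finset.sum_add_distrib, Finset.sum_mul,
        Finset.sum_ite_eq' Finset.univ j, if_pos (Finset.mem_univ _)]
    have h2 : eval z (∑ i, C (aeval Y (pderiv i p)) * X i : MvPolynomial σ R) =
        ∑ i, aeval Y (pderiv i p) * z i := by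
      rw [map_sum]
      refine Finset.sum_congr rfl fun i _ => ?_
      rw [map_mul, eval_C, eval_X]
    rw [map_mul, hP z, aeval_X, h1]
    simp only [map_add, map_mul, eval_C, eval_X, aeval_X, h2]
    ring

theorem newton {c N : ℕ} (hN : 1 ≤ N) (F : Fin c → MvPolynomial σ k) (y : σ → PowerSeries k)
    (hy : ∀ j, (PowerSeries.X : PowerSeries k) ^ N ∣ aeval y (F j)) (S : σ → Fin c → k)
    (hS : ∀ j l, ∑ i, aeval (fun i => PowerSeries.constantCoeff (y i)) (pderiv i (F j)) * S i l =
      if j = l then 1 else 0) :
    ∃ y' : σ → PowerSeries k, (∀ i, (PowerSeries.X : PowerSeries k) ^ N ∣ y' i - y i) ∧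
      ∀ j, aeval y' (F j) = 0 := by
  classical
  choose a ha using hy
  have hex : ∀ j, ∃ P : MvPolynomial σ (PowerSeries k), ∀ z : σ → PowerSeries k,
      aeval (fun i => y i + (PowerSeries.X : PowerSeries k) ^ N * z i) (F j) =
        aeval y (F j) + (PowerSeries.X : PowerSeries k) ^ N *
          ∑ i, aeval y (pderiv i (F j)) * z i +
        ((PowerSeries.X : PowerSeries k) ^ N) ^ 2 * eval z P := fun j =>
    expand y ((PowerSeries.X : PowerSeries k) ^ N) (F j)
  choose P hP using hex
  have hq : ∀ j l, ∃ q : PowerSeries k, ∑ i, aeval y (pderiv i (F j)) * PowerSeries.C (S i l) =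
      (if j = l then 1 else 0) + PowerSeries.X * q := by
    intro j l
    have h1 : (PowerSeries.X : PowerSeries k) ∣
        ∑ i, aeval y (pderiv i (F j)) * PowerSeries.C (S i l) - (if j = l then 1 else 0) := by
      rw [PowerSeries.X_dvd_iff, map_sub, map_sum]
      have h2 : ∀ i, PowerSeries.constantCoeff (aeval y (pderiv i (F j)) * PowerSeries.C (S i l)) =
          aeval (fun i => PowerSeries.constantCoeff (y i)) (pderiv i (F j)) * S i l := by
        intro i
        rw [map_mul, cc_aeval, PowerSeries.constantCoeff_C]
      rw [Finset.sum_congr rfl fun i _ => h2 i, hS j l]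
      split_ifs with h
      · rw [map_one, sub_self]
      · rw [map_zero, sub_self]
    obtain ⟨q, hq⟩ := h1
    exact ⟨q, by rw [← hq]; ring⟩
  choose q hq using hq
  let z : (Fin c → PowerSeries k) → σ → PowerSeries k := fun η i =>
    ∑ l, PowerSeries.C (S i l) * η l
  obtain ⟨M, rfl⟩ : ∃ M, N = M + 1 := ⟨N - 1, by omega⟩
  obtain ⟨η, hη⟩ := fixed_point (A := k) (c := c)
    (fun η j => -a j - PowerSeries.X * (∑ l, q j l * η l + PowerSeries.X ^ M * eval (z η) (P j))) (by
      intro u v m huv j
      have e : (-a j - PowerSeries.X * (∑ l, q j l * u l + PowerSeries.X ^ M * eval (z u) (P j))) -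
          (-a j - PowerSeries.X * (∑ l, q j l * v l + PowerSeries.X ^ M * eval (z v) (P j))) =
          PowerSeries.X * (-(∑ l, q j l * (u l - v l) +
            PowerSeries.X ^ M * (eval (z u) (P j) - eval (z v) (P j)))) := by
        simp only [mul_sub, Finset.sum_sub_distrib]
        ring
      change PowerSeries.X ^ (m + 1) ∣
        (-a j - PowerSeries.X * (∑ l, q j l * u l + PowerSeries.X ^ M * eval (z u) (P j))) -
          (-a j - PowerSeries.X * (∑ l, q j l * v l + PowerSeries.X ^ M * eval (z v) (P j)))
      rw [e, pow_succ, mul_comm (PowerSeries.X ^ m)]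
      refine mul_dvd_mul_left _ ((dvd_neg).2 (dvd_add ?_ (Dvd.dvd.mul_left ?_ _)))
      · exact Finset.dvd_sum fun l _ => Dvd.dvd.mul_left (huv l) _
      · rw [← Ideal.mem_span_singleton]
        refine eval_congr _ _ _ (fun i => ?_) _
        rw [Ideal.mem_span_singleton]
        have e2 : z u i - z v i = ∑ l, PowerSeries.C (S i l) * (u l - v l) := by
          simp only [z, mul_sub, Finset.sum_sub_distrib]
        rw [e2]
        exact Finset.dvd_sum fun l _ => Dvd.dvd.mul_left (huv l) _)
  refine ⟨fun i => y i + (PowerSeries.X : PowerSeries k) ^ (M + 1) * z η i, fun i => ?_,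
    fun j => ?_⟩
  · rw [add_sub_cancel_left]
    exact dvd_mul_right _ _
  · have hηj : -a j - PowerSeries.X * (∑ l, q j l * η l +
        PowerSeries.X ^ M * eval (z η) (P j)) = η j := congrFun hη j
    have e2 : ∑ i, aeval y (pderiv i (F j)) * z η i =
        η j + PowerSeries.X * ∑ l, q j l * η l := by
      have e3 : ∀ i, aeval y (pderiv i (F j)) * z η i =
          ∑ l, aeval y (pderiv i (F j)) * PowerSeries.C (S i l) * η l := by
        intro i
        simp only [z, Finset.mul_sum]
        exact Finset.sum_congr rfl fun l _ => by ring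
      rw [Finset.sum_congr rfl fun i _ => e3 i, Finset.sum_comm]
      have e4 : ∀ l, ∑ i, aeval y (pderiv i (F j)) * PowerSeries.C (S i l) * η l =
          (if j = l then η l else 0) + PowerSeries.X * (q j l * η l) := by
        intro l
        rw [← Finset.sum_mul, hq j l]
        split_ifs with h
        · ring
        · ring
      rw [Finset.sum_congr rfl fun l _ => e4 l, Finset.sum_add_distrib,
        Finset.sum_ite_eq Finset.univ j, if_pos (Finset.mem_univ _), Finset.mul_sum]
    rw [hP j (z η), e2, ha j]
    have e5 : η j = -a j - PowerSeries.X * (∑ l, q j l * η l +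
        PowerSeries.X ^ M * eval (z η) (P j)) := hηj.symm
    linear_combination (PowerSeries.X : PowerSeries k) ^ (M + 1) * e5

end Pool.Agent.Helper97.SD
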