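import Pool.Agent.Helper97.SD.Basic
import Pool.Agent.Helper97.SD.Flow

/-!
# Hypersurfaces all of whose second fundamental forms have rank at most one
-/

set_option autoImplicit false

namespace Pool.Agent.Helper97.SD

open MvPolynomial

universe u

variable {k : Type u} [Field k] {n : ℕ}

/-- The second fundamental form has rank at most one at every point. -/
theorem gram_zero [IsAlgClosed k] {f : MvPolynomial (Fin (n + 1)) k}
    (hB : ∀ p θ, ¬ A0 f p θ) {q x y : Fin (n + 1) → k}
    (hq : q ≠ 0) (hfq : aeval q f = 0) (hx : T f 1 q x = 0) (hy : T f 1 q y = 0) :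
    4 * T f 2 q x * T f 2 q y = W f 1 1 q x y ^ 2 := by
  have key : ∀ v, T f 1 q v = 0 → T f 2 q v = 0 → ∀ ζ, T f 1 q ζ = 0 → W f 1 1 q v ζ = 0 := by
    intro v hv1 hv2 ζ hζ
    by_contra hne
    exact hB q v ⟨hq, hfq, hv1, hv2, ζ, hζ, hne⟩
  by_cases hQ : T f 2 q x = 0
  · rw [key x hx hQ y hy, hQ]; ring
  · -- a root of `Q (y + t x)`
    obtain ⟨t, ht⟩ : ∃ t : k, T f 2 q x * t ^ 2 + W f 1 1 q x y * t + T f 2 q y = 0 := by
      have hd : (Polynomial.C (T f 2 q x) * Polynomial.X ^ 2 +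
          Polynomial.C (W f 1 1 q x y) * Polynomial.X + Polynomial.C (T f 2 q y)).degree ≠ 0 := by
        rw [Polynomial.degree_quadratic hQ]; norm_num
      obtain ⟨t, ht⟩ := IsAlgClosed.exists_root _ hd
      refine ⟨t, ?_⟩
      simpa [Polynomial.IsRoot.def] using ht
    have hv1 : T f 1 q (fun i => t * x i + 1 * y i) = 0 := by
      rw [T_one_add, hx, hy]; ring
    have hv2 : T f 2 q (fun i => t * x i + 1 * y i) = 0 := by
      rw [T_two_add]; linear_combination ht
    have h3 := key _ hv1 hv2 x hx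
    have h4 := key _ hv1 hv2 y hy
    rw [W_symm, W_add_right, W_self] at h3
    rw [W_symm, W_add_right, W_self, W_symm f q y x] at h4
    linear_combination (2 * T f 2 q x) * h4 - (W f 1 1 q x y) * h3

/-- Constants. -/
theorem T_C (f : MvPolynomial (Fin (n + 1)) k) (j : ℕ) (p θ : Fin (n + 1) → k) :
    T f j (fun i => Polynomial.C (p i)) (fun i => Polynomial.C (θ i)) =
      Polynomial.C (T f j p θ) :=
  (T_map (Algebra.ofId k (Polynomial k)) f j p θ).symm

theorem W_C (f : MvPolynomial (Fin (n + 1)) k) (i j : ℕ) (p θ η : Fin (n + 1) → k) :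
    W f i j (fun i => Polynomial.C (p i)) (fun i => Polynomial.C (θ i))
      (fun i => Polynomial.C (η i)) = Polynomial.C (W f i j p θ η) :=
  (W_map (Algebra.ofId k (Polynomial k)) f i j p θ η).symm

/-- The point variables. -/
noncomputable def ql (k : Type u) [Field k] (n : ℕ) :
    Fin (n + 1) → MvPolynomial (Fin (n + 1) ⊕ Fin (n + 1)) k := fun i => X (Sum.inl i)

/-- The direction variables. -/
noncomputable def xr (k : Type u) [Field k] (n : ℕ) :
    Fin (n + 1) → MvPolynomial (Fin (n + 1) ⊕ Fin (n + 1)) k := fun i => X (Sum.inr i)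

/-- A tangent vector at `q`: the projection of `η` along `ν`. -/
noncomputable def yv {L : Type*} [CommRing L] [Algebra k L] (f : MvPolynomial (Fin (n + 1)) k)
    (ν η : Fin (n + 1) → k) (q : Fin (n + 1) → L) : Fin (n + 1) → L := fun i =>
  T f 1 q (fun i => algebraMap k L (ν i)) * algebraMap k L (η i) +
    (-T f 1 q (fun i => algebraMap k L (η i))) * algebraMap k L (ν i)

/-- The Gram determinant. -/
noncomputable def gram {L : Type*} [CommRing L] [Algebra k L] (f : MvPolynomial (Fin (n + 1)) k)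
    (ν η : Fin (n + 1) → k) (q x : Fin (n + 1) → L) : L :=
  4 * T f 2 q x * T f 2 q (yv f ν η q) - W f 1 1 q x (yv f ν η q) ^ 2

theorem gram_map {L L' : Type*} [CommRing L] [Algebra k L] [CommRing L'] [Algebra k L']
    (φ : L →ₐ[k] L') (f : MvPolynomial (Fin (n + 1)) k) (ν η : Fin (n + 1) → k)
    (q x : Fin (n + 1) → L) :
    φ (gram f ν η q x) = gram f ν η (fun i => φ (q i)) (fun i => φ (x i)) := by
  have hy : (fun i => φ (yv f ν η q i)) = yv f ν η (fun i => φ (q i)) := by
    funext i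
    simp only [yv, map_add, map_mul, map_neg, T_map, AlgHom.commutes]
  simp only [gram, map_sub, map_mul, map_pow, T_map, W_map, hy, map_ofNat]

theorem T_yv {L : Type*} [CommRing L] [Algebra k L] (f : MvPolynomial (Fin (n + 1)) k)
    (ν η : Fin (n + 1) → k) (q : Fin (n + 1) → L) : T f 1 q (yv f ν η q) = 0 := by
  unfold yv
  rw [T_one_add]; ring

/-- The derivatives of the two constraints are linearly independent. -/
theorem indep (f : MvPolynomial (Fin (n + 1)) k) (p θ : Fin (n + 1) → k) (i0 : Fin (n + 1))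
    (hi0 : aeval p (pderiv i0 f) ≠ 0) :
    LinearIndependent k (fun j : Fin 2 => fun i => aeval (Sum.elim p θ)
      (pderiv i ((![aeval (ql k n) f, T f 1 (ql k n) (xr k n)] : Fin 2 →
        MvPolynomial (Fin (n + 1) ⊕ Fin (n + 1)) k) j))) := by
  have hr : ∀ g : MvPolynomial (Fin (n + 1)) k, aeval (ql k n) g = rename Sum.inl g := by
    intro g; unfold ql; rw [rename_eq_aeval]; rfl
  have hr0 : ∀ g : MvPolynomial (Fin (n + 1)) k, pderiv (Sum.inr i0 : Fin (n + 1) ⊕ Fin (n + 1))
      (rename Sum.inl g) = 0 := by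
    intro g
    apply pderiv_eq_zero_of_notMem_vars
    intro h
    have := vars_rename Sum.inl g h
    simp at this
  have hinj : Function.Injective (Sum.inl : Fin (n + 1) → Fin (n + 1) ⊕ Fin (n + 1)) :=
    Sum.inl_injective
  have hev : ∀ g : MvPolynomial (Fin (n + 1)) k, aeval (Sum.elim p θ) (rename Sum.inl g) =
      aeval p g := by
    intro g; rw [aeval_rename]; rfl
  rw [Fintype.linearIndependent_iff]
  intro g hg
  rw [Fin.sum_univ_two] at hg
  simp only [Matrix.cons_val_zero, Matrix.cons_val_one] at hg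
  have h1 := congrFun hg (Sum.inr i0)
  have h0 := congrFun hg (Sum.inl i0)
  simp only [Pi.add_apply, Pi.smul_apply, Pi.zero_apply, smul_eq_mul] at h0 h1
  rw [T_one, hr, hr0, map_sum, map_sum, Finset.sum_eq_single i0] at h1
  · rw [hr, xr, pderiv_mul, hr0, pderiv_X_self, zero_mul, zero_add, mul_one, hev, map_zero,
      mul_zero, zero_add] at h1
    have hg1 : g 1 = 0 := by
      rcases mul_eq_zero.mp h1 with h | h
      · exact h
      · exact absurd h hi0
    rw [hg1, zero_mul, add_zero, hr, pderiv_rename hinj, hev] at h0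
    have hg0 : g 0 = 0 := by
      rcases mul_eq_zero.mp h0 with h | h
      · exact h
      · exact absurd h hi0
    intro i
    fin_cases i
    · exact hg0
    · exact hg1
  · intro b _ hb
    rw [hr, xr, pderiv_mul, hr0, zero_mul, zero_add, pderiv_X_of_ne (by simpa using hb),
      mul_zero, map_zero]
  · intro h; simp at h

theorem rank_one [IsAlgClosed k] (h6 : (6 : k) ≠ 0) {f : MvPolynomial (Fin (n + 1)) k}
    (hf : f.IsHomogeneous 6) (hsm : Smooth f) (hB : ∀ p θ, ¬ A0 f p θ) {p η θ : Fin (n + 1) → k}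
    (hp : p ≠ 0) (hfp : aeval p f = 0) (hη : T f 1 p η = 0) (hQ : T f 2 p η ≠ 0)
    (hθ : T f 1 p θ = 0) (hW : W f 1 1 p θ η = 0) :
    T f 2 p θ = 0 ∧ (∀ ζ, T f 1 p ζ = 0 → W f 1 1 p θ ζ = 0) ∧ T f 3 p θ = 0 ∧
      6 * T f 4 p θ * T f 2 p η = W f 2 1 p θ η ^ 2 := by
  have h2 : (2 : k) ≠ 0 := by
    intro h; apply h6; linear_combination 3 * h
  have h3 : (3 : k) ≠ 0 := by
    intro h; apply h6; linear_combination 2 * h
  have hQθ : T f 2 p θ = 0 := by
    have h := gram_zero hB hp hfp hθ hη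
    rw [hW] at h
    have h' : (2 * 2 * T f 2 p η) * T f 2 p θ = 0 := by linear_combination h
    rcases mul_eq_zero.mp h' with h'' | h''
    · exact absurd h'' (mul_ne_zero (mul_ne_zero h2 h2) hQ)
    · exact h''
  have hrad : ∀ ζ, T f 1 p ζ = 0 → W f 1 1 p θ ζ = 0 := by
    intro ζ hζ
    by_contra hne
    exact hB p θ ⟨hp, hfp, hθ, hQθ, ζ, hζ, hne⟩
  refine ⟨hQθ, hrad, ?_⟩
  -- a coordinate direction transversal to the hypersurface
  obtain ⟨i0, hi0⟩ := hsm p hp hfp
  obtain ⟨j0, hj0⟩ : ∃ j, p j ≠ 0 := by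
    by_contra h; push Not at h; exact hp (funext h)
  set ν : Fin (n + 1) → k := Pi.single i0 1 with hν
  have hTν : T f 1 p ν = aeval p (pderiv i0 f) := by
    rw [T_one, Finset.sum_eq_single i0]
    · simp [hν]
    · intro b _ hb; simp [hν, Pi.single_eq_of_ne hb]
    · simp
  -- vanishing on the zeros of the constraints
  have hG : ∀ z : Fin (n + 1) ⊕ Fin (n + 1) → k,
      (∀ j, aeval z ((![aeval (ql k n) f, T f 1 (ql k n) (xr k n)] : Fin 2 →
        MvPolynomial (Fin (n + 1) ⊕ Fin (n + 1)) k) j) = 0) →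
      aeval z (X (Sum.inl j0) * gram f ν η (ql k n) (xr k n)) = 0 := by
    intro z hz
    have h0 := hz 0
    have h1 := hz 1
    simp only [Matrix.cons_val_zero, Matrix.cons_val_one] at h0 h1
    rw [T_map] at h1
    rw [comp_aeval_apply] at h0
    rw [map_mul, gram_map, aeval_X]
    simp only [ql, xr, aeval_X] at h0 h1 ⊢
    by_cases hz0 : (fun i => z (Sum.inl i)) = 0
    · rw [show z (Sum.inl j0) = 0 from congrFun hz0 j0, zero_mul]
    · rw [gram, gram_zero hB hz0 h0 h1 (T_yv f ν η _), sub_self, mul_zero]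
  have hM : aeval (Sum.elim p θ) (X (Sum.inl j0) : MvPolynomial (Fin (n + 1) ⊕ Fin (n + 1)) k) ≠ 0 := by
    rw [aeval_X]; exact hj0
  have hind := indep f p θ i0 hi0
  -- the line
  set P : Fin (n + 1) → Polynomial k :=
    fun i => Polynomial.C (p i) + Polynomial.X * Polynomial.C (θ i) with hP
  set Θ : Fin (n + 1) → Polynomial k := fun i => Polynomial.C (θ i) with hΘ
  set H : Fin (n + 1) → Polynomial k := fun i => Polynomial.C (η i) with hH
  set V : Fin (n + 1) → Polynomial k := fun i => Polynomial.C (ν i) with hV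
  have hline : aeval (line p θ) (gram f ν η (ql k n) (xr k n)) = gram f ν η P Θ := by
    rw [gram_map]
    simp only [ql, xr, aeval_X, line, Sum.elim_inl, Sum.elim_inr]
    rfl
  have hF0 : aeval (line p θ) (aeval (ql k n) f) =
      ∑ j ∈ Finset.range 7, Polynomial.C (T f j p θ) * Polynomial.X ^ j := by
    rw [comp_aeval_apply]
    simp only [ql, aeval_X, line, Sum.elim_inl]
    rw [T_poly hf]
    simp only [T_C]
  have hF1 : aeval (line p θ) (T f 1 (ql k n) (xr k n)) =
      ∑ m ∈ Finset.range 7, (m.choose 1 : Polynomial k) * Polynomial.X ^ (m - 1) *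
        Polynomial.C (T f m p θ) := by
    rw [T_map]
    simp only [ql, xr, aeval_X, line, Sum.elim_inl, Sum.elim_inr]
    rw [T_shift hf]
    simp only [T_C]
  have hT2 : T f 2 P Θ = ∑ m ∈ Finset.range 7, (m.choose 2 : Polynomial k) *
      Polynomial.X ^ (m - 2) * Polynomial.C (T f m p θ) := by
    rw [hP, hΘ, T_shift hf]
    simp only [T_C]
  have hT1H : T f 1 P H = ∑ m ∈ Finset.range 7, Polynomial.X ^ m *
      Polynomial.C (W f m 1 p θ η) := by
    rw [hP, T_one_shift hf]
    simp only [hH, W_C]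
  have hWH : W f 1 1 P Θ H = ∑ m ∈ Finset.range 7, (m : Polynomial k) *
      Polynomial.X ^ (m - 1) * Polynomial.C (W f m 1 p θ η) := by
    rw [hP, hΘ, W_shift hf]
    simp only [hH, W_C]
  have hw0 : W f 0 1 p θ η = 0 := by rw [W_zero_one, hη]
  have ht0 : T f 0 p θ = 0 := by rw [T_zero, hfp]
  simp only [Finset.sum_range_succ, Finset.sum_range_zero, hw0, hW, ht0, hθ, hQθ, map_zero,
    mul_zero, zero_mul, zero_add, add_zero, pow_zero, pow_one, one_mul, mul_one, Nat.cast_zero,
    Nat.cast_one] at hF0 hF1 hT2 hT1H hWH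
  have hWY : W f 1 1 P Θ (yv f ν η P) = T f 1 P V * W f 1 1 P Θ H +
      (-T f 1 P H) * W f 1 1 P Θ V := by
    unfold yv
    rw [W_add_right]
    rfl
  -- evaluation at the origin
  have hP0 : (fun i => Polynomial.aeval (0 : k) (P i)) = p := by
    funext i; simp [hP]
  have hy0 : (fun i => Polynomial.aeval (0 : k) (yv f ν η P i)) = yv f ν η p := by
    funext i
    simp only [yv, map_add, map_mul, map_neg, T_map, AlgHom.commutes, hP0]
  have e1 : Polynomial.aeval (0 : k) (T f 2 P (yv f ν η P)) = (T f 1 p ν) ^ 2 * T f 2 p η := by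
    rw [T_map, hP0, hy0]
    unfold yv
    rw [T_two_add]
    simp only [Algebra.algebraMap_self, RingHom.id_apply, hη]
    ring
  have e2 : Polynomial.aeval (0 : k) (T f 1 P V) = T f 1 p ν := by
    rw [T_map, hP0]
    simp [hV]
  have hν0 : T f 1 p ν ≠ 0 := by rw [hTν]; exact hi0
  norm_num [Nat.choose] at hF1 hT2 hWH
  have hA : T f 2 P Θ = Polynomial.X * (3 * Polynomial.C (T f 3 p θ) + Polynomial.X *
      (6 * Polynomial.C (T f 4 p θ) + 10 * Polynomial.X * Polynomial.C (T f 5 p θ) +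
        15 * Polynomial.X ^ 2 * Polynomial.C (T f 6 p θ))) := by
    rw [hT2]; ring
  obtain ⟨r1, hr1⟩ : ∃ r1, W f 1 1 P Θ H =
      Polynomial.X * (2 * Polynomial.C (W f 2 1 p θ η) + Polynomial.X * r1) :=
    ⟨3 * Polynomial.C (W f 3 1 p θ η) + 4 * Polynomial.X * Polynomial.C (W f 4 1 p θ η) +
      5 * Polynomial.X ^ 2 * Polynomial.C (W f 5 1 p θ η) +
      6 * Polynomial.X ^ 3 * Polynomial.C (W f 6 1 p θ η), by rw [hWH]; ring⟩
  obtain ⟨r2, hr2⟩ : ∃ r2, T f 1 P H = Polynomial.X ^ 2 * r2 :=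
    ⟨Polynomial.C (W f 2 1 p θ η) + Polynomial.X * Polynomial.C (W f 3 1 p θ η) +
      Polynomial.X ^ 2 * Polynomial.C (W f 4 1 p θ η) +
      Polynomial.X ^ 3 * Polynomial.C (W f 5 1 p θ η) +
      Polynomial.X ^ 4 * Polynomial.C (W f 6 1 p θ η), by rw [hT1H]; ring⟩
  -- order two
  have hdvd2 : (Polynomial.X : Polynomial k) ^ 2 ∣ gram f ν η P Θ := by
    rw [← hline]
    refine flow (by norm_num) _ _ _ p θ ?_ hind hM hG
    intro j
    fin_cases j
    · show Polynomial.X ^ 2 ∣ aeval (line p θ) (aeval (ql k n) f)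
      rw [hF0]
      exact ⟨Polynomial.C (T f 3 p θ) * Polynomial.X + Polynomial.C (T f 4 p θ) *
        Polynomial.X ^ 2 + Polynomial.C (T f 5 p θ) * Polynomial.X ^ 3 +
        Polynomial.C (T f 6 p θ) * Polynomial.X ^ 4, by ring⟩
    · show Polynomial.X ^ 2 ∣ aeval (line p θ) (T f 1 (ql k n) (xr k n))
      rw [hF1]
      exact ⟨3 * Polynomial.C (T f 3 p θ) + 4 * Polynomial.X * Polynomial.C (T f 4 p θ) +
        5 * Polynomial.X ^ 2 * Polynomial.C (T f 5 p θ) +
        6 * Polynomial.X ^ 3 * Polynomial.C (T f 6 p θ), by ring⟩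
  have ht3 : T f 3 p θ = 0 := by
    have h := hdvd2
    rw [gram, hWY, hA, hr1, hr2] at h
    have h' : (Polynomial.X : Polynomial k) * Polynomial.X ∣ Polynomial.X *
        (4 * (3 * Polynomial.C (T f 3 p θ) + Polynomial.X *
      (6 * Polynomial.C (T f 4 p θ) + 10 * Polynomial.X * Polynomial.C (T f 5 p θ) +
        15 * Polynomial.X ^ 2 * Polynomial.C (T f 6 p θ))) * T f 2 P (yv f ν η P) -
        Polynomial.X * (T f 1 P V * (2 * Polynomial.C (W f 2 1 p θ η) + Polynomial.X * r1) -
          Polynomial.X * r2 * W f 1 1 P Θ V) ^ 2) := by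
      convert h using 1 <;> ring
    have h'' := (mul_dvd_mul_iff_left Polynomial.X_ne_zero).mp h'
    obtain ⟨c, hc⟩ := h''
    have h0 := congrArg (Polynomial.aeval (0 : k)) hc
    simp only [map_sub, map_mul, map_add, map_pow, Polynomial.aeval_X, Polynomial.aeval_C, e1,
      map_ofNat, zero_mul, mul_zero, add_zero, sub_zero, Algebra.algebraMap_self,
      RingHom.id_apply] at h0
    have h12 : (4 * 3 * ((T f 1 p ν) ^ 2 * T f 2 p η)) * T f 3 p θ = 0 := by
      linear_combination h0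
    rcases mul_eq_zero.mp h12 with hh | hh
    · exfalso
      have h4 : (4 : k) ≠ 0 := by
        intro h; apply h2
        have : (2 : k) * 2 = 0 := by linear_combination h
        rcases mul_eq_zero.mp this with h | h <;> exact h
      exact (mul_ne_zero (mul_ne_zero h4 h3) (mul_ne_zero (pow_ne_zero 2 hν0) hQ)) hh
    · exact hh
  refine ⟨ht3, ?_⟩
  -- order three
  have hdvd3 : (Polynomial.X : Polynomial k) ^ 3 ∣ gram f ν η P Θ := by
    rw [← hline]
    refine flow (by norm_num) _ _ _ p θ ?_ hind hM hG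
    intro j
    fin_cases j
    · show Polynomial.X ^ 3 ∣ aeval (line p θ) (aeval (ql k n) f)
      rw [hF0]
      exact ⟨Polynomial.C (T f 3 p θ) + Polynomial.C (T f 4 p θ) *
        Polynomial.X + Polynomial.C (T f 5 p θ) * Polynomial.X ^ 2 +
        Polynomial.C (T f 6 p θ) * Polynomial.X ^ 3, by ring⟩
    · show Polynomial.X ^ 3 ∣ aeval (line p θ) (T f 1 (ql k n) (xr k n))
      rw [hF1, ht3]
      exact ⟨4 * Polynomial.C (T f 4 p θ) +
        5 * Polynomial.X * Polynomial.C (T f 5 p θ) +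
        6 * Polynomial.X ^ 2 * Polynomial.C (T f 6 p θ), by rw [Polynomial.C_0]; ring⟩
  have h := hdvd3
  rw [gram, hWY, hA, hr1, hr2, ht3, Polynomial.C_0] at h
  have h' : (Polynomial.X : Polynomial k) ^ 2 * Polynomial.X ∣ Polynomial.X ^ 2 *
      (4 * (6 * Polynomial.C (T f 4 p θ) + 10 * Polynomial.X * Polynomial.C (T f 5 p θ) +
        15 * Polynomial.X ^ 2 * Polynomial.C (T f 6 p θ)) * T f 2 P (yv f ν η P) -
        (T f 1 P V * (2 * Polynomial.C (W f 2 1 p θ η) + Polynomial.X * r1) -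
          Polynomial.X * r2 * W f 1 1 P Θ V) ^ 2) := by
    convert h using 1 <;> ring
  have h'' := (mul_dvd_mul_iff_left (pow_ne_zero 2 Polynomial.X_ne_zero)).mp h'
  obtain ⟨c, hc⟩ := h''
  have h0 := congrArg (Polynomial.aeval (0 : k)) hc
  simp only [map_sub, map_mul, map_add, map_pow, Polynomial.aeval_X, Polynomial.aeval_C, e1, e2,
    map_ofNat, zero_mul, mul_zero, add_zero, sub_zero, Algebra.algebraMap_self,
    RingHom.id_apply] at h0
  have h12 : (2 * 2 * (T f 1 p ν) ^ 2) * (6 * T f 4 p θ * T f 2 p η - W f 2 1 p θ η ^ 2) = 0 := by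
    linear_combination h0
  rcases mul_eq_zero.mp h12 with hh | hh
  · exact absurd hh (mul_ne_zero (mul_ne_zero h2 h2) (pow_ne_zero 2 hν0))
  · exact sub_eq_zero.mp hh

end Pool.Agent.Helper97.SD
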